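import Pool.Agent.Run7.h892.Tower

/-! DG modules with finite-dimensional cohomology over a connected graded ring are built from the
residue field. -/

universe u

namespace Run7.h892

open DirectSum

variable {R : Type u} [CommRing R] {𝒜 : ℤ → AddSubgroup R}

/-- A graded submodule which is closed under the differential, as a DG module. -/
@[reducible] noncomputable def subMod (M : DGMod R 𝒜) (N : Submodule R M)
    (hN : ∀ (i : ℤ) (x : M), x ∈ N → gproj M.internal i x ∈ N)
    (hd : ∀ x ∈ N, M.d x ∈ N) : DGMod R 𝒜 where
  carrier := N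
  gr i := (M.gr i).comap N.subtype.toAddMonoidHom
  internal := by
    classical
    refine isInternal_of_proj _
      (fun i => AddMonoidHom.mk' (fun x : N => (⟨gproj M.internal i x, hN i x x.2⟩ : N))
        fun x y => Subtype.ext (map_add _ _ _))
      (fun i x hx => Subtype.ext (gproj_of_mem M.internal hx))
      (fun i j x hij hx => Subtype.ext (gproj_of_mem_ne M.internal hij hx)) (fun x => ?_)
    obtain ⟨s, -, hs⟩ := gproj_sum M.internal (x : M)
    have h1 : x = ∑ i ∈ s, (⟨gproj M.internal i x, hN i x x.2⟩ : N) := by
      apply Subtype.ext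
      rw [AddSubmonoidClass.coe_finsetSum]
      exact (hs s subset_rfl).symm
    rw [h1]
    exact AddSubgroup.sum_mem _ fun i _ => AddSubgroup.mem_iSup_of_mem i (gproj_mem _ _ _)
  smul_mem := fun hr hx => M.smul_mem hr hx
  d := M.d.restrict hd
  d_mem := fun hx => M.d_mem hx
  d_d x := Subtype.ext (M.d_d x)

/-- The inclusion of a graded submodule. -/
@[reducible] noncomputable def subIncl (M : DGMod R 𝒜) (N : Submodule R M)
    (hN : ∀ (i : ℤ) (x : M), x ∈ N → gproj M.internal i x ∈ N)
    (hd : ∀ x ∈ N, M.d x ∈ N) : DGHom (subMod M N hN hd) M where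
  lin := N.subtype
  comm _ := rfl
  mem := fun hx => hx

/-- A graded ring viewed as a DG module along a ring homomorphism. -/
def algMod {B : Type u} [CommRing B] {ℬ : ℤ → AddSubgroup B} (hB : GrRing B ℬ)
    (φ : R →+* B) (hφ : ∀ {i : ℤ} {r : R}, r ∈ 𝒜 i → φ r ∈ ℬ i) : DGMod R 𝒜 where
  carrier := B
  grp := inferInstance
  mod := Module.compHom B φ
  gr := ℬ
  internal := hB.internal
  smul_mem := fun hr hx => hB.mul_mem (hφ hr) hx
  d := @LinearMap.mk R R _ _ (RingHom.id R) B B _ _ (Module.compHom B φ) (Module.compHom B φ)
    0 (fun _ _ => (mul_zero (φ _)).symm)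
  d_mem := fun _ => AddSubgroup.zero_mem _
  d_d _ := rfl

lemma algMod_d {B : Type u} [CommRing B] {ℬ : ℤ → AddSubgroup B} (hB : GrRing B ℬ)
    (φ : R →+* B) (hφ : ∀ {i : ℤ} {r : R}, r ∈ 𝒜 i → φ r ∈ ℬ i) (x : algMod hB φ hφ) :
    (algMod hB φ hφ).d x = 0 := rfl

variable {k : Type u} [Field k] [Algebra k R]

/-- The grading of the field concentrated in degree zero. -/
def fieldGr (k : Type u) [Field k] (i : ℤ) : AddSubgroup k where
  carrier := {x | i ≠ 0 → x = 0}
  zero_mem' := fun _ => rfl
  add_mem' := fun {x y} hx hy hi => by rw [hx hi, hy hi, add_zero]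
  neg_mem' := fun {x} hx hi => by rw [hx hi, neg_zero]

lemma fieldGr_ring (k : Type u) [Field k] : GrRing k (fieldGr k) where
  internal := by
    classical
    refine isInternal_of_proj _ (fun i => if i = 0 then AddMonoidHom.id k else 0)
      (fun i x hx => ?_) (fun i j x hij hx => ?_) (fun x => ?_)
    · by_cases hi : i = 0
      · rw [if_pos hi]
        rfl
      · rw [if_neg hi, hx hi]
        rfl
    · by_cases hj : j = 0
      · rw [if_pos hj]
        exact hx (by omega)
      · rw [if_neg hj]
        rfl
    · exact AddSubgroup.mem_iSup_of_mem 0 fun h => absurd rfl h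
  one_mem := fun h => absurd rfl h
  mul_mem := fun {i j r s} hr hs hij => by
    by_cases hi : i = 0
    · rw [hs (by omega), mul_zero]
    · rw [hr hi, zero_mul]
  even := fun {i r} hr hr0 => by
    by_cases hi : i = 0
    · rw [hi]
      exact Even.zero
    · exact absurd (hr hi) hr0

lemma exists_tau (M : DGMod R 𝒜) : ∃ τ : M →+ M,
    (∀ (c : k) (x : M), τ (algebraMap k R c • x) = algebraMap k R c • τ x) ∧
      ∀ x, M.d (τ (M.d x)) = M.d x := by
  let _ : Module k M := Module.compHom M (algebraMap k R)
  let d' : M →ₗ[k] M :=
    { M.d.toAddMonoidHom with map_smul' := fun c x => M.d.map_smul (algebraMap k R c) x }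
  obtain ⟨τ, hτ⟩ := exists_quasi_inverse d'
  exact ⟨τ.toAddMonoidHom, fun c x => τ.map_smul c x, hτ⟩

lemma exists_functional (M : DGMod R 𝒜) {z : M} (hz : z ≠ 0) : ∃ l : M →+ k,
    (∀ (c : k) (x : M), l (algebraMap k R c • x) = c * l x) ∧ l z = 1 := by
  let _ : Module k M := Module.compHom M (algebraMap k R)
  obtain ⟨l, hl⟩ := (LinearMap.toSpanSingleton k M z).exists_leftInverse_of_injective
    (LinearMap.ker_toSpanSingleton k hz)
  refine ⟨l.toAddMonoidHom, fun c x => l.map_smul c x, ?_⟩
  have := LinearMap.congr_fun hl 1
  rw [LinearMap.comp_apply, LinearMap.toSpanSingleton_apply, one_smul] at this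
  exact this

/-- Truncation: the sum of the components of degree at least `b`. -/
noncomputable def trunc (M : DGMod R 𝒜) (b : ℤ) : M →+ M :=
  glift M.internal fun i => if b ≤ i then AddMonoidHom.id M else 0

lemma trunc_of_mem (M : DGMod R 𝒜) {b i : ℤ} (h : b ≤ i) {x : M} (hx : x ∈ M.gr i) :
    trunc M b x = x := by
  rw [trunc, glift_apply _ _ hx, if_pos h]
  rfl

lemma trunc_of_mem' (M : DGMod R 𝒜) {b i : ℤ} (h : i < b) {x : M} (hx : x ∈ M.gr i) :
    trunc M b x = 0 := by
  rw [trunc, glift_apply _ _ hx, if_neg (by omega)]
  rfl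

lemma trunc_d (M : DGMod R 𝒜) (b : ℤ) (x : M) :
    trunc M (b + 1) (M.d x) = M.d (trunc M b x) := by
  induction x using gr_induction M.internal with
  | h0 => simp
  | hadd x y hx hy => rw [map_add, map_add, hx, hy, map_add, map_add]
  | hh i x hx =>
    by_cases h : b ≤ i
    · rw [trunc_of_mem M h hx, trunc_of_mem M (by omega) (M.d_mem hx)]
    · rw [trunc_of_mem' M (by omega) hx, trunc_of_mem' M (by omega) (M.d_mem hx), map_zero]

lemma gproj_trunc (M : DGMod R 𝒜) (b i : ℤ) (x : M) :
    gproj M.internal i (trunc M b x) = if b ≤ i then gproj M.internal i x else 0 := by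
  induction x using gr_induction M.internal with
  | h0 => simp
  | hadd x y hx hy =>
    rw [map_add, map_add, hx, hy, map_add]
    split_ifs
    · rfl
    · rw [add_zero]
  | hh j x hx =>
    by_cases h : b ≤ j
    · rw [trunc_of_mem M h hx]
      split_ifs with h1
      · rfl
      · exact gproj_of_mem_ne M.internal (by omega) hx
    · rw [trunc_of_mem' M (by omega) hx, map_zero]
      split_ifs with h1
      · exact (gproj_of_mem_ne M.internal (by omega) hx).symm
      · rfl

/-- A DG module with finite-dimensional cohomology over a connected graded ring lies in the thick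
subcategory generated by the residue field. -/
theorem thick_of_finite (hA : GrRing R 𝒜) (ε : R →+* k)
    (hε : ∀ {i : ℤ} {r : R}, r ∈ 𝒜 i → ε r ∈ fieldGr k i)
    (hεk : ∀ c, ε (algebraMap k R c) = c)
    (hneg : ∀ {i : ℤ} {r : R}, r ∈ 𝒜 i → i < 0 → r = 0)
    (hzero : ∀ {r : R}, r ∈ 𝒜 0 → r = algebraMap k R (ε r))
    (hk : ∀ c, algebraMap k R c ∈ 𝒜 0) {G : DGMod R 𝒜 → Prop}
    (hG : Thick G (algMod (fieldGr_ring k) ε hε)) :
    ∀ (m : ℕ) (M : DGMod R 𝒜) (z : Fin m → M), (∀ j, M.d (z j) = 0) →
      (∀ j, ∃ i, z j ∈ M.gr i) →
      (∀ x, M.d x = 0 → ∃ (c : Fin m → k) (y : M),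
        x = ∑ j, algebraMap k R (c j) • z j + M.d y) → Thick G M := by
  intro m
  induction m with
  | zero =>
    intro M z _ _ h
    refine .qis' (toZero M) ⟨fun x hx _ => ?_, fun w _ => ⟨0, map_zero _, 0, rfl⟩⟩ hG.zero
    obtain ⟨_, y, hy⟩ := h x hx
    exact ⟨y, by simpa using hy⟩
  | succ m ih =>
    intro M z hz hzg hgen
    choose deg hdeg using hzg
    obtain ⟨t, ht⟩ := Finite.exists_max deg
    -- dropping a generator
    have drop : (∃ y, z t = M.d y) → Thick G M := by
      rintro ⟨y, hy⟩
      refine ih M (fun j => z (t.succAbove j)) (fun j => hz _) (fun j => ⟨_, hdeg _⟩) ?_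
      intro x hx
      obtain ⟨c, w, hw⟩ := hgen x hx
      refine ⟨fun j => c (t.succAbove j), algebraMap k R (c t) • y + w, ?_⟩
      rw [hw, Fin.sum_univ_succAbove _ t, hy, map_add, map_smul]
      abel
    by_cases hzt : ∃ y, z t = M.d y
    · exact drop hzt
    have hzt0 : z t ≠ 0 := fun h => hzt ⟨0, by rw [h, map_zero]⟩
    obtain ⟨τ, hτk, hτ⟩ := exists_tau (k := k) M
    obtain ⟨l, hlk, hl⟩ := exists_functional (k := k) M hzt0
    set b := deg t with hb
    -- the projection to the cocycles of degree `b`
    let P : M →+ M := (gproj M.internal b).comp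
      (AddMonoidHom.id M - τ.comp M.d.toAddMonoidHom)
    have hP : ∀ x, P x = gproj M.internal b (x - τ (M.d x)) := fun _ => rfl
    have hPd : ∀ x, M.d (P x) = 0 := by
      intro x
      rw [hP, ← gproj_d, map_sub, hτ, sub_self, map_zero]
    have hPc : ∀ x, M.d x = 0 → x ∈ M.gr b → P x = x := by
      intro x hx hxb
      rw [hP, hx, map_zero, sub_zero, gproj_of_mem _ hxb]
    have hPm : ∀ x, P x ∈ M.gr b := fun x => gproj_mem _ _ _
    have hgk : ∀ (i : ℤ) (c : k) (x : M), gproj M.internal i (algebraMap k R c • x) =
        algebraMap k R c • gproj M.internal i x := by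
      intro i c x
      have := gproj_smul M.internal M.smul_mem (hk c) i x
      rwa [zero_add] at this
    have hPk : ∀ (c : k) (x : M), P (algebraMap k R c • x) = algebraMap k R c • P x := by
      intro c x
      rw [hP, hP, map_smul, hτk, ← smul_sub, hgk]
    -- the submodule
    let N : Submodule R M :=
      { carrier := {x | (∀ i, i < b → gproj M.internal i x = 0) ∧
          ∃ c : k, P (gproj M.internal b x) = algebraMap k R c • z t}
        zero_mem' := ⟨fun i _ => map_zero _, 0, by simp⟩
        add_mem' := by
          rintro x y ⟨h1, c, hc⟩ ⟨h2, e, he⟩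
          refine ⟨fun i hi => by rw [map_add, h1 i hi, h2 i hi, add_zero], c + e, ?_⟩
          rw [map_add, map_add, hc, he, map_add, add_smul]
        smul_mem' := by
          intro r x hx
          induction r using gr_induction hA.internal with
          | h0 =>
            rw [zero_smul]
            exact ⟨fun i _ => map_zero _, 0, by simp⟩
          | hadd r s hr hs =>
            rw [add_smul]
            obtain ⟨h1, c, hc⟩ := hr
            obtain ⟨h2, e, he⟩ := hs
            refine ⟨fun i hi => by rw [map_add, h1 i hi, h2 i hi, add_zero], c + e, ?_⟩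
            rw [map_add, map_add, hc, he, map_add, add_smul]
          | hh a r hr =>
            obtain ⟨h1, c, hc⟩ := hx
            rcases lt_trichotomy a 0 with ha | ha | ha
            · rw [hneg hr ha, zero_smul]
              exact ⟨fun i _ => map_zero _, 0, by simp⟩
            · subst ha
              rw [hzero hr]
              refine ⟨fun i hi => by rw [hgk, h1 i hi, smul_zero], ε r * c, ?_⟩
              rw [hgk, hPk, hc, smul_smul, map_mul]
            · have h3 : ∀ i, i ≤ b → gproj M.internal i (r • x) = 0 := by
                intro i hi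
                have := gproj_smul M.internal M.smul_mem hr (i - a) x
                rw [add_sub_cancel] at this
                rw [this, h1 _ (by omega), smul_zero]
              refine ⟨fun i hi => h3 i hi.le, 0, ?_⟩
              rw [h3 b le_rfl, map_zero, map_zero, zero_smul] }
    have hNmem : ∀ x : M, x ∈ N ↔ (∀ i, i < b → gproj M.internal i x = 0) ∧
          ∃ c : k, P (gproj M.internal b x) = algebraMap k R c • z t := fun x => Iff.rfl
    have hgg : ∀ (i j : ℤ) (x : M), gproj M.internal i (gproj M.internal j x) =
        if i = j then gproj M.internal j x else 0 := by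
      intro i j x
      split_ifs with h
      · subst h
        exact gproj_of_mem _ (gproj_mem _ _ _)
      · exact gproj_of_mem_ne _ (Ne.symm h) (gproj_mem _ _ _)
    have hNg : ∀ (i : ℤ) (x : M), x ∈ N → gproj M.internal i x ∈ N := by
      intro i x hx
      rw [hNmem] at hx ⊢
      obtain ⟨h1, c, hc⟩ := hx
      refine ⟨fun j hj => ?_, ?_⟩
      · rw [hgg]
        split_ifs with h
        · rw [← h]
          exact h1 j hj
        · rfl
      · rw [hgg]
        split_ifs with h
        · rw [← h]
          exact ⟨c, hc⟩
        · exact ⟨0, by simp⟩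
    have hNd : ∀ x ∈ N, M.d x ∈ N := by
      intro x hx
      rw [hNmem] at hx ⊢
      obtain ⟨h1, c, hc⟩ := hx
      have h2 : ∀ i, i ≤ b → gproj M.internal i (M.d x) = 0 := by
        intro i hi
        have := gproj_d M (i - 1) x
        rw [sub_add_cancel] at this
        rw [this, h1 _ (by omega), map_zero]
      refine ⟨fun i hi => h2 i hi.le, 0, ?_⟩
      rw [h2 b le_rfl, map_zero, map_zero, zero_smul]
    have hztN : z t ∈ N := by
      rw [hNmem]
      refine ⟨fun i hi => gproj_of_mem_ne _ (by omega) (hdeg t), 1, ?_⟩
      rw [gproj_of_mem _ (hdeg t), hPc _ (hz t) (hdeg t), map_one, one_smul]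
    let NN : DGMod R 𝒜 := subMod M N hNg hNd
    -- the map to the residue field
    have hpadd : ∀ x y : M, l (P (gproj M.internal b (x + y))) =
        l (P (gproj M.internal b x)) + l (P (gproj M.internal b y)) := by
      intro x y
      rw [map_add, map_add, map_add]
    have hpsmul : ∀ (r : R) (x : M), x ∈ N → l (P (gproj M.internal b (r • x))) =
        ε r * l (P (gproj M.internal b x)) := by
      intro r x hx
      induction r using gr_induction hA.internal with
      | h0 => rw [zero_smul, map_zero, map_zero, map_zero, map_zero, zero_mul]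
      | hadd r s hr hs => rw [add_smul, hpadd, hr, hs, map_add, add_mul]
      | hh a r hr =>
        rcases lt_trichotomy a 0 with ha | ha | ha
        · rw [hneg hr ha, zero_smul, map_zero, map_zero, map_zero, map_zero, zero_mul]
        · subst ha
          rw [hzero hr, hgk, hPk, hlk, hεk]
        · have h3 : gproj M.internal b (r • x) = 0 := by
            have := gproj_smul M.internal M.smul_mem hr (b - a) x
            rw [add_sub_cancel] at this
            rw [this, hx.1 _ (by omega), smul_zero]
          rw [h3, map_zero, map_zero, hε hr (by omega), zero_mul]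
    let pk : M → k := fun x => l (P (gproj M.internal b x))
    have hpk : ∀ x, pk x = l (P (gproj M.internal b x)) := fun _ => rfl
    let K0 : DGMod R 𝒜 := algMod (fieldGr_ring k) ε hε
    let K : DGMod R 𝒜 := K0.shift (-b)
    let pL : NN →ₗ[R] K0 :=
      { toFun := fun x => (show k from pk x)
        map_add' := fun x y => hpadd x y
        map_smul' := fun r x => hpsmul r x x.2 }
    have hKd : ∀ x : K0, K.d x = 0 := fun x => by
      rw [shift_d, algMod_d]
      exact smul_zero _
    let p : DGHom NN K :=
      { lin := pL
        comm := fun x => by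
          rw [hKd]
          change l (P (gproj M.internal b (M.d (x : M)))) = 0
          have := gproj_d M (b - 1) (x : M)
          rw [sub_add_cancel] at this
          rw [this, x.2.1 _ (by omega), map_zero, map_zero, map_zero]
        mem := fun {i x} hx hi => by
          change l (P (gproj M.internal b (x : M))) = 0
          have hx' : (x : M) ∈ M.gr i := hx
          rw [gproj_of_mem_ne M.internal (i := i) (by omega) hx', map_zero, map_zero] }
    -- a cocycle of `N` on which `p` vanishes is a coboundary in `N`
    have hkey : ∀ x : NN, NN.d x = 0 → pk x = 0 → ∃ y, x = NN.d y := by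
      intro x hx hpx
      have hx' : M.d (x : M) = 0 := congrArg Subtype.val hx
      have hxb : gproj M.internal b (x : M) = 0 := by
        obtain ⟨-, c, hc⟩ := x.2
        have h1 : P (gproj M.internal b (x : M)) = gproj M.internal b (x : M) :=
          hPc _ (by rw [← gproj_d, hx', map_zero]) (gproj_mem _ _ _)
        have h2 : l (P (gproj M.internal b (x : M))) = 0 := hpx
        rw [hc, hlk, hl, mul_one] at h2
        rw [← h1, hc, h2, map_zero, zero_smul]
      obtain ⟨c, y, hy⟩ := hgen x hx'
      have h3 : trunc M (b + 1) (x : M) = x := by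
        refine gproj_ext M.internal fun i => ?_
        rw [gproj_trunc]
        split_ifs with h
        · rfl
        · rcases lt_or_eq_of_le (show i ≤ b by omega) with h4 | h4
          · exact (x.2.1 i h4).symm
          · rw [h4, hxb]
      have h4 : (x : M) = M.d (trunc M b y) := by
        rw [← h3, hy, map_add, trunc_d, map_sum, Finset.sum_eq_zero, zero_add]
        intro j _
        have : algebraMap k R (c j) • z j ∈ M.gr (deg j) := by
          have := M.smul_mem (hk (c j)) (hdeg j)
          rwa [zero_add] at this
        exact trunc_of_mem' M (by have := ht j; omega) this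
      have h5 : trunc M b y - P (gproj M.internal b y) ∈ N := by
        rw [hNmem]
        refine ⟨fun i hi => ?_, 0, ?_⟩
        · rw [map_sub, gproj_trunc, if_neg (by omega),
            gproj_of_mem_ne M.internal (i := b) (by omega) (hPm _), sub_zero]
        · rw [map_sub, gproj_trunc, if_pos le_rfl, gproj_of_mem M.internal (hPm _), map_sub,
            hPc _ (hPd _) (hPm _), sub_self, map_zero, zero_smul]
      refine ⟨⟨_, h5⟩, Subtype.ext ?_⟩
      change (x : M) = M.d (trunc M b y - P (gproj M.internal b y))
      rw [map_sub, hPd, sub_zero, ← h4]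
    have hpz : ∀ c : k, pk (algebraMap k R c • z t) = c := by
      intro c
      rw [hpk, hgk, hPk, hlk, gproj_of_mem _ (hdeg t), hPc _ (hz t) (hdeg t), hl, mul_one]
    have hpq : p.IsQis := by
      refine ⟨?_, fun w _ => ?_⟩
      · rintro x hx ⟨y, hy⟩
        have h1 : p x = 0 := by rw [hy, hKd]
        exact hkey x hx h1
      · refine ⟨⟨algebraMap k R (show k from w) • z t, N.smul_mem _ hztN⟩, Subtype.ext ?_, 0, ?_⟩
        · change M.d (algebraMap k R (show k from w) • z t) = 0
          rw [map_smul, hz, smul_zero]
        · rw [map_zero, add_zero]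
          exact (hpz w).symm
    have hTN : Thick G NN := .qis' p hpq (.shift _ hG)
    -- the cone of the inclusion
    let ι : DGHom NN M := subIncl M N hNg hNd
    have hTC : Thick G (cone ι) := by
      refine ih (cone ι) (fun j => coneInl ι (z (t.succAbove j)))
        (fun j => by rw [← (coneInl ι).comm, hz, map_zero])
        (fun j => ⟨_, (coneInl ι).mem (hdeg _)⟩) ?_
      rintro ⟨a, x⟩ hx
      rw [cone_d] at hx
      have h1 : M.d a + (x : M) = 0 := congrArg Prod.fst hx
      have h2 : -NN.d x = 0 := congrArg Prod.snd hx
      have h2' : NN.d x = 0 := neg_eq_zero.1 h2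
      -- the coefficient of `x` vanishes
      have h3 : ∃ y, x = NN.d y := by
        let zt : NN := ⟨z t, hztN⟩
        have e2 : pk ((x - algebraMap k R (pk x) • zt : NN) : M) = 0 := by
          change l (P (gproj M.internal b ((x : M) - algebraMap k R (pk x) • z t))) = 0
          rw [map_sub, map_sub, map_sub]
          exact sub_eq_zero.2 (hpz _).symm
        have e4 : NN.d (x - algebraMap k R (pk x) • zt) = 0 := by
          rw [map_sub, h2', map_smul]
          have : NN.d zt = 0 := Subtype.ext (hz t)
          rw [this, smul_zero, sub_zero]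
        obtain ⟨y, hy⟩ := hkey _ e4 e2
        by_cases hpx : pk x = 0
        · exact hkey x h2' hpx
        · exfalso
          apply hzt
          have e5 : (x : M) - algebraMap k R (pk x) • z t = M.d (y : M) := congrArg Subtype.val hy
          have e6 : algebraMap k R (pk x) • z t = M.d (-(a + (y : M))) := by
            rw [map_neg, map_add, ← e5]
            have : (x : M) = -M.d a := by
              rw [eq_neg_iff_add_eq_zero, add_comm]
              exact h1
            rw [this]
            abel
          refine ⟨algebraMap k R (pk x)⁻¹ • -(a + (y : M)), ?_⟩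
          rw [map_smul, ← e6, smul_smul, ← map_mul, inv_mul_cancel₀ hpx, map_one, one_smul]
      obtain ⟨y, hy⟩ := h3
      have h5 : M.d (y : M) = (x : M) := (congrArg Subtype.val hy).symm
      have h4 : M.d (a + (y : M)) = 0 := by
        rw [map_add, h5, h1]
      obtain ⟨c, w, hw⟩ := hgen _ h4
      refine ⟨fun j => c (t.succAbove j), (w, algebraMap k R (c t) • (⟨z t, hztN⟩ : NN) - y), ?_⟩
      rw [cone_d]
      have h6 : ∑ j, algebraMap k R (c (t.succAbove j)) • coneInl ι (z (t.succAbove j)) =
          coneInl ι (∑ j, algebraMap k R (c (t.succAbove j)) • z (t.succAbove j)) := by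
        rw [map_sum]
        exact Finset.sum_congr rfl fun j _ => ((coneInl ι).lin.map_smul _ _).symm
      rw [h6]
      refine Prod.ext ?_ ?_
      · change a = (∑ j, algebraMap k R (c (t.succAbove j)) • z (t.succAbove j)) +
          (M.d w + (algebraMap k R (c t) • z t - (y : M)))
        have h7 : a = (a + (y : M)) - (y : M) := by abel
        rw [h7, hw, Fin.sum_univ_succAbove _ t]
        abel
      · change x = (0 : NN) + -NN.d (algebraMap k R (c t) • (⟨z t, hztN⟩ : NN) - y)
        rw [map_sub, map_smul]
        have : NN.d (⟨z t, hztN⟩ : NN) = 0 := Subtype.ext (hz t)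
        rw [this, smul_zero, ← hy]
        abel
    exact .ses1 _ _ (coneSES ι) hTC (.shift 1 hTN)

end Run7.h892
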