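import Pool.Agent.Run7.h892.Twist

/-! Cohomology of DG modules and finite generation. -/

universe u

namespace Run7.h892

open DirectSum

variable {R : Type u} [CommRing R] {𝒜 : ℤ → AddSubgroup R}

/-- The (total) cohomology of a DG module: cocycles modulo coboundaries. -/
abbrev Coh (M : DGMod R 𝒜) : Type u :=
  LinearMap.ker M.d ⧸ (LinearMap.range M.d).submoduleOf (LinearMap.ker M.d)

/-- The cohomology is a finitely generated module. -/
def FG (M : DGMod R 𝒜) : Prop := Module.Finite R (Coh M)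

/-- The map induced on cohomology. -/
noncomputable def cohMap {M N : DGMod R 𝒜} (f : DGHom M N) : Coh M →ₗ[R] Coh N :=
  Submodule.mapQ _ _ (f.lin.restrict (p := LinearMap.ker M.d) (q := LinearMap.ker N.d)
    (fun x hx => by
      rw [LinearMap.mem_ker] at hx ⊢
      rw [← f.comm, hx, map_zero])) (by
    rintro ⟨x, hx⟩ ⟨y, hy⟩
    exact ⟨f y, by
      rw [← f.comm]
      exact congrArg f hy⟩)

/-- The class of a cocycle. -/
def cls {M : DGMod R 𝒜} (x : M) (hx : M.d x = 0) : Coh M :=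
  Submodule.Quotient.mk ⟨x, hx⟩

lemma cls_eq_zero {M : DGMod R 𝒜} {x : M} {hx : M.d x = 0} :
    cls x hx = 0 ↔ ∃ y, x = M.d y := by
  rw [cls, Submodule.Quotient.mk_eq_zero]
  constructor
  · rintro ⟨y, hy⟩
    exact ⟨y, hy.symm⟩
  · rintro ⟨y, hy⟩
    exact ⟨y, hy.symm⟩

lemma cls_surj {M : DGMod R 𝒜} (c : Coh M) : ∃ (x : M) (hx : M.d x = 0), c = cls x hx := by
  obtain ⟨⟨x, hx⟩, rfl⟩ := Submodule.Quotient.mk_surjective _ c
  exact ⟨x, hx, rfl⟩

lemma cohMap_cls {M N : DGMod R 𝒜} (f : DGHom M N) (x : M) (hx : M.d x = 0) :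
    cohMap f (cls x hx) = cls (f x) (by rw [← f.comm, hx, map_zero]) := rfl

lemma cls_add {M : DGMod R 𝒜} (x y : M) (hx : M.d x = 0) (hy : M.d y = 0) :
    cls x hx + cls y hy = cls (x + y) (by rw [map_add, hx, hy, add_zero]) := rfl

lemma cls_sub {M : DGMod R 𝒜} (x y : M) (hx : M.d x = 0) (hy : M.d y = 0) :
    cls x hx - cls y hy = cls (x - y) (by rw [map_sub, hx, hy, sub_zero]) := rfl

lemma cls_smul {M : DGMod R 𝒜} (r : R) (x : M) (hx : M.d x = 0) :
    r • cls x hx = cls (r • x) (by rw [map_smul, hx, smul_zero]) := rfl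

lemma cls_eq {M : DGMod R 𝒜} {x y : M} {hx : M.d x = 0} {hy : M.d y = 0} :
    cls x hx = cls y hy ↔ ∃ w, x = y + M.d w := by
  rw [← sub_eq_zero, cls_sub, cls_eq_zero]
  constructor
  · rintro ⟨w, hw⟩
    exact ⟨w, by rw [← hw]; abel⟩
  · rintro ⟨w, hw⟩
    exact ⟨w, by rw [hw]; abel⟩

lemma isQis_iff {M N : DGMod R 𝒜} (f : DGHom M N) :
    f.IsQis ↔ Function.Bijective (cohMap f) := by
  constructor
  · rintro ⟨h1, h2⟩
    constructor
    · rw [injective_iff_map_eq_zero]
      intro c hc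
      obtain ⟨x, hx, rfl⟩ := cls_surj c
      rw [cohMap_cls, cls_eq_zero] at hc
      exact cls_eq_zero.2 (h1 x hx hc)
    · intro c
      obtain ⟨z, hz, rfl⟩ := cls_surj c
      obtain ⟨x, hx, y, hy⟩ := h2 z hz
      refine ⟨cls x hx, ?_⟩
      rw [cohMap_cls]
      exact (cls_eq.2 ⟨y, hy⟩).symm
  · rintro ⟨h1, h2⟩
    refine ⟨fun x hx hy => ?_, fun z hz => ?_⟩
    · have h3 : cohMap f (cls x hx) = 0 := cls_eq_zero.2 hy
      exact cls_eq_zero.1 (h1 (h3.trans (map_zero _).symm))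
    · obtain ⟨c, hc⟩ := h2 (cls z hz)
      obtain ⟨x, hx, rfl⟩ := cls_surj c
      rw [cohMap_cls] at hc
      obtain ⟨w, hw⟩ := cls_eq.1 hc.symm
      exact ⟨x, hx, w, hw⟩

namespace FG

lemma qis {M N : DGMod R 𝒜} (f : DGHom M N) (hf : f.IsQis) (h : FG M) : FG N := by
  have h' : Module.Finite R (Coh M) := h
  exact Module.Finite.of_surjective (cohMap f) ((isQis_iff f).1 hf).2

lemma qis' {M N : DGMod R 𝒜} (f : DGHom M N) (hf : f.IsQis) (h : FG N) : FG M := by
  have h' : Module.Finite R (Coh N) := h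
  exact Module.Finite.equiv (LinearEquiv.ofBijective (cohMap f) ((isQis_iff f).1 hf)).symm

lemma mid [IsNoetherianRing R] {A B C : DGMod R 𝒜} {a : DGHom A B} {b : DGHom B C}
    (h : IsSES a b) (hA : FG A) (hC : FG C) : FG B := by
  have h1 : Module.Finite R (Coh A) := hA
  have h2 : Module.Finite R (Coh C) := hC
  have h3 : LinearMap.range (cohMap a) = LinearMap.ker (cohMap b) := by
    ext c
    rw [LinearMap.mem_range, LinearMap.mem_ker]
    constructor
    · rintro ⟨c, rfl⟩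
      obtain ⟨x, hx, rfl⟩ := cls_surj c
      rw [cohMap_cls, cohMap_cls, cls_eq_zero]
      exact ⟨0, by rw [map_zero]; exact (h.exact _).2 ⟨x, rfl⟩⟩
    · intro hc
      obtain ⟨x, hx, rfl⟩ := cls_surj c
      rw [cohMap_cls, cls_eq_zero] at hc
      obtain ⟨w, hw⟩ := hc
      obtain ⟨v, rfl⟩ := h.surj w
      obtain ⟨y, hy⟩ := (h.exact (x - B.d v)).1 (by rw [map_sub, b.comm, hw, sub_self])
      have hy' : A.d y = 0 := h.inj _ (by rw [a.comm, hy, map_sub, hx, B.d_d, sub_zero])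
      refine ⟨cls y hy', ?_⟩
      rw [cohMap_cls]
      refine (cls_eq.2 ⟨v, ?_⟩).symm
      rw [hy]
      abel
  have h4 : IsNoetherian R (Coh B) := isNoetherian_of_range_eq_ker (cohMap a) (cohMap b) h3
  exact (inferInstance : Module.Finite R (Coh B))

/-- Finite generation of the cohomology in terms of elements. -/
lemma iff (M : DGMod R 𝒜) : FG M ↔ ∃ (m : ℕ) (z : Fin m → M), (∀ j, M.d (z j) = 0) ∧
    ∀ x, M.d x = 0 → ∃ (r : Fin m → R) (y : M), x = ∑ j, r j • z j + M.d y := by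
  constructor
  · intro h
    have h' : Module.Finite R (Coh M) := h
    obtain ⟨m, s, hs⟩ := Module.Finite.exists_fin (R := R) (M := Coh M)
    choose z hz hzs using fun j => cls_surj (s j)
    refine ⟨m, z, hz, fun x hx => ?_⟩
    have h1 : cls x hx ∈ Submodule.span R (Set.range s) := hs ▸ Submodule.mem_top
    rw [Submodule.mem_span_range_iff_exists_fun] at h1
    obtain ⟨r, hr⟩ := h1
    have h2 : M.d (∑ j, r j • z j) = 0 := by
      rw [map_sum]
      refine Finset.sum_eq_zero fun j _ => ?_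
      rw [map_smul, hz, smul_zero]
    have h3 : ∑ j, r j • s j = cls (∑ j, r j • z j) h2 := by
      have h4 : ∀ j, s j = Submodule.Quotient.mk ⟨z j, hz j⟩ := hzs
      simp only [h4, cls, ← Submodule.Quotient.mk_smul]
      have h5 : (⟨∑ j, r j • z j, h2⟩ : LinearMap.ker M.d) = ∑ j, r j • ⟨z j, hz j⟩ := by
        apply Subtype.ext
        simp
      rw [h5]
      exact (map_sum (Submodule.mkQ _) _ _).symm
    rw [h3] at hr
    obtain ⟨w, hw⟩ := cls_eq.1 hr.symm
    exact ⟨r, w, hw⟩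
  · classical
    rintro ⟨m, z, hz, h⟩
    refine ⟨⟨Finset.univ.image fun j => cls (z j) (hz j), ?_⟩⟩
    rw [eq_top_iff]
    intro c _
    obtain ⟨x, hx, rfl⟩ := cls_surj c
    obtain ⟨r, y, hxy⟩ := h x hx
    have h2 : M.d (∑ j, r j • z j) = 0 := by
      rw [map_sum]
      refine Finset.sum_eq_zero fun j _ => ?_
      rw [map_smul, hz, smul_zero]
    have h4 : cls x hx = cls (∑ j, r j • z j) h2 := cls_eq.2 ⟨y, hxy⟩
    rw [h4]
    have h3 : cls (∑ j, r j • z j) h2 = ∑ j, r j • cls (z j) (hz j) := by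
      have h5 : (⟨∑ j, r j • z j, h2⟩ : LinearMap.ker M.d) = ∑ j, r j • ⟨z j, hz j⟩ := by
        apply Subtype.ext
        simp
      rw [cls, h5]
      exact map_sum (Submodule.mkQ _) _ _
    rw [h3]
    refine Submodule.sum_mem _ fun j _ => Submodule.smul_mem _ _ (Submodule.subset_span ?_)
    simp

lemma shift {M : DGMod R 𝒜} (n : ℤ) (h : FG M) : FG (M.shift n) := by
  obtain ⟨m, z, hz, h⟩ := (FG.iff M).1 h
  refine (FG.iff _).2 ⟨m, z, fun j => ?_, fun x hx => ?_⟩
  · rw [shift_d, hz, smul_zero]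
  · rw [shift_d] at hx
    have hx' : M.d x = 0 := by
      rcases Int.units_eq_one_or n.negOnePow with h | h
      · rw [h, Units.val_one, one_smul] at hx
        exact hx
      · rw [h, Units.val_neg, Units.val_one, neg_smul, one_smul, neg_eq_zero] at hx
        exact hx
    obtain ⟨r, y, hy⟩ := h x hx'
    refine ⟨r, (n.negOnePow : ℤ) • y, ?_⟩
    rw [shift_d, map_zsmul, smul_smul, ← Units.val_mul, Int.units_mul_self, Units.val_one,
      one_smul]
    exact hy

lemma summand {M N : DGMod R 𝒜} (i : DGHom M N) (r : DGHom N M) (h : ∀ x, r (i x) = x)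
    (hN : FG N) : FG M := by
  have h' : Module.Finite R (Coh N) := hN
  refine Module.Finite.of_surjective (cohMap r) fun c => ?_
  obtain ⟨x, hx, rfl⟩ := cls_surj c
  refine ⟨cls (i x) (by rw [← i.comm, hx, map_zero]), ?_⟩
  rw [cohMap_cls]
  exact cls_eq.2 ⟨0, by rw [h, map_zero, add_zero]⟩

lemma cone [IsNoetherianRing R] {M N : DGMod R 𝒜} (f : DGHom M N) (hM : FG M) (hN : FG N) :
    FG (cone f) := mid (coneSES f) hN (hM.shift 1)

lemma of_noetherian (M : DGMod R 𝒜) [IsNoetherian R M] : FG M :=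
  (inferInstance : Module.Finite R (Coh M))

end FG

end Run7.h892
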