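import Pool.Agent.Run7.h892.Kos

/-! Coinduction along a finite extension of graded rings and the transfer of the ghost lemma,
twisted by an element which factors through a finite free module. -/

universe u

namespace Run7.h892

open DirectSum

/-- The ghost lemma as a property of a graded ring. -/
def HasGL (S : Type u) [CommRing S] (𝒮 : ℤ → AddSubgroup S) (L : ℕ) : Prop :=
  ∀ Y : DGMod S 𝒮, ∃ (N : DGMod S 𝒮) (q : DGHom N Y), q.IsQis ∧
    ∀ (Z Z' : DMod S) (θ : Z →ₗ[S] Z'), GC L Z Z' θ →
      ∀ u : N →ₗ[S] Z, (∀ x, u (N.d x) = Z.d (u x)) →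
        ∃ h : N →ₗ[S] Z', ∀ x, θ (u x) = Z'.d (h x) + h (N.d x)

lemma hasGL_poly (n : ℕ) (k : Type u) [Field k] :
    HasGL (MvPolynomial (Fin n) k) (polyGr (Fin n) k) (2 ^ n) := ghost_lemma

/-- The coinduced module. -/
def Co (R S X : Type u) [CommRing R] [CommRing S] [Algebra R S] [AddCommGroup X] [Module R X] :
    Type u := S →ₗ[R] X

namespace Co

variable {R S X Y : Type u} [CommRing R] [CommRing S] [Algebra R S] [AddCommGroup X] [Module R X]
  [AddCommGroup Y] [Module R Y]

instance : AddCommGroup (Co R S X) := inferInstanceAs (AddCommGroup (S →ₗ[R] X))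

instance : FunLike (Co R S X) S X := inferInstanceAs (FunLike (S →ₗ[R] X) S X)

@[ext] lemma ext {φ ψ : Co R S X} (h : ∀ s, φ s = ψ s) : φ = ψ := LinearMap.ext h

@[simp] lemma add_apply (φ ψ : Co R S X) (s : S) : (φ + ψ) s = φ s + ψ s := rfl

@[simp] lemma neg_apply (φ : Co R S X) (s : S) : (-φ) s = -φ s := rfl

@[simp] lemma sub_apply (φ ψ : Co R S X) (s : S) : (φ - ψ) s = φ s - ψ s := rfl

@[simp] lemma zero_apply (s : S) : (0 : Co R S X) s = 0 := rfl

lemma map_add' (φ : Co R S X) (s t : S) : φ (s + t) = φ s + φ t := LinearMap.map_add φ s t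

lemma map_zero' (φ : Co R S X) : φ 0 = 0 := LinearMap.map_zero φ

lemma map_smul' (φ : Co R S X) (r : R) (s : S) : φ (r • s) = r • φ s := LinearMap.map_smul φ r s

instance : AddMonoidHomClass (Co R S X) S X where
  map_add := map_add'
  map_zero := map_zero'

lemma sum_apply {ι : Type*} (F : Finset ι) (φ : ι → Co R S X) (s : S) :
    (∑ c ∈ F, φ c) s = ∑ c ∈ F, φ c s := by
  classical
  induction F using Finset.induction_on with
  | empty => simp
  | insert a F ha ih => rw [Finset.sum_insert ha, Finset.sum_insert ha, add_apply, ih]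

instance : SMul S (Co R S X) := ⟨fun s φ => (φ : S →ₗ[R] X) ∘ₗ LinearMap.mulLeft R s⟩

@[simp] lemma smul_apply (s t : S) (φ : Co R S X) : (s • φ) t = φ (s * t) := rfl

instance : Module S (Co R S X) where
  one_smul φ := by ext t; simp
  mul_smul s s' φ := by
    ext t
    rw [smul_apply, smul_apply, smul_apply]
    congr 1
    ring
  smul_zero s := by ext t; simp
  smul_add s φ ψ := by ext t; simp
  add_smul s s' φ := by
    ext t
    rw [smul_apply, add_apply, smul_apply, smul_apply, add_mul, map_add']
  zero_smul φ := by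
    ext t
    rw [smul_apply, zero_mul, map_zero', zero_apply]

/-- The map of coinduced modules induced by a linear map. -/
def map (f : X →ₗ[R] Y) : Co R S X →ₗ[S] Co R S Y where
  toFun φ := f ∘ₗ (φ : S →ₗ[R] X)
  map_add' φ ψ := by
    ext t
    exact f.map_add _ _
  map_smul' s φ := rfl

@[simp] lemma map_apply (f : X →ₗ[R] Y) (φ : Co R S X) (s : S) : map f φ s = f (φ s) := rfl

end Co

/-- Coinduction of differential modules. -/
@[reducible] def coindD (R S : Type u) [CommRing R] [CommRing S] [Algebra R S] (X : DMod R) :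
    DMod S where
  carrier := Co R S X
  d := Co.map X.d
  d_d φ := by
    ext s
    exact X.d_d _

/-- Multiplication by `f` on `S` factors through a finite free `R`-module. -/
def Factors (R S : Type u) [CommRing R] [CommRing S] [Algebra R S] (f : R) : Prop :=
  ∃ (m : ℕ) (a : Fin m → S →ₗ[R] R) (x : Fin m → S), ∀ s : S, f • s = ∑ j, a j s • x j

variable {R S : Type u} [CommRing R] [CommRing S] [Algebra R S]

lemma GC.coind {f : R} (hf : Factors R S f) {n : ℕ} {X Y : DMod R} {θ : X →ₗ[R] Y}
    (hθ : GC n X Y θ) :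
    GC n (coindD R S X) (coindD R S Y) ((algebraMap R S f) ^ n • Co.map θ) := by
  induction hθ with
  | @chain X Y θ h =>
    refine .chain _ fun φ => ?_
    rw [pow_zero, one_smul]
    ext s
    exact h _
  | @ghost n X Y Z θ g h hg hg' ih =>
    have e : (algebraMap R S f) ^ (n + 1) • Co.map (S := S) (g ∘ₗ θ) =
        ((algebraMap R S f) • Co.map (S := S) g) ∘ₗ
          ((algebraMap R S f) ^ n • Co.map (S := S) θ) := by
      ext φ s
      change g (θ (φ ((algebraMap R S f) ^ (n + 1) * s))) =
        g (θ (φ ((algebraMap R S f) ^ n * ((algebraMap R S f) * s))))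
      rw [pow_succ, mul_assoc]
    rw [e]
    refine .ghost _ _ ih (fun φ => ?_) fun φ hφ => ?_
    · ext s
      exact hg _
    · obtain ⟨m, a, x, hax⟩ := hf
      have hφ' : ∀ s, Y.d (φ s) = 0 := fun s => congrArg (fun ψ : Co R S Y => ψ s) hφ
      choose z hz using fun j => hg' ((φ : Co R S Y) (x j)) (hφ' (x j))
      refine ⟨(∑ j, (a j).smulRight (z j) : S →ₗ[R] Z), ?_⟩
      ext s
      change g (φ (algebraMap R S f * s)) = Z.d ((∑ j, (a j).smulRight (z j) : S →ₗ[R] Z) s)
      have e1 : ∀ φ : Co R S Y, φ (∑ j, a j s • x j) = ∑ j, a j s • φ (x j) := by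
        intro φ
        rw [map_sum]
        exact Finset.sum_congr rfl fun j _ => Co.map_smul' φ _ _
      rw [← Algebra.smul_def, hax, LinearMap.sum_apply, map_sum (Z.d), e1, map_sum]
      refine Finset.sum_congr rfl fun j _ => ?_
      rw [g.map_smul, hz, LinearMap.smulRight_apply, Z.d.map_smul]

variable {𝒜 : ℤ → AddSubgroup R} {𝒮 : ℤ → AddSubgroup S}

/-- Coinduction of DG modules along a finite extension of graded rings. -/
@[reducible] noncomputable def coind (hA : GrRing R 𝒜) (hS : GrRing S 𝒮)
    (halg : ∀ {i : ℤ} {r : R}, r ∈ 𝒜 i → algebraMap R S r ∈ 𝒮 i) (hfin : Module.Finite R S)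
    (X : DGMod R 𝒜) : DGMod S 𝒮 where
  carrier := Co R S X
  gr i :=
    { carrier := {φ | ∀ (j : ℤ) (s : S), s ∈ 𝒮 j → φ s ∈ X.gr (j + i)}
      zero_mem' := fun j s _ => AddSubgroup.zero_mem _
      add_mem' := fun h1 h2 j s hs => AddSubgroup.add_mem _ (h1 j s hs) (h2 j s hs)
      neg_mem' := fun h1 j s hs => AddSubgroup.neg_mem _ (h1 j s hs) }
  internal := by
    classical
    have hs : ∀ {i j : ℤ} {r : R} {x : S}, r ∈ 𝒜 i → x ∈ 𝒮 j → r • x ∈ 𝒮 (i + j) :=
      fun hr hx => by
        rw [Algebra.smul_def]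
        exact hS.mul_mem (halg hr) hx
    have hX : ∀ {i j : ℤ} {r : R} {x : X}, r ∈ 𝒜 i → x ∈ X.gr j → r • x ∈ X.gr (i + j) :=
      X.smul_mem
    have hext : ∀ φ ψ : Co R S X, (∀ (j : ℤ) (s : S), s ∈ 𝒮 j → φ s = ψ s) → φ = ψ := by
      intro φ ψ h
      ext s
      induction s using gr_induction hS.internal with
      | h0 => rw [Co.map_zero', Co.map_zero']
      | hadd s t h1 h2 => rw [Co.map_add', Co.map_add', h1, h2]
      | hh i s h1 => exact h i s h1
    let p : ℤ → Co R S X → Co R S X := fun c φ =>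
      gcomp hA.internal hS.internal X.internal hs hX c φ
    have hp : ∀ (c : ℤ) (φ : Co R S X) {j : ℤ} {s : S}, s ∈ 𝒮 j →
        (p c φ) s = gproj X.internal (j + c) (φ s) := fun c φ j s h =>
      gcomp_apply hA.internal hS.internal X.internal hs hX c φ h
    let π : ℤ → Co R S X →+ Co R S X := fun c =>
      { toFun := p c
        map_zero' := hext _ _ fun j s h => by
          rw [hp c 0 h, Co.zero_apply, map_zero]
        map_add' := fun φ ψ => hext _ _ fun j s h => by
          rw [hp c _ h, Co.add_apply, map_add, Co.add_apply, hp c _ h, hp c _ h] }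
    have hπ : ∀ (c : ℤ) (φ : Co R S X) {j : ℤ} {s : S}, s ∈ 𝒮 j →
        (π c φ) s = gproj X.internal (j + c) (φ s) := hp
    refine isInternal_of_proj _ π (fun i φ hφ => ?_) (fun i j φ hij hφ => ?_) (fun φ => ?_)
    · refine hext _ _ fun j s h => ?_
      rw [hπ i φ h]
      exact gproj_of_mem X.internal (hφ j s h)
    · refine hext _ _ fun l s h => ?_
      rw [hπ j φ h]
      exact gproj_of_mem_ne X.internal (by omega) (hφ l s h)
    · -- every element is a finite sum of homogeneous ones
      have P : ∀ s : S, ∃ F0 : Finset ℤ, ∀ F : Finset ℤ, F0 ⊆ F → ∑ c ∈ F, (π c φ) s = φ s := by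
        intro s
        induction s using gr_induction hS.internal with
        | h0 =>
          refine ⟨∅, fun F _ => ?_⟩
          rw [Co.map_zero']
          exact Finset.sum_eq_zero fun c _ => Co.map_zero' _
        | hadd s t h1 h2 =>
          obtain ⟨F1, h1⟩ := h1
          obtain ⟨F2, h2⟩ := h2
          refine ⟨F1 ∪ F2, fun F hF => ?_⟩
          simp only [Co.map_add', Finset.sum_add_distrib]
          rw [h1 F (Finset.union_subset_left hF), h2 F (Finset.union_subset_right hF)]
        | hh l s h =>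
          obtain ⟨t, -, ht⟩ := gproj_sum X.internal (φ s)
          refine ⟨t.image fun j => j - l, fun F hF => ?_⟩
          simp only [hπ _ φ h]
          refine Eq.trans ?_ (ht (F.image fun c => l + c) ?_)
          · rw [Finset.sum_image]
            intro a _ b _ hab
            exact add_left_cancel hab
          · intro j hj
            rw [Finset.mem_image]
            exact ⟨j - l, hF (Finset.mem_image_of_mem _ hj), by ring⟩
      obtain ⟨t, ht⟩ := hfin.1
      choose F0 hF0 using P
      have key : φ = ∑ c ∈ t.biUnion F0, π c φ := by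
        have h1 : (φ : S →ₗ[R] X) = (∑ c ∈ t.biUnion F0, (π c φ : S →ₗ[R] X)) := by
          refine LinearMap.ext_on (s := (t : Set S)) ht fun s hs' => ?_
          exact (hF0 s _ (Finset.subset_biUnion_of_mem F0 hs')).symm.trans
            (Co.sum_apply _ _ s).symm
        exact h1
      rw [key]
      refine AddSubgroup.sum_mem _ fun c _ => AddSubgroup.mem_iSup_of_mem c ?_
      intro j s h
      rw [hπ c φ h]
      exact gproj_mem _ _ _
  smul_mem := fun {i j s φ} hs hφ l t ht => by
    change φ (s * t) ∈ _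
    have := hφ _ _ (hS.mul_mem hs ht)
    rwa [show i + l + j = l + (i + j) by ring] at this
  d := Co.map X.d
  d_mem := fun {i φ} hφ j s hs => by
    have := X.d_mem (hφ j s hs)
    rwa [add_assoc] at this
  d_d φ := by
    ext s
    exact X.d_d _

end Run7.h892
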