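import Pool.Agent.Run7.h892.Gr

/-! DG modules over a commutative ring graded in even degrees, with zero differential on the
ring, and the thick subcategories of its derived category. -/

universe u

namespace Run7.h892

open DirectSum

/-- A differential graded module over the commutative ring `R` with homogeneous parts `𝒜 i`
(`i` the cohomological degree; the ring has zero differential and is meant to be concentrated in
even degrees). -/
structure DGMod (R : Type u) [CommRing R] (𝒜 : ℤ → AddSubgroup R) : Type (u + 1) where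
  /-- the total module -/
  carrier : Type u
  [grp : AddCommGroup carrier]
  [mod : Module R carrier]
  /-- the part of degree `i` -/
  gr : ℤ → AddSubgroup carrier
  internal : DirectSum.IsInternal gr
  smul_mem : ∀ {i j : ℤ} {r : R} {x : carrier}, r ∈ 𝒜 i → x ∈ gr j → r • x ∈ gr (i + j)
  /-- the differential -/
  d : carrier →ₗ[R] carrier
  d_mem : ∀ {i : ℤ} {x : carrier}, x ∈ gr i → d x ∈ gr (i + 1)
  d_d : ∀ x : carrier, d (d x) = 0

attribute [instance] DGMod.grp DGMod.mod

variable {R : Type u} [CommRing R] {𝒜 : ℤ → AddSubgroup R}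

instance : CoeSort (DGMod R 𝒜) (Type u) := ⟨DGMod.carrier⟩

/-- A morphism of DG modules: a linear map of degree zero commuting with the differentials. -/
structure DGHom (M N : DGMod R 𝒜) where
  /-- the underlying linear map -/
  lin : M →ₗ[R] N
  comm : ∀ x, lin (M.d x) = N.d (lin x)
  mem : ∀ {i : ℤ} {x : M}, x ∈ M.gr i → lin x ∈ N.gr i

instance (M N : DGMod R 𝒜) : CoeFun (DGHom M N) (fun _ => M → N) := ⟨fun f => f.lin⟩

/-- A quasi-isomorphism: a morphism which is bijective on cohomology. -/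
def DGHom.IsQis {M N : DGMod R 𝒜} (f : DGHom M N) : Prop :=
  (∀ x, M.d x = 0 → (∃ y, f x = N.d y) → ∃ y, x = M.d y) ∧
    ∀ z, N.d z = 0 → ∃ x, M.d x = 0 ∧ ∃ y, z = f x + N.d y

/-- The identity. -/
def DGHom.id (M : DGMod R 𝒜) : DGHom M M := ⟨LinearMap.id, fun _ => rfl, fun h => h⟩

/-- Composition. -/
def DGHom.comp {M N P : DGMod R 𝒜} (g : DGHom N P) (f : DGHom M N) : DGHom M P :=
  ⟨g.lin ∘ₗ f.lin, fun x => by simp [f.comm, g.comm], fun h => g.mem (f.mem h)⟩

@[simp] lemma DGHom.id_apply (M : DGMod R 𝒜) (x : M) : DGHom.id M x = x := rfl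

@[simp] lemma DGHom.comp_apply {M N P : DGMod R 𝒜} (g : DGHom N P) (f : DGHom M N) (x : M) :
    (g.comp f) x = g (f x) := rfl

lemma DGHom.id_isQis (M : DGMod R 𝒜) : (DGHom.id M).IsQis :=
  ⟨fun _ _ h => h, fun z hz => ⟨z, hz, 0, by simp⟩⟩

lemma DGHom.IsQis.comp {M N P : DGMod R 𝒜} {g : DGHom N P} {f : DGHom M N} (hg : g.IsQis)
    (hf : f.IsQis) : (g.comp f).IsQis := by
  refine ⟨fun x hx h => hf.1 x hx (hg.1 _ ?_ h), fun z hz => ?_⟩
  · rw [← f.comm, hx, map_zero]
  · obtain ⟨y, hy, w, rfl⟩ := hg.2 z hz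
    obtain ⟨x, hx, v, rfl⟩ := hf.2 y hy
    refine ⟨x, hx, g v + w, ?_⟩
    rw [map_add, map_add, ← g.comm, DGHom.comp_apply, add_assoc]

/-- The shift `M[n]`: its part of degree `i` is the part of degree `i + n` of `M`, and its
differential is `(-1) ^ n` times that of `M`. -/
@[reducible] def DGMod.shift (M : DGMod R 𝒜) (n : ℤ) : DGMod R 𝒜 where
  carrier := M
  gr i := M.gr (i + n)
  internal := shift_internal M.internal n
  smul_mem := fun {i j r x} hr hx => by
    rw [add_assoc]
    exact M.smul_mem hr hx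
  d := (n.negOnePow : ℤ) • M.d
  d_mem := fun {i x} hx => by
    have h : M.d x ∈ M.gr (i + 1 + n) := by
      have := M.d_mem hx
      rwa [show i + n + 1 = i + 1 + n by ring] at this
    exact AddSubgroup.zsmul_mem _ h _
  d_d x := by
    rw [LinearMap.smul_apply, LinearMap.smul_apply, map_zsmul, M.d_d, smul_zero, smul_zero]

/-- The cone of `f : M → N`: in degree `i` it is `N i × M (i + 1)`, with differential
`(y, x) ↦ (d y + f x, - d x)`. -/
@[reducible] def cone {M N : DGMod R 𝒜} (f : DGHom M N) : DGMod R 𝒜 where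
  carrier := N × M
  gr i := (N.gr i).prod (M.gr (i + 1))
  internal := prod_internal N.internal (shift_internal M.internal 1)
  smul_mem := fun {i j r x} hr hx => by
    rw [AddSubgroup.mem_prod] at hx ⊢
    refine ⟨N.smul_mem hr hx.1, ?_⟩
    have := M.smul_mem hr hx.2
    rwa [← add_assoc] at this
  d := ((N.d ∘ₗ LinearMap.fst R N M) + (f.lin ∘ₗ LinearMap.snd R N M)).prod
    (-(M.d ∘ₗ LinearMap.snd R N M))
  d_mem := fun {i x} hx => by
    rw [AddSubgroup.mem_prod] at hx ⊢
    exact ⟨AddSubgroup.add_mem _ (N.d_mem hx.1) (f.mem hx.2), AddSubgroup.neg_mem _ (M.d_mem hx.2)⟩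
  d_d x := by
    refine Prod.ext ?_ ?_
    · simp [N.d_d, f.comm]
    · simp [M.d_d]

lemma cone_d {M N : DGMod R 𝒜} (f : DGHom M N) (y : N) (x : M) :
    (cone f).d (y, x) = (N.d y + f x, -M.d x) := rfl

lemma cone_d' {M N : DGMod R 𝒜} (f : DGHom M N) (x : cone f) :
    (cone f).d x = (N.d x.1 + f x.2, -M.d x.2) := rfl

lemma shift_d (M : DGMod R 𝒜) (n : ℤ) (x : M) : (M.shift n).d x = (n.negOnePow : ℤ) • M.d x := rfl

lemma shift_d_one (M : DGMod R 𝒜) (x : M) : (M.shift 1).d x = -M.d x := by
  rw [shift_d, Int.negOnePow_one, Units.val_neg, Units.val_one, neg_smul, one_smul]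

lemma shift_d_even (M : DGMod R 𝒜) {n : ℤ} (hn : Even n) (x : M) : (M.shift n).d x = M.d x := by
  rw [shift_d, Int.negOnePow_even n hn, Units.val_one, one_smul]

lemma shift_shift_neg_d (M : DGMod R 𝒜) (n : ℤ) (x : M) :
    ((M.shift n).shift (-n)).d x = M.d x := by
  rw [shift_d, shift_d, smul_smul, ← Units.val_mul, ← Int.negOnePow_add, neg_add_cancel,
    Int.negOnePow_zero, Units.val_one, one_smul]

/-- A short exact sequence of DG modules. -/
structure IsSES {A B C : DGMod R 𝒜} (a : DGHom A B) (b : DGHom B C) : Prop where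
  inj : ∀ x, a x = 0 → x = 0
  surj : ∀ z, ∃ y, b y = z
  exact : ∀ y, b y = 0 ↔ ∃ x, a x = y

/-- The thick subcategory of the derived category generated by a class `G` of DG modules, as a
class of DG modules: the smallest class which contains `G` and is closed under quasi-isomorphisms
(in both directions), shifts, two out of three in short exact sequences, and direct summands. -/
inductive Thick (G : DGMod R 𝒜 → Prop) : DGMod R 𝒜 → Prop
  | of {M : DGMod R 𝒜} : G M → Thick G M
  | qis {M N : DGMod R 𝒜} (f : DGHom M N) : f.IsQis → Thick G M → Thick G N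
  | qis' {M N : DGMod R 𝒜} (f : DGHom M N) : f.IsQis → Thick G N → Thick G M
  | shift {M : DGMod R 𝒜} (n : ℤ) : Thick G M → Thick G (M.shift n)
  | ses1 {A B C : DGMod R 𝒜} (a : DGHom A B) (b : DGHom B C) : IsSES a b → Thick G B → Thick G C →
      Thick G A
  | ses2 {A B C : DGMod R 𝒜} (a : DGHom A B) (b : DGHom B C) : IsSES a b → Thick G A → Thick G C →
      Thick G B
  | ses3 {A B C : DGMod R 𝒜} (a : DGHom A B) (b : DGHom B C) : IsSES a b → Thick G A → Thick G B →
      Thick G C
  | summand {M N : DGMod R 𝒜} (i : DGHom M N) (r : DGHom N M) : (∀ x, r (i x) = x) → Thick G N →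
      Thick G M

namespace Thick

variable {G : DGMod R 𝒜 → Prop}

lemma mono {G' : DGMod R 𝒜 → Prop} (h : ∀ M, G M → Thick G' M) {M : DGMod R 𝒜}
    (hM : Thick G M) : Thick G' M := by
  induction hM with
  | of hM => exact h _ hM
  | qis f hf _ ih => exact .qis f hf ih
  | qis' f hf _ ih => exact .qis' f hf ih
  | shift n _ ih => exact .shift n ih
  | ses1 a b h _ _ ihB ihC => exact .ses1 a b h ihB ihC
  | ses2 a b h _ _ ihA ihC => exact .ses2 a b h ihA ihC
  | ses3 a b h _ _ ihA ihB => exact .ses3 a b h ihA ihB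
  | summand i r h _ ih => exact .summand i r h ih

lemma of_shift {M : DGMod R 𝒜} {n : ℤ} (h : Thick G (M.shift n)) : Thick G M := by
  have h1 : Thick G ((M.shift n).shift (-n)) := .shift _ h
  refine .qis (M := (M.shift n).shift (-n)) ⟨LinearMap.id, fun x => ?_, fun {i x} hx => ?_⟩ ?_ h1
  · exact shift_shift_neg_d M n x
  · have : x ∈ M.gr (i + -n + n) := hx
    rwa [neg_add_cancel_right] at this
  · refine ⟨fun x _ ⟨y, hy⟩ => ⟨y, ?_⟩, fun z hz => ⟨z, ?_, 0, ?_⟩⟩
    · exact hy.trans (shift_shift_neg_d M n y).symm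
    · exact (shift_shift_neg_d M n z).trans hz
    · rw [map_zero, add_zero]; rfl

end Thick

/-- The inclusion of the target in the cone. -/
def coneInl {M N : DGMod R 𝒜} (f : DGHom M N) : DGHom N (cone f) where
  lin := LinearMap.inl R N M
  comm x := by
    refine Prod.ext ?_ ?_
    · change N.d x = N.d x + f (0 : M)
      rw [map_zero, add_zero]
    · change (0 : M) = -M.d 0
      rw [map_zero, neg_zero]
  mem := fun h => AddSubgroup.mem_prod.2 ⟨h, AddSubgroup.zero_mem _⟩

/-- The projection of the cone to the shift of the source. -/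
def coneSnd {M N : DGMod R 𝒜} (f : DGHom M N) : DGHom (cone f) (M.shift 1) where
  lin := LinearMap.snd R N M
  comm x := by
    rw [shift_d_one]
    rfl
  mem := fun h => (AddSubgroup.mem_prod.1 h).2

lemma coneSES {M N : DGMod R 𝒜} (f : DGHom M N) : IsSES (coneInl f) (coneSnd f) where
  inj x hx := congrArg Prod.fst hx
  surj z := ⟨((0 : N), z), rfl⟩
  exact y := by
    constructor
    · intro h
      exact ⟨y.1, Prod.ext rfl (Eq.symm h)⟩
    · rintro ⟨x, rfl⟩
      rfl

namespace Thick

variable {G : DGMod R 𝒜 → Prop}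

lemma cone {M N : DGMod R 𝒜} (f : DGHom M N) (hM : Thick G M) (hN : Thick G N) :
    Thick G (cone f) :=
  .ses2 _ _ (coneSES f) hN (.shift 1 hM)

end Thick

end Run7.h892
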