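import Pool.Agent.Run7.h892.Gal

/-! The polynomial ring as a DG module over the invariants; the thick subcategory it generates
contains the invariants and the residue field, and consists of modules with finitely generated
cohomology. -/

universe u

namespace Run7.h892

open MvPolynomial DirectSum

variable {R : Type u} [CommRing R] {𝒜 : ℤ → AddSubgroup R}

/-- The comparison of the cone of an injection with the cokernel. -/
@[reducible] def coneToC {A B C : DGMod R 𝒜} {a : DGHom A B} {b : DGHom B C} (h : IsSES a b) :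
    DGHom (cone a) C where
  lin := b.lin ∘ₗ LinearMap.fst R B A
  comm x := by
    obtain ⟨y, x⟩ := x
    change b (B.d y + a x) = C.d (b y)
    rw [map_add, b.comm, (h.exact (a x)).2 ⟨x, rfl⟩, add_zero]
  mem := fun hx => b.mem (AddSubgroup.mem_prod.1 hx).1

lemma coneToC_isQis {A B C : DGMod R 𝒜} {a : DGHom A B} {b : DGHom B C} (h : IsSES a b) :
    (coneToC h).IsQis := by
  constructor
  · rintro ⟨y, x⟩ hx ⟨z, hz⟩
    rw [cone_d] at hx
    have h1 : B.d y + a x = 0 := congrArg Prod.fst hx
    have hz' : b y = C.d z := hz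
    obtain ⟨w, rfl⟩ := h.surj z
    obtain ⟨v, hv⟩ := (h.exact (y - B.d w)).1 (by rw [map_sub, b.comm, hz', sub_self])
    refine ⟨(w, v), ?_⟩
    rw [cone_d]
    refine Prod.ext ?_ ?_
    · change y = B.d w + a v
      rw [hv]
      abel
    · change x = -A.d v
      have h2 : a (x + A.d v) = 0 := by
        rw [map_add, a.comm, hv, map_sub, B.d_d, sub_zero, add_comm]
        exact h1
      have h3 := h.inj _ h2
      exact eq_neg_of_add_eq_zero_left h3
  · intro z hz
    obtain ⟨y, rfl⟩ := h.surj z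
    obtain ⟨x, hx⟩ := (h.exact (B.d y)).1 (by rw [b.comm, hz])
    have hdx : A.d x = 0 := h.inj _ (by rw [a.comm, hx, B.d_d])
    refine ⟨(y, -x), ?_, 0, ?_⟩
    · rw [cone_d, map_neg, map_neg, hx, hdx]
      simp
    · change b y = b y + C.d 0
      rw [map_zero, add_zero]

/-- The comparison of the shifted kernel with the cone of a surjection. -/
@[reducible] def toCone {A B C : DGMod R 𝒜} {a : DGHom A B} {b : DGHom B C} (h : IsSES a b) :
    DGHom (A.shift 1) (cone b) where
  lin := LinearMap.inr R C B ∘ₗ a.lin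
  comm x := by
    rw [shift_d_one]
    refine Prod.ext ?_ ?_
    · change (0 : C) = C.d 0 + b (a x)
      rw [map_zero, (h.exact (a x)).2 ⟨x, rfl⟩, add_zero]
    · change a (-A.d x) = -B.d (a x)
      rw [map_neg, a.comm]
  mem := fun hx => AddSubgroup.mem_prod.2 ⟨AddSubgroup.zero_mem _, a.mem hx⟩

lemma toCone_isQis {A B C : DGMod R 𝒜} {a : DGHom A B} {b : DGHom B C} (h : IsSES a b) :
    (toCone h).IsQis := by
  constructor
  · rintro x hx ⟨⟨c, y⟩, hy⟩
    rw [cone_d] at hy
    have h1 : (0 : C) = C.d c + b y := congrArg Prod.fst hy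
    have h2 : a x = -B.d y := congrArg Prod.snd hy
    obtain ⟨w, rfl⟩ := h.surj c
    obtain ⟨v, hv⟩ := (h.exact (B.d w + y)).1 (by rw [map_add, b.comm, ← h1])
    refine ⟨v, ?_⟩
    rw [shift_d_one]
    have h3 : a (x + A.d v) = 0 := by
      rw [map_add, a.comm, hv, h2, map_add, B.d_d]
      abel
    exact eq_neg_of_add_eq_zero_left (h.inj _ h3)
  · rintro ⟨c, y⟩ hx
    rw [cone_d] at hx
    have h1 : C.d c + b y = 0 := congrArg Prod.fst hx
    have h2 : -B.d y = 0 := congrArg Prod.snd hx
    obtain ⟨w, rfl⟩ := h.surj c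
    obtain ⟨v, hv⟩ := (h.exact (B.d w + y)).1 (by rw [map_add, b.comm, h1])
    refine ⟨v, ?_, (0, w), ?_⟩
    · rw [shift_d_one, neg_eq_zero]
      apply h.inj
      rw [a.comm, hv, map_add, B.d_d, neg_eq_zero.1 h2, add_zero]
    · rw [cone_d]
      refine Prod.ext ?_ ?_
      · change b w = (0 : C) + (C.d 0 + b w)
        rw [map_zero]
        abel
      · change y = a v + -B.d w
        rw [hv]
        abel

/-- Every object of the thick subcategory generated by modules with finitely generated cohomology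
has finitely generated cohomology. -/
lemma FG.of_thick [IsNoetherianRing R] {G : DGMod R 𝒜 → Prop} (hG : ∀ M, G M → FG M)
    {M : DGMod R 𝒜} (hM : Thick G M) : FG M := by
  induction hM with
  | of h => exact hG _ h
  | qis f hf _ ih => exact ih.qis f hf
  | qis' f hf _ ih => exact FG.qis' f hf ih
  | shift n _ ih => exact ih.shift n
  | @ses1 A B C a b h _ _ ihB ihC =>
    have h1 : FG (A.shift 1) := FG.qis' _ (toCone_isQis h) (FG.cone b ihB ihC)
    have h2 : FG ((A.shift 1).shift (-1)) := h1.shift (-1)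
    obtain ⟨m, z, hz, hgen⟩ := (FG.iff _).1 h2
    refine (FG.iff _).2 ⟨m, z, fun j => ?_, fun x hx => ?_⟩
    · rw [← shift_shift_neg_d A 1]
      exact hz j
    · obtain ⟨r, y, hy⟩ := hgen x (by rw [shift_shift_neg_d A 1]; exact hx)
      refine ⟨r, y, ?_⟩
      rw [← shift_shift_neg_d A 1]
      exact hy
  | ses2 a b h _ _ ihA ihC => exact FG.mid h ihA ihC
  | ses3 a b h _ _ ihA ihB => exact (FG.cone a ihA ihB).qis _ (coneToC_isQis h)
  | summand i r h _ ih => exact ih.summand i r h

variable {k : Type u} [Field k]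

lemma algMod_shift_d {B : Type u} [CommRing B] {ℬ : ℤ → AddSubgroup B} (hB : GrRing B ℬ)
    (φ : R →+* B) (hφ : ∀ {i : ℤ} {r : R}, r ∈ 𝒜 i → φ r ∈ ℬ i) (e : ℤ)
    (x : algMod hB φ hφ) : ((algMod hB φ hφ).shift e).d x = 0 := by
  rw [shift_d, algMod_d]
  exact smul_zero _

/-- A quotient of a graded ring by a homogeneous nonzerodivisor. -/
lemma algMod_quot {B B' : Type u} [CommRing B] [CommRing B'] {ℬ : ℤ → AddSubgroup B}
    {ℬ' : ℤ → AddSubgroup B'} (hB : GrRing B ℬ) (hB' : GrRing B' ℬ')
    (φ : R →+* B) (hφ : ∀ {i : ℤ} {r : R}, r ∈ 𝒜 i → φ r ∈ ℬ i)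
    (ψ : R →+* B') (hψ : ∀ {i : ℤ} {r : R}, r ∈ 𝒜 i → ψ r ∈ ℬ' i)
    {e : ℤ} {x : B} (hx : x ∈ ℬ e) (hx0 : ∀ b, x * b = 0 → b = 0)
    (c : B →+* B') (hc : ∀ r, c (φ r) = ψ r) (hcm : ∀ {i : ℤ} {b : B}, b ∈ ℬ i → c b ∈ ℬ' i)
    (hcs : Function.Surjective c) (hck : ∀ b, c b = 0 ↔ ∃ q, x * q = b)
    {G : DGMod R 𝒜 → Prop} (h : Thick G (algMod hB φ hφ)) : Thick G (algMod hB' ψ hψ) := by
  let M : DGMod R 𝒜 := algMod hB φ hφ
  let M' : DGMod R 𝒜 := algMod hB' ψ hψ
  let aL : M →ₗ[R] M :=
    { toFun := fun p => x * (show B from p)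
      map_add' := fun p q => @mul_add B _ _ _ x p q
      map_smul' := fun r p => @mul_left_comm B _ x (φ r) p }
  let bL : M →ₗ[R] M' :=
    { toFun := fun p => c p
      map_add' := fun p q => c.map_add p q
      map_smul' := fun r p => by
        change c (φ r * (show B from p)) = ψ r * c p
        rw [map_mul, hc] }
  let a : DGHom (M.shift (-e)) M :=
    { lin := aL
      comm := fun p => by
        have h1 : (M.shift (-e)).d p = 0 := algMod_shift_d hB φ hφ _ p
        rw [h1, map_zero]
        exact (algMod_d hB φ hφ _).symm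
      mem := fun {i p} hp => by
        have h1 : (show B from p) ∈ ℬ (i + -e) := hp
        have := hB.mul_mem hx h1
        rw [show e + (i + -e) = i by ring] at this
        exact this }
  let b : DGHom M M' :=
    { lin := bL
      comm := fun p => by
        rw [algMod_d hB φ hφ p, map_zero]
        exact (algMod_d hB' ψ hψ _).symm
      mem := fun {i p} hp => hcm hp }
  exact .ses3 a b ⟨fun p hp => hx0 _ hp, fun z => hcs z, fun y => hck y⟩ (.shift _ h) h

section Koszul

variable {n : ℕ} (φ : R →+* MvPolynomial (Fin n) k)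
  (hφ : ∀ {i : ℤ} {r : R}, r ∈ 𝒜 i → φ r ∈ polyGr (Fin n) k i)

/-- Setting the variables beyond the first `m` to zero. -/
noncomputable def cut (n m : ℕ) (k : Type u) [Field k] :
    MvPolynomial (Fin n) k →ₐ[k] MvPolynomial (Fin m) k :=
  aeval fun j => if h : (j : ℕ) < m then X ⟨j, h⟩ else 0

lemma cut_mem {n m : ℕ} {i : ℤ} {p : MvPolynomial (Fin n) k} (hp : p ∈ polyGr (Fin n) k i) :
    cut n m k p ∈ polyGr (Fin m) k i := by
  refine map_polyGr _ (fun i => ?_) hp
  rw [cut, aeval_X]
  split_ifs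
  · exact X_mem _
  · exact AddSubgroup.zero_mem _

lemma cut_cut {n m : ℕ} (p : MvPolynomial (Fin n) k) :
    cut (m + 1) m k (cut n (m + 1) k p) = cut n m k p := by
  have h : (cut (m + 1) m k).comp (cut n (m + 1) k) = cut n m k := by
    apply MvPolynomial.algHom_ext
    intro i
    rw [AlgHom.comp_apply, cut, cut, cut, aeval_X, aeval_X]
    by_cases h1 : (i : ℕ) < m
    · rw [dif_pos (by omega), aeval_X, dif_pos h1]
    · by_cases h2 : (i : ℕ) < m + 1
      · rw [dif_pos h2, aeval_X, dif_neg h1]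
      · rw [dif_neg h2, map_zero, dif_neg h1]
  exact congrArg (fun f => f p) h

lemma cut_self {n : ℕ} (p : MvPolynomial (Fin n) k) : cut n n k p = p := by
  have h : cut n n k = AlgHom.id k _ := by
    apply MvPolynomial.algHom_ext
    intro i
    rw [cut, aeval_X, dif_pos i.2]
    rfl
  rw [h]
  rfl

/-- The DG module of polynomials in the first `m` variables. -/
@[reducible] noncomputable def cutMod (m : ℕ) : DGMod R 𝒜 :=
  algMod (polyGr_ring (Fin m) k) ((cut n m k : _ →+* _).comp φ) (fun h => cut_mem (hφ h))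

/-- The inclusion of polynomial rings. -/
noncomputable def incl (m : ℕ) (k : Type u) [Field k] :
    MvPolynomial (Fin m) k →ₐ[k] MvPolynomial (Fin (m + 1)) k :=
  aeval fun j => X j.castSucc

lemma cut_incl (m : ℕ) (p : MvPolynomial (Fin m) k) : cut (m + 1) m k (incl m k p) = p := by
  have h : (cut (m + 1) m k).comp (incl m k) = AlgHom.id k _ := by
    apply MvPolynomial.algHom_ext
    intro i
    rw [AlgHom.comp_apply, incl, cut, aeval_X, aeval_X, dif_pos (by simp)]
    rfl
  exact congrArg (fun f => f p) h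

lemma sub_incl_cut (m : ℕ) (p : MvPolynomial (Fin (m + 1)) k) :
    ∃ q, p - incl m k (cut (m + 1) m k p) = X (Fin.last m) * q := by
  induction p using MvPolynomial.induction_on with
  | C c =>
    refine ⟨0, ?_⟩
    have h1 : cut (m + 1) m k (C c) = C c := AlgHom.commutes _ c
    have h2 : incl m k (C c) = C c := AlgHom.commutes _ c
    rw [h1, h2, sub_self, mul_zero]
  | add p q hp hq =>
    obtain ⟨a, ha⟩ := hp
    obtain ⟨b, hb⟩ := hq
    refine ⟨a + b, ?_⟩
    rw [map_add, map_add, mul_add, ← ha, ← hb]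
    ring
  | mul_X p i hp =>
    obtain ⟨a, ha⟩ := hp
    have hX : ∃ b, (X i : MvPolynomial (Fin (m + 1)) k) -
        incl m k (cut (m + 1) m k (X i)) = X (Fin.last m) * b := by
      rw [cut, aeval_X]
      by_cases h : (i : ℕ) < m
      · refine ⟨0, ?_⟩
        rw [dif_pos h, incl, aeval_X, mul_zero, sub_eq_zero]
        rfl
      · refine ⟨1, ?_⟩
        rw [dif_neg h, map_zero, sub_zero, mul_one]
        congr 1
        apply Fin.ext
        have := i.2
        simp only [Fin.val_last]
        omega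
    obtain ⟨b, hb⟩ := hX
    refine ⟨a * X i + incl m k (cut (m + 1) m k p) * b, ?_⟩
    rw [map_mul, map_mul, mul_add, ← mul_assoc, ← ha, mul_left_comm, ← hb]
    ring

lemma cut_step (m : ℕ) {G : DGMod R 𝒜 → Prop} (h : Thick G (cutMod φ hφ (m + 1))) :
    Thick G (cutMod φ hφ m) := by
  refine algMod_quot (polyGr_ring (Fin (m + 1)) k) (polyGr_ring (Fin m) k)
    ((cut n (m + 1) k : _ →+* _).comp φ) (fun h => cut_mem (hφ h))
    ((cut n m k : _ →+* _).comp φ) (fun h => cut_mem (hφ h)) (X_mem (Fin.last m))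
    (fun b hb => (mul_eq_zero.1 hb).resolve_left (X_ne_zero _))
    (cut (m + 1) m k : MvPolynomial (Fin (m + 1)) k →+* MvPolynomial (Fin m) k)
    (fun r => cut_cut _) (fun h => cut_mem h) (fun z => ⟨incl m k z, cut_incl m z⟩)
    (fun y => ⟨fun hy => ?_, ?_⟩) h
  · obtain ⟨q, hq⟩ := sub_incl_cut m y
    have hy' : cut (m + 1) m k y = 0 := hy
    rw [hy', map_zero, sub_zero] at hq
    exact ⟨q, hq.symm⟩
  · rintro ⟨x, rfl⟩
    have h1 : cut (m + 1) m k (X (Fin.last m)) = 0 := by
      rw [cut, aeval_X, dif_neg (by simp)]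
    have h2 : cut (m + 1) m k (X (Fin.last m) * x) = 0 := by
      rw [map_mul, h1, zero_mul]
    exact h2

lemma cut_zero {G : DGMod R 𝒜 → Prop} (h : Thick G (cutMod φ hφ n)) :
    Thick G (cutMod φ hφ 0) := by
  have key : ∀ a m : ℕ, m + a = n → Thick G (cutMod φ hφ m) := by
    intro a
    induction a with
    | zero =>
      intro m hm
      have : m = n := hm
      subst this
      exact h
    | succ a ih => exact fun m hm => cut_step φ hφ m (ih (m + 1) (by omega))
  exact key n 0 (by omega)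

end Koszul

end Run7.h892
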