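import Pool.Agent.Run7.h892.Fin

/-! Generation of the DG modules with finitely generated cohomology over the invariants by the
polynomial ring. -/

universe u

namespace Run7.h892

open MvPolynomial DirectSum

variable {k : Type u} [Field k] {n : ℕ}

/-- The polynomial ring, with zero differential, as a DG module over the ring of invariants. -/
noncomputable def polyMod (W : Subgroup (Matrix.GeneralLinearGroup (Fin n) k)) :
    DGMod (invariants W) (invGr W) :=
  algMod (polyGr_ring (Fin n) k) ((invariants W).val : invariants W →+* _) (fun h => h)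

section General

variable {R : Type u} [CommRing R] {𝒜 : ℤ → AddSubgroup R}

lemma algMod_congr {B : Type u} [CommRing B] {ℬ : ℤ → AddSubgroup B} (hB : GrRing B ℬ)
    {φ φ' : R →+* B} (hφ : ∀ {i : ℤ} {r : R}, r ∈ 𝒜 i → φ r ∈ ℬ i)
    (hφ' : ∀ {i : ℤ} {r : R}, r ∈ 𝒜 i → φ' r ∈ ℬ i) (h : φ = φ')
    {G : DGMod R 𝒜 → Prop} (hT : Thick G (algMod hB φ hφ)) : Thick G (algMod hB φ' hφ') := by
  subst h
  exact hT

/-- Graded isomorphisms of rings. -/
lemma algMod_iso {B B' : Type u} [CommRing B] [CommRing B'] {ℬ : ℤ → AddSubgroup B}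
    {ℬ' : ℤ → AddSubgroup B'} (hB : GrRing B ℬ) (hB' : GrRing B' ℬ')
    (φ : R →+* B) (hφ : ∀ {i : ℤ} {r : R}, r ∈ 𝒜 i → φ r ∈ ℬ i)
    (ψ : R →+* B') (hψ : ∀ {i : ℤ} {r : R}, r ∈ 𝒜 i → ψ r ∈ ℬ' i)
    (c : B →+* B') (hc : ∀ r, c (φ r) = ψ r) (hcm : ∀ {i : ℤ} {b : B}, b ∈ ℬ i → c b ∈ ℬ' i)
    (hcb : Function.Bijective c)
    {G : DGMod R 𝒜 → Prop} (h : Thick G (algMod hB φ hφ)) : Thick G (algMod hB' ψ hψ) := by
  let M : DGMod R 𝒜 := algMod hB φ hφ
  let M' : DGMod R 𝒜 := algMod hB' ψ hψ
  let bL : M →ₗ[R] M' :=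
    { toFun := fun p => c p
      map_add' := fun p q => c.map_add p q
      map_smul' := fun r p => by
        change c (φ r * (show B from p)) = ψ r * c p
        rw [map_mul, hc] }
  let b : DGHom M M' :=
    { lin := bL
      comm := fun p => by
        rw [algMod_d hB φ hφ p, map_zero]
        exact (algMod_d hB' ψ hψ _).symm
      mem := fun {i p} hp => hcm hp }
  refine .qis b ⟨fun x _ ⟨y, hy⟩ => ⟨x, ?_⟩, fun z _ => ?_⟩ h
  · have h1 : M'.d y = 0 := algMod_d hB' ψ hψ y
    rw [h1] at hy
    have h2 : c x = 0 := hy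
    have h3 : (show B from x) = 0 := hcb.1 (h2.trans (map_zero c).symm)
    have h4 : M.d x = 0 := algMod_d hB φ hφ x
    rw [h4]
    exact h3
  · obtain ⟨w, hw⟩ := hcb.2 z
    refine ⟨w, algMod_d hB φ hφ w, 0, ?_⟩
    rw [map_zero, add_zero]
    exact hw.symm

lemma constantCoeff_cut (p : MvPolynomial (Fin n) k) :
    constantCoeff (cut n 0 k p) = constantCoeff p := by
  have e : (aeval (fun _ => (0 : k)) : MvPolynomial (Fin 0) k →ₐ[k] k).comp (cut n 0 k) =
      (aeval (fun _ => (0 : k)) : MvPolynomial (Fin n) k →ₐ[k] k) := by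
    apply MvPolynomial.algHom_ext
    intro i
    rw [AlgHom.comp_apply, cut, aeval_X, aeval_X, dif_neg (by omega), map_zero]
  have e1 := congrArg (fun f => f p) e
  have e2 : ∀ (m : ℕ) (p : MvPolynomial (Fin m) k),
      (aeval (fun _ => (0 : k)) : MvPolynomial (Fin m) k →ₐ[k] k) p = constantCoeff p := by
    intro m p
    induction p using MvPolynomial.induction_on with
    | C c => simp
    | add p q hp hq => rw [map_add, map_add, hp, hq]
    | mul_X p i _ => rw [map_mul, map_mul, aeval_X, constantCoeff_X, mul_zero, mul_zero]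
  simp only [AlgHom.comp_apply, e2] at e1
  exact e1

lemma constantCoeff_bij :
    Function.Bijective (constantCoeff : MvPolynomial (Fin 0) k →+* k) := by
  constructor
  · intro p q hpq
    rw [eq_C_of_isEmpty p, eq_C_of_isEmpty q]
    exact congrArg C hpq
  · intro c
    exact ⟨C c, constantCoeff_C _ c⟩

lemma constantCoeff_mem {i : ℤ} {b : MvPolynomial (Fin 0) k} (hb : b ∈ polyGr (Fin 0) k i) :
    constantCoeff b ∈ fieldGr k i := by
  intro hi
  by_contra h
  have := hb 0 h
  rw [map_zero] at this
  exact hi this.symm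

lemma field_of_cut (φ : R →+* MvPolynomial (Fin n) k)
    (hφ : ∀ {i : ℤ} {r : R}, r ∈ 𝒜 i → φ r ∈ polyGr (Fin n) k i) (ε : R →+* k)
    (hε : ∀ {i : ℤ} {r : R}, r ∈ 𝒜 i → ε r ∈ fieldGr k i)
    (h : ∀ r, constantCoeff (φ r) = ε r) {G : DGMod R 𝒜 → Prop}
    (hT : Thick G (cutMod φ hφ 0)) : Thick G (algMod (fieldGr_ring k) ε hε) := by
  refine algMod_iso (polyGr_ring (Fin 0) k) (fieldGr_ring k)
    ((cut n 0 k : MvPolynomial (Fin n) k →+* MvPolynomial (Fin 0) k).comp φ)
    (fun h => cut_mem (hφ h)) ε hε (constantCoeff : MvPolynomial (Fin 0) k →+* k)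
    (fun r => ?_) (fun h => constantCoeff_mem h) constantCoeff_bij hT
  rw [← h]
  exact constantCoeff_cut _

end General

variable (W : Subgroup (Matrix.GeneralLinearGroup (Fin n) k)) [Finite W]

/-- The augmentation of the ring of invariants. -/
noncomputable def aug : invariants W →+* k :=
  (constantCoeff : MvPolynomial (Fin n) k →+* k).comp ((invariants W).val : invariants W →+* _)

omit [Finite W] in
lemma aug_mem {i : ℤ} {r : invariants W} (hr : r ∈ invGr W i) : aug W r ∈ fieldGr k i := by
  intro hi
  by_contra h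
  have := hr 0 h
  rw [map_zero] at this
  exact hi this.symm

omit [Finite W] in
lemma inv_neg {i : ℤ} {r : invariants W} (hr : r ∈ invGr W i) (hi : i < 0) : r = 0 := by
  apply Subtype.ext
  ext m
  change coeff m (r : MvPolynomial (Fin n) k) = coeff m (0 : MvPolynomial (Fin n) k)
  rw [coeff_zero]
  by_contra h
  have := hr m h
  omega

omit [Finite W] in
lemma inv_zero {r : invariants W} (hr : r ∈ invGr W 0) :
    r = algebraMap k (invariants W) (aug W r) := by
  apply Subtype.ext
  change (r : MvPolynomial (Fin n) k) = C (constantCoeff (r : MvPolynomial (Fin n) k))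
  ext m
  rw [coeff_C]
  by_cases h : 0 = m
  · rw [if_pos h, ← h]
    rfl
  · rw [if_neg h]
    by_contra hm
    have h1 := hr m hm
    have h2 : m.degree = 0 := by omega
    rw [Finsupp.degree_eq_zero_iff] at h2
    exact h h2.symm

lemma ring_mem {G : DGMod (invariants W) (invGr W) → Prop} (hW : (Nat.card W : k) ≠ 0)
    (h : Thick G (polyMod W)) : Thick G (ringMod (invGr_ring W)) := by
  let M : DGMod (invariants W) (invGr W) := ringMod (invGr_ring W)
  let iL : M →ₗ[invariants W] polyMod W :=
    { toFun := fun r => ((show invariants W from r : invariants W) : MvPolynomial (Fin n) k)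
      map_add' := fun _ _ => rfl
      map_smul' := fun _ _ => rfl }
  let rL : polyMod W →ₗ[invariants W] M :=
    { toFun := fun p => reyn W p
      map_add' := fun p q => (reyn W).map_add p q
      map_smul' := fun r p => (reyn W).map_smul r p }
  let i : DGHom M (polyMod W) := ⟨iL, fun x => iL.map_zero, fun hx => hx⟩
  let r : DGHom (polyMod W) M := ⟨rL, fun x => rL.map_zero, fun hx => reyn_mem W hx⟩
  exact .summand i r (fun x => reyn_inv W hW x) h

omit [Finite W] in
lemma field_mem {G : DGMod (invariants W) (invGr W) → Prop} (h : Thick G (polyMod W)) :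
    Thick G (algMod (fieldGr_ring k) (aug W) (fun h => aug_mem W h)) := by
  have hv : ∀ {i : ℤ} {r : invariants W}, r ∈ invGr W i →
      ((invariants W).val : invariants W →+* MvPolynomial (Fin n) k) r ∈ polyGr (Fin n) k i :=
    fun h => h
  have h1 : Thick G (cutMod ((invariants W).val : invariants W →+* MvPolynomial (Fin n) k)
      hv n) := by
    refine algMod_congr (polyGr_ring (Fin n) k) hv (fun h => cut_mem (hv h)) ?_ h
    refine RingHom.ext fun r => ?_
    exact (cut_self _).symm
  exact field_of_cut _ hv (aug W) (fun h => aug_mem W h) (fun _ => rfl) (cut_zero _ _ h1)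

omit [Finite W] in
/-- Homogeneous generators of positive degree. -/
lemma exists_generators [hft : Algebra.FiniteType k (invariants W)] :
    ∃ (r : ℕ) (g : Fin r → invariants W), Algebra.adjoin k (Set.range g) = ⊤ ∧
      ∀ j, (∃ e, Even e ∧ g j ∈ invGr W e) ∧ coeff 0 (g j : MvPolynomial (Fin n) k) = 0 := by
  classical
  obtain ⟨t, ht⟩ := hft.1
  have hint := (invGr_ring W).internal
  choose s _ hs using fun a : invariants W => gproj_sum hint a
  let t' : Finset (invariants W) := t.biUnion fun a =>
    (s a).image fun i => if i = 0 then 0 else gproj hint i a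
  have h1 : ∀ x ∈ t', (∃ e, Even e ∧ x ∈ invGr W e) ∧
      coeff 0 (x : MvPolynomial (Fin n) k) = 0 := by
    intro x hx
    simp only [t', Finset.mem_biUnion, Finset.mem_image] at hx
    obtain ⟨a, -, i, -, rfl⟩ := hx
    by_cases hi : i = 0
    · rw [if_pos hi]
      exact ⟨⟨0, Even.zero, AddSubgroup.zero_mem _⟩, coeff_zero _⟩
    · rw [if_neg hi]
      have h2 : gproj hint i a ∈ invGr W i := gproj_mem hint i a
      refine ⟨?_, aug_mem W h2 hi⟩
      by_cases h0 : gproj hint i a = 0
      · exact ⟨0, Even.zero, by rw [h0]; exact AddSubgroup.zero_mem _⟩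
      · exact ⟨i, (invGr_ring W).even h2 h0, h2⟩
  let e := t'.equivFin
  have hrange : Set.range (fun j : Fin t'.card => ((e.symm j : t') : invariants W)) = t' := by
    ext v
    constructor
    · rintro ⟨j, rfl⟩
      exact (e.symm j).2
    · intro hv
      exact ⟨e ⟨v, hv⟩, by simp⟩
  refine ⟨t'.card, fun j => ((e.symm j : t') : invariants W), ?_, fun j => h1 _ (e.symm j).2⟩
  rw [hrange, eq_top_iff, ← ht]
  refine Algebra.adjoin_le fun a ha => ?_
  rw [SetLike.mem_coe, ← hs a (s a) subset_rfl]
  refine Subalgebra.sum_mem _ fun i hi => ?_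
  by_cases h0 : i = 0
  · subst h0
    rw [inv_zero W (gproj_mem hint 0 a)]
    exact Subalgebra.algebraMap_mem _ _
  · refine Algebra.subset_adjoin ?_
    simp only [t', Finset.coe_biUnion, Finset.coe_image, Set.mem_iUnion]
    exact ⟨a, ha, i, hi, if_neg h0⟩

/-- If no element of `W` other than the identity fixes a nonzero vector, then the DG modules over
the ring of invariants with finitely generated cohomology are exactly the objects of the thick
subcategory generated by the polynomial ring. -/
theorem free_generation (hW : (Nat.card W : k) ≠ 0)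
    (hfree : ∀ w ∈ W, w ≠ 1 → ∀ v : Fin n → k,
      (w : Matrix (Fin n) (Fin n) k).mulVec v = v → v = 0)
    (M : DGMod (invariants W) (invGr W)) :
    Thick (fun N => N = polyMod W) M ↔ FG M := by
  have hft := finiteType_invariants W
  have hnoeth := noetherian_invariants W
  have hfin := finite_invariants W
  constructor
  · intro h
    refine FG.of_thick (fun N hN => ?_) h
    rw [hN]
    have h1 : IsNoetherian (invariants W) (MvPolynomial (Fin n) k) := inferInstance
    have h2 : IsNoetherian (invariants W) (polyMod W) := h1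
    exact FG.of_noetherian _
  · intro h
    have hS : Thick (fun N => N = polyMod W) (polyMod W) := .of rfl
    obtain ⟨r, g, hg, hgen⟩ := exists_generators W
    exact generation (hasGL_poly n k) (invGr_ring W) (polyGr_ring (Fin n) k) (fun h => h) hfin
      (reyn W) (reyn_inv W hW 1) (fun h => reyn_mem W h) (aug W) (fun h => aug_mem W h)
      (fun c => constantCoeff_C _ c) (fun h => inv_neg W h) (fun h => inv_zero W h)
      (algebraMap_mem_zero W) (field_mem W hS) (ring_mem W hW hS) g hg
      (fun j => (hgen j).1) (fun j => factors_pow W hfree (g j) (hgen j).2) M h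

end Run7.h892
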