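import Pool.Agent.Run7.h892.Inv

/-! Powers of the positive degree invariants of a group without fixed vectors act on the
polynomial ring through a finite free module over the invariants. -/

universe u

namespace Run7.h892

open MvPolynomial DirectSum

variable {k : Type u} [Field k] {n : ℕ}

/-- The elements `∑ x i * y i` with `∑ x i * σ (y i) = 0` for all `σ` in `A`. -/
def Sep {S : Type u} [CommRing S] (A : Set (S →+* S)) (f : S) : Prop :=
  ∃ (m : ℕ) (x y : Fin m → S), ∑ i, x i * y i = f ∧ ∀ σ ∈ A, ∑ i, x i * σ (y i) = 0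

namespace Sep

variable {S : Type u} [CommRing S]

lemma mk' {A : Set (S →+* S)} {f : S} {ι : Type} [Fintype ι] (x y : ι → S)
    (h1 : ∑ i, x i * y i = f) (h2 : ∀ σ ∈ A, ∑ i, x i * σ (y i) = 0) : Sep A f := by
  let e := (Fintype.equivFin ι).symm
  refine ⟨Fintype.card ι, x ∘ e, y ∘ e, ?_, fun σ hσ => ?_⟩
  · rw [← h1]
    exact Equiv.sum_comp e fun i => x i * y i
  · rw [← h2 σ hσ]
    exact Equiv.sum_comp e fun i => x i * σ (y i)

lemma zero (A : Set (S →+* S)) : Sep A 0 := ⟨0, 0, 0, by simp, by simp⟩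

lemma add {A : Set (S →+* S)} {f g : S} (hf : Sep A f) (hg : Sep A g) : Sep A (f + g) := by
  obtain ⟨a, x, y, h1, h2⟩ := hf
  obtain ⟨b, z, w, h3, h4⟩ := hg
  refine mk' (ι := Fin a ⊕ Fin b) (Sum.elim x z) (Sum.elim y w) ?_ fun σ hσ => ?_
  · rw [Fintype.sum_sum_type]
    simp only [Sum.elim_inl, Sum.elim_inr]
    rw [h1, h3]
  · rw [Fintype.sum_sum_type]
    simp only [Sum.elim_inl, Sum.elim_inr]
    rw [h2 σ hσ, h4 σ hσ, add_zero]

lemma smul {A : Set (S →+* S)} {f : S} (s : S) (hf : Sep A f) : Sep A (s * f) := by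
  obtain ⟨a, x, y, h1, h2⟩ := hf
  refine ⟨a, fun i => s * x i, y, ?_, fun σ hσ => ?_⟩
  · rw [← h1, Finset.mul_sum]
    exact Finset.sum_congr rfl fun i _ => mul_assoc _ _ _
  · have := congrArg (fun t => s * t) (h2 σ hσ)
    simp only [mul_zero, Finset.mul_sum] at this
    rw [← this]
    exact Finset.sum_congr rfl fun i _ => mul_assoc _ _ _

lemma mul {A B : Set (S →+* S)} {f g : S} (hf : Sep A f) (hg : Sep B g) :
    Sep (A ∪ B) (f * g) := by
  obtain ⟨a, x, y, h1, h2⟩ := hf
  obtain ⟨b, z, w, h3, h4⟩ := hg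
  have key : ∀ σ : S →+* S, ∑ ij : Fin a × Fin b, (x ij.1 * z ij.2) * σ (y ij.1 * w ij.2) =
      (∑ i, x i * σ (y i)) * ∑ j, z j * σ (w j) := by
    intro σ
    rw [Fintype.sum_prod_type, Finset.sum_mul]
    refine Finset.sum_congr rfl fun i _ => ?_
    rw [Finset.mul_sum]
    refine Finset.sum_congr rfl fun j _ => ?_
    rw [map_mul]
    ring
  refine mk' (ι := Fin a × Fin b) (fun ij => x ij.1 * z ij.2) (fun ij => y ij.1 * w ij.2) ?_
    fun σ hσ => ?_
  · have := key (RingHom.id S)
    simp only [RingHom.id_apply] at this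
    rw [this, h1, h3]
  · rw [key]
    rcases hσ with hσ | hσ
    · rw [h2 σ hσ, zero_mul]
    · rw [h4 σ hσ, mul_zero]

lemma diff (σ : S →+* S) (b : S) : Sep {σ} (σ b - b) := by
  refine mk' (ι := Fin 2) ![σ b, -1] ![1, b] ?_ fun τ hτ => ?_
  · rw [Fin.sum_univ_two]
    simp only [Matrix.cons_val_zero, Matrix.cons_val_one]
    ring
  · rw [Set.mem_singleton_iff] at hτ
    subst hτ
    rw [Fin.sum_univ_two]
    simp only [Matrix.cons_val_zero, Matrix.cons_val_one, map_one]
    ring

lemma of_mem_span {A : Set (S →+* S)} {X : Set S} (h : ∀ x ∈ X, Sep A x) {f : S}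
    (hf : f ∈ Ideal.span X) : Sep A f := by
  refine Submodule.span_induction (p := fun f _ => Sep A f) h (zero A)
    (fun x y _ _ hx hy => hx.add hy) (fun s x _ hx => hx.smul s) hf

lemma pow_finset {ι : Type*} (σ : ι → S →+* S) (f : S) (t : Finset ι)
    (h : ∀ i ∈ t, Sep {σ i} f) : Sep (σ '' t) (f ^ t.card) := by
  classical
  induction t using Finset.induction_on with
  | empty =>
    refine ⟨1, ![1], ![1], by simp, fun τ hτ => ?_⟩
    simp at hτ
  | insert a t ha ih =>
    rw [Finset.card_insert_of_notMem ha, pow_succ, Finset.coe_insert, Set.image_insert_eq,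
      Set.insert_eq, Set.union_comm]
    exact (ih fun i hi => h i (Finset.mem_insert_of_mem hi)).mul (h a (Finset.mem_insert_self _ _))

end Sep

/-- A variable is of the form `b ∘ w - b` if `w - 1` is invertible. -/
lemma sep_X (w : Matrix (Fin n) (Fin n) k)
    (hw : ∀ v : Fin n → k, w.mulVec v = v → v = 0) (j : Fin n) :
    Sep {((subst w : MvPolynomial (Fin n) k →ₐ[k] _) : MvPolynomial (Fin n) k →+* _)} (X j) := by
  have hdet : (w - 1).det ≠ 0 := by
    intro h
    obtain ⟨v, hv0, hv⟩ := Matrix.exists_mulVec_eq_zero_iff.2 h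
    apply hv0
    apply hw
    rw [Matrix.sub_mulVec, Matrix.one_mulVec, sub_eq_zero] at hv
    exact hv
  have hunit : IsUnit (w - 1).det := isUnit_iff_ne_zero.2 hdet
  let c : Fin n → k := fun i => (w - 1)⁻¹ j i
  have hc : ∀ l, ∑ i, c i * (w - 1) i l = if j = l then 1 else 0 := by
    intro l
    have := congrFun (congrFun (Matrix.nonsing_inv_mul (w - 1) hunit) j) l
    rw [Matrix.mul_apply] at this
    rw [← Matrix.one_apply, ← this]
  have h := Sep.diff ((subst w : MvPolynomial (Fin n) k →ₐ[k] _) :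
    MvPolynomial (Fin n) k →+* _) (∑ i, C (c i) * X i)
  convert h using 1
  have h1 : ∀ q : MvPolynomial (Fin n) k, ((subst w : MvPolynomial (Fin n) k →ₐ[k] _) :
    MvPolynomial (Fin n) k →+* _) q = subst w q := fun _ => rfl
  have hC : ∀ c : k, subst w (C c) = C c := fun c => AlgHom.commutes _ c
  rw [h1, map_sum]
  simp only [map_mul, hC, subst_X]
  have h2 : ∀ l : Fin n, (∑ i, C (c i) * C ((w - 1) i l) : MvPolynomial (Fin n) k) =
      C (if j = l then 1 else 0) := by
    intro l
    rw [← hc l, map_sum]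
    exact Finset.sum_congr rfl fun i _ => (C_mul).symm
  have h3 : (X j : MvPolynomial (Fin n) k) = ∑ l, C (if j = l then (1 : k) else 0) * X l := by
    rw [Finset.sum_eq_single j]
    · simp
    · intro l _ hl
      rw [if_neg (Ne.symm hl)]
      simp
    · intro h
      exact absurd (Finset.mem_univ j) h
  have h4 : (∑ i, C (c i) * X i : MvPolynomial (Fin n) k) =
      ∑ i, C (c i) * ∑ l, C ((1 : Matrix (Fin n) (Fin n) k) i l) * X l := by
    refine Finset.sum_congr rfl fun i _ => ?_
    congr 1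
    rw [Finset.sum_eq_single i]
    · simp
    · intro l _ hl
      rw [Matrix.one_apply_ne (Ne.symm hl)]
      simp
    · intro h
      exact absurd (Finset.mem_univ i) h
  rw [h4, ← Finset.sum_sub_distrib, h3]
  have h5 : ∀ i, (C (c i) * ∑ l, C (w i l) * X l - C (c i) *
      ∑ l, C ((1 : Matrix (Fin n) (Fin n) k) i l) * X l : MvPolynomial (Fin n) k) =
      ∑ l, C (c i) * C ((w - 1) i l) * X l := by
    intro i
    rw [← mul_sub, ← Finset.sum_sub_distrib, Finset.mul_sum]
    refine Finset.sum_congr rfl fun l _ => ?_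
    rw [Matrix.sub_apply, C_sub]
    ring
  simp only [h5]
  rw [Finset.sum_comm]
  refine Finset.sum_congr rfl fun l _ => ?_
  rw [← h2 l, Finset.sum_mul]

/-- The factorisation over the invariants. -/
lemma factors_of_sep (W : Subgroup (Matrix.GeneralLinearGroup (Fin n) k)) [Finite W]
    (f : invariants W)
    (h : Sep {τ | ∃ w ∈ W, w ≠ 1 ∧
      τ = ((subst (w : Matrix (Fin n) (Fin n) k) : MvPolynomial (Fin n) k →ₐ[k] _) :
        MvPolynomial (Fin n) k →+* _)} (f : MvPolynomial (Fin n) k)) :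
    Factors (invariants W) (MvPolynomial (Fin n) k) f := by
  classical
  have : Fintype W := Fintype.ofFinite W
  obtain ⟨m, x, y, h1, h2⟩ := h
  refine ⟨m, fun j => trL W ∘ₗ LinearMap.mulLeft (invariants W) (y j), x, fun s => ?_⟩
  have h3 : ∀ j, (trL W ∘ₗ LinearMap.mulLeft (invariants W) (y j)) s • x j =
      (∑ w : W, subst (w.1 : Matrix (Fin n) (Fin n) k) (y j * s)) * x j := by
    intro j
    change ((trInv W (y j * s) : invariants W) : MvPolynomial (Fin n) k) * x j = _
    rw [trInv_coe]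
  simp only [h3]
  have h4 : ∑ j, (∑ w : W, subst (w.1 : Matrix (Fin n) (Fin n) k) (y j * s)) * x j =
      ∑ w : W, subst (w.1 : Matrix (Fin n) (Fin n) k) s *
        ∑ j, x j * subst (w.1 : Matrix (Fin n) (Fin n) k) (y j) := by
    simp only [Finset.sum_mul, Finset.mul_sum]
    rw [Finset.sum_comm]
    refine Finset.sum_congr rfl fun w _ => Finset.sum_congr rfl fun j _ => ?_
    rw [map_mul]
    ring
  rw [h4, Finset.sum_eq_single (1 : W)]
  · have e1 : ∀ p : MvPolynomial (Fin n) k,
        subst ((1 : W).1 : Matrix (Fin n) (Fin n) k) p = p := fun p => subst_one p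
    simp only [e1]
    rw [h1, mul_comm]
    rfl
  · intro w _ hw
    have hw' : (w : Matrix.GeneralLinearGroup (Fin n) k) ≠ 1 := fun h => hw (Subtype.ext h)
    have h5 : ∑ j, x j * subst (w.1 : Matrix (Fin n) (Fin n) k) (y j) = 0 :=
      h2 _ ⟨w.1, w.2, hw', rfl⟩
    rw [h5, mul_zero]
  · intro h
    exact absurd (Finset.mem_univ _) h

/-- An invariant without constant term has a power which acts through a finite free module. -/
lemma factors_pow (W : Subgroup (Matrix.GeneralLinearGroup (Fin n) k)) [Finite W]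
    (hW : ∀ w ∈ W, w ≠ 1 → ∀ v : Fin n → k, (w : Matrix (Fin n) (Fin n) k).mulVec v = v → v = 0)
    (f : invariants W) (hf : coeff 0 (f : MvPolynomial (Fin n) k) = 0) :
    ∃ N : ℕ, Factors (invariants W) (MvPolynomial (Fin n) k) (f ^ N) := by
  classical
  have : Fintype W := Fintype.ofFinite W
  have hspan : (f : MvPolynomial (Fin n) k) ∈
      Ideal.span (X '' (Set.univ : Set (Fin n)) : Set (MvPolynomial (Fin n) k)) := by
    rw [mem_ideal_span_X_image]
    intro m hm
    by_contra h
    push Not at h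
    have hm0 : m = 0 := by
      ext i
      exact h i (Set.mem_univ i)
    rw [mem_support_iff, hm0] at hm
    exact hm hf
  let t : Finset W := Finset.univ.filter fun w => w ≠ 1
  have h1 := Sep.pow_finset (fun w : W =>
    ((subst (w.1 : Matrix (Fin n) (Fin n) k) : MvPolynomial (Fin n) k →ₐ[k] _) :
        MvPolynomial (Fin n) k →+* _)) (f : MvPolynomial (Fin n) k) t (fun w hw => by
      refine Sep.of_mem_span (fun x hx => ?_) hspan
      obtain ⟨j, -, rfl⟩ := hx
      refine sep_X _ (hW w.1 w.2 fun h => ?_) j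
      exact (Finset.mem_filter.1 hw).2 (Subtype.ext h))
  refine ⟨t.card, factors_of_sep W _ ?_⟩
  obtain ⟨m, x, y, h2, h3⟩ := h1
  refine ⟨m, x, y, h2, ?_⟩
  rintro τ ⟨w, hw, hw1, rfl⟩
  refine h3 _ ⟨⟨w, hw⟩, ?_, rfl⟩
  simp only [t, Finset.coe_filter, Finset.mem_univ, true_and, Set.mem_ofPred_eq]
  exact fun h => hw1 (congrArg Subtype.val h)

end Run7.h892
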