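import Pool.Agent.Run7.h892.Dg

/-! Ghost maps of differential modules; homotopies over a field. -/

universe u

namespace Run7.h892

/-- A differential module (no grading). -/
structure DMod (R : Type u) [CommRing R] : Type (u + 1) where
  /-- the total module -/
  carrier : Type u
  [grp : AddCommGroup carrier]
  [mod : Module R carrier]
  /-- the differential -/
  d : carrier →ₗ[R] carrier
  d_d : ∀ x : carrier, d (d x) = 0

attribute [instance] DMod.grp DMod.mod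

variable {R : Type u} [CommRing R]

instance : CoeSort (DMod R) (Type u) := ⟨DMod.carrier⟩

/-- Forget the grading. -/
@[reducible] def DGMod.toD {𝒜 : ℤ → AddSubgroup R} (M : DGMod R 𝒜) : DMod R where
  carrier := M.carrier
  d := M.d
  d_d := M.d_d

/-- Change the sign of the differential. -/
@[reducible] def DMod.neg (M : DMod R) : DMod R where
  carrier := M.carrier
  d := -M.d
  d_d x := by
    rw [LinearMap.neg_apply, LinearMap.neg_apply, map_neg, M.d_d, neg_zero, neg_zero]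

/-- Composites containing `n` ghost maps. -/
inductive GC : ℕ → ∀ X Y : DMod R, (X →ₗ[R] Y) → Prop
  | chain {X Y : DMod R} (f : X →ₗ[R] Y) : (∀ x, f (X.d x) = Y.d (f x)) → GC 0 X Y f
  | ghost {n : ℕ} {X Y Z : DMod R} (f : X →ₗ[R] Y) (g : Y →ₗ[R] Z) : GC n X Y f →
      (∀ x, g (Y.d x) = Z.d (g x)) → (∀ y, Y.d y = 0 → ∃ z, g y = Z.d z) → GC (n + 1) X Z (g ∘ₗ f)

namespace GC

lemma comm {n : ℕ} {X Y : DMod R} {f : X →ₗ[R] Y} (h : GC n X Y f) (x : X) :
    f (X.d x) = Y.d (f x) := by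
  induction h with
  | chain f hf => exact hf x
  | ghost f g _ hg _ ih => rw [LinearMap.comp_apply, ih, hg, LinearMap.comp_apply]

lemma neg {n : ℕ} {X Y : DMod R} {f : X →ₗ[R] Y} (h : GC n X Y f) : GC n X.neg Y.neg f := by
  induction h with
  | @chain X Y f hf =>
    refine .chain (X := X.neg) (Y := Y.neg) f fun x => ?_
    change f (-X.d x) = -Y.d (f x)
    rw [map_neg, hf]
  | @ghost n X Y Z f g _ hg hg' ih =>
    refine .ghost (X := X.neg) (Y := Y.neg) (Z := Z.neg) f g ih (fun x => ?_) fun y hy => ?_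
    · change g (-Y.d x) = -Z.d (g x)
      rw [map_neg, hg]
    · have hy' : -Y.d y = 0 := hy
      obtain ⟨z, hz⟩ := hg' y (neg_eq_zero.1 hy')
      refine ⟨-z, ?_⟩
      change g y = -Z.d (-z)
      rw [map_neg, neg_neg, hz]

lemma precomp {n : ℕ} {W X Y : DMod R} {f : X →ₗ[R] Y} (h : GC n X Y f) (e : W →ₗ[R] X)
    (he : ∀ x, e (W.d x) = X.d (e x)) : GC n W Y (f ∘ₗ e) := by
  induction h with
  | chain f hf =>
    refine .chain _ fun x => ?_
    rw [LinearMap.comp_apply, he, hf, LinearMap.comp_apply]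
  | ghost f g _ hg hg' ih =>
    rw [LinearMap.comp_assoc]
    exact .ghost _ g (ih e he) hg hg'

lemma split {m : ℕ} {X Z : DMod R} : ∀ {n : ℕ} {f : X →ₗ[R] Z}, GC (m + n) X Z f →
    ∃ (Y : DMod R) (g : X →ₗ[R] Y) (h : Y →ₗ[R] Z), GC m X Y g ∧ GC n Y Z h ∧ f = h ∘ₗ g := by
  intro n
  induction n generalizing Z with
  | zero => exact fun {f} hf => ⟨Z, f, LinearMap.id, hf, .chain _ fun _ => rfl, rfl⟩
  | succ n ih =>
    intro f hf
    rw [← add_assoc] at hf
    cases hf with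
    | ghost f' g' h1 h2 h3 =>
      obtain ⟨Y, g, h, hg, hh, rfl⟩ := ih h1
      exact ⟨Y, g, g' ∘ₗ h, hg, .ghost _ _ hh h2 h3, rfl⟩

end GC

section Field

variable {k : Type*} [Field k] {N Z : Type*} [AddCommGroup N] [Module k N] [AddCommGroup Z]
  [Module k Z]

lemma exists_quasi_inverse (d : N →ₗ[k] N) : ∃ τ : N →ₗ[k] N, ∀ x, d (τ (d x)) = d x := by
  obtain ⟨g, hg⟩ := d.rangeRestrict.exists_rightInverse_of_surjective
    (LinearMap.range_rangeRestrict d)
  obtain ⟨τ, hτ⟩ := LinearMap.exists_extend g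
  refine ⟨τ, fun x => ?_⟩
  have h1 : τ (d x) = g ⟨d x, LinearMap.mem_range_self d x⟩ := by
    rw [← hτ]; rfl
  have h2 := congrArg Subtype.val (LinearMap.congr_fun hg ⟨d x, LinearMap.mem_range_self d x⟩)
  rw [h1]
  exact h2

/-- Over a field, a chain map which is zero on cohomology is null-homotopic. -/
lemma field_homotopy (dN : N →ₗ[k] N) (dZ : Z →ₗ[k] Z) (hN : ∀ x, dN (dN x) = 0)
    (φ : N →ₗ[k] Z) (hφ : ∀ x, φ (dN x) = dZ (φ x))
    (hg : ∀ x, dN x = 0 → ∃ z, φ x = dZ z) :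
    ∃ h : N →ₗ[k] Z, ∀ x, φ x = dZ (h x) + h (dN x) := by
  obtain ⟨τ, hτ⟩ := exists_quasi_inverse dN
  obtain ⟨σ, hσ⟩ := exists_quasi_inverse dZ
  let h0 : N →ₗ[k] Z := (φ ∘ₗ τ ∘ₗ dN ∘ₗ τ) + (σ ∘ₗ φ ∘ₗ (LinearMap.id - dN ∘ₗ τ))
  have h0a : ∀ y, h0 y = φ (τ (dN (τ y))) + σ (φ (y - dN (τ y))) := fun y => rfl
  have key1 : ∀ y, dN y = 0 → dZ (h0 y) = φ y := by
    intro y hy
    rw [h0a, map_add, ← hφ, hτ]
    have h1 : dN (y - dN (τ y)) = 0 := by rw [map_sub, hy, hN, sub_zero]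
    obtain ⟨z, hz⟩ := hg _ h1
    rw [hz, hσ, ← hz, ← map_add]
    congr 1
    abel
  refine ⟨h0 ∘ₗ (LinearMap.id - τ ∘ₗ dN), fun x => ?_⟩
  have e1 : (h0 ∘ₗ (LinearMap.id - τ ∘ₗ dN)) x = h0 (x - τ (dN x)) := rfl
  have e2 : (h0 ∘ₗ (LinearMap.id - τ ∘ₗ dN)) (dN x) = h0 (dN x - τ (dN (dN x))) := rfl
  rw [e1, e2, hN, map_zero, sub_zero, key1 _ (by rw [map_sub, hτ, sub_self]), h0a, hτ, sub_self,
    map_zero, map_zero, add_zero, map_sub]
  abel

end Field

end Run7.h892
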