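import Mathlib

/-! Internally `ℤ`-graded abelian groups: extension of families of maps, projections, and a
criterion for a family of subgroups to be an internal grading. -/

universe u v

namespace Run7.h892

open DirectSum

section Glift

variable {M : Type u} [AddCommGroup M] {N : Type v} [AddCommGroup N] {gr : ℤ → AddSubgroup M}

/-- The additive map which on the part of degree `i` is `φ i`. -/
noncomputable def glift (h : IsInternal gr) (φ : ℤ → M →+ N) : M →+ N :=
  (DirectSum.toAddMonoid fun i => (φ i).comp (gr i).subtype).comp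
    (AddEquiv.ofBijective (DirectSum.coeAddMonoidHom gr) h).symm.toAddMonoidHom

lemma glift_apply (h : IsInternal gr) (φ : ℤ → M →+ N) {i : ℤ} {x : M} (hx : x ∈ gr i) :
    glift h φ x = φ i x := by
  have e : (AddEquiv.ofBijective (DirectSum.coeAddMonoidHom gr) h).symm x =
      DirectSum.of (fun i => gr i) i ⟨x, hx⟩ := by
    rw [AddEquiv.symm_apply_eq]
    exact (DirectSum.coeAddMonoidHom_of gr i ⟨x, hx⟩).symm
  simp only [glift, AddMonoidHom.comp_apply]
  change (DirectSum.toAddMonoid fun i => (φ i).comp (gr i).subtype)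
    ((AddEquiv.ofBijective (DirectSum.coeAddMonoidHom gr) h).symm x) = _
  rw [e, DirectSum.toAddMonoid_of]
  rfl

lemma gr_iSup (h : IsInternal gr) : (⨆ i, gr i) = ⊤ := by
  rw [eq_top_iff]
  intro x _
  obtain ⟨y, rfl⟩ := h.2 x
  induction y using DirectSum.induction_on with
  | zero => simp
  | of i y =>
    rw [DirectSum.coeAddMonoidHom_of]
    exact AddSubgroup.mem_iSup_of_mem i y.2
  | add a b ha hb =>
    rw [map_add]
    exact AddSubgroup.add_mem _ (ha trivial) (hb trivial)

/-- Induction on homogeneous elements. -/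
lemma gr_induction (h : IsInternal gr) {p : M → Prop} (h0 : p 0)
    (hadd : ∀ x y, p x → p y → p (x + y)) (hh : ∀ i x, x ∈ gr i → p x) (x : M) : p x := by
  obtain ⟨y, rfl⟩ := h.2 x
  induction y using DirectSum.induction_on with
  | zero => simpa using h0
  | of i y =>
    rw [DirectSum.coeAddMonoidHom_of]
    exact hh i y y.2
  | add a b ha hb =>
    rw [map_add]
    exact hadd _ _ ha hb

lemma hom_ext_gr (h : IsInternal gr) {f g : M →+ N} (hfg : ∀ i x, x ∈ gr i → f x = g x) :
    f = g := by
  ext x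
  induction x using gr_induction h with
  | h0 => simp
  | hadd x y hx hy => simp [hx, hy]
  | hh i x hx => exact hfg i x hx

/-- The projection to the part of degree `j`. -/
noncomputable def gproj (h : IsInternal gr) (j : ℤ) : M →+ M :=
  glift h fun i => if i = j then AddMonoidHom.id M else 0

lemma gproj_of_mem (h : IsInternal gr) {j : ℤ} {x : M} (hx : x ∈ gr j) : gproj h j x = x := by
  rw [gproj, glift_apply h _ hx, if_pos rfl]
  rfl

lemma gproj_of_mem_ne (h : IsInternal gr) {i j : ℤ} (hij : i ≠ j) {x : M} (hx : x ∈ gr i) :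
    gproj h j x = 0 := by
  rw [gproj, glift_apply h _ hx, if_neg hij]
  rfl

lemma gproj_mem (h : IsInternal gr) (j : ℤ) (x : M) : gproj h j x ∈ gr j := by
  induction x using gr_induction h with
  | h0 => simp
  | hadd x y hx hy =>
    rw [map_add]
    exact AddSubgroup.add_mem _ hx hy
  | hh i x hx =>
    by_cases hij : i = j
    · subst hij
      rwa [gproj_of_mem h hx]
    · rw [gproj_of_mem_ne h hij hx]
      exact AddSubgroup.zero_mem _

/-- Every element is a finite sum of its homogeneous components. -/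
lemma gproj_sum (h : IsInternal gr) (x : M) :
    ∃ s : Finset ℤ, (∀ i, i ∉ s → gproj h i x = 0) ∧
      ∀ t : Finset ℤ, s ⊆ t → ∑ i ∈ t, gproj h i x = x := by
  classical
  induction x using gr_induction h with
  | h0 => exact ⟨∅, by simp, by simp⟩
  | hadd x y hx hy =>
    obtain ⟨s, hs, hs'⟩ := hx
    obtain ⟨t, ht, ht'⟩ := hy
    refine ⟨s ∪ t, fun i hi => ?_, fun w hw => ?_⟩
    · rw [map_add, hs i (fun h => hi (Finset.mem_union_left _ h)),
        ht i (fun h => hi (Finset.mem_union_right _ h)), add_zero]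
    · simp only [map_add, Finset.sum_add_distrib]
      rw [hs' w (Finset.union_subset_left hw), ht' w (Finset.union_subset_right hw)]
  | hh i x hx =>
    refine ⟨{i}, fun j hj => ?_, fun w hw => ?_⟩
    · exact gproj_of_mem_ne h (by simpa [eq_comm] using hj) hx
    · rw [Finset.sum_eq_single i, gproj_of_mem h hx]
      · intro j _ hj
        exact gproj_of_mem_ne h (Ne.symm hj) hx
      · intro hi
        exact absurd (Finset.singleton_subset_iff.1 hw) hi

lemma gproj_ext (h : IsInternal gr) {x y : M} (hxy : ∀ i, gproj h i x = gproj h i y) : x = y := by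
  classical
  obtain ⟨s, -, hs⟩ := gproj_sum h x
  obtain ⟨t, -, ht⟩ := gproj_sum h y
  rw [← hs (s ∪ t) Finset.subset_union_left, ← ht (s ∪ t) Finset.subset_union_right]
  exact Finset.sum_congr rfl fun i _ => hxy i

lemma eq_zero_of_mem_ne (h : IsInternal gr) {i j : ℤ} (hij : i ≠ j) {x : M} (hx : x ∈ gr i)
    (hx' : x ∈ gr j) : x = 0 := by
  rw [← gproj_of_mem h hx', gproj_of_mem_ne h hij hx]

/-- A family of subgroups which span and have compatible projections is an internal grading. -/
lemma isInternal_of_proj (gr : ℤ → AddSubgroup M) (π : ℤ → M →+ M)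
    (h1 : ∀ i x, x ∈ gr i → π i x = x) (h2 : ∀ i j x, i ≠ j → x ∈ gr i → π j x = 0)
    (h3 : ∀ x, x ∈ ⨆ i, gr i) : IsInternal gr := by
  classical
  constructor
  · rw [injective_iff_map_eq_zero]
    intro y hy
    have key : ∀ z : ⨁ i, gr i, ∀ j, π j (DirectSum.coeAddMonoidHom gr z) = (z j : M) := by
      intro z j
      induction z using DirectSum.induction_on with
      | zero => simp
      | of i z =>
        rw [DirectSum.coeAddMonoidHom_of]
        by_cases hij : i = j
        · subst hij
          rw [h1 _ _ z.2, DirectSum.of_eq_same]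
        · rw [h2 _ _ _ hij z.2, DirectSum.of_eq_of_ne _ _ _ (Ne.symm hij)]
          rfl
      | add a b ha hb =>
        rw [map_add, map_add, ha, hb, DirectSum.add_apply]
        rfl
    ext j
    have := key y j
    rw [hy, map_zero] at this
    rw [← this]
    rfl
  · intro x
    refine AddSubgroup.iSup_induction gr
      (C := fun x => ∃ a, (DirectSum.coeAddMonoidHom gr) a = x) (h3 x) ?_ ?_ ?_
    · intro i x hx
      exact ⟨DirectSum.of (fun i => gr i) i ⟨x, hx⟩, DirectSum.coeAddMonoidHom_of gr i ⟨x, hx⟩⟩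
    · exact ⟨0, map_zero _⟩
    · rintro x y ⟨a, rfl⟩ ⟨b, rfl⟩
      exact ⟨a + b, map_add _ _ _⟩

end Glift

section Constructions

variable {M : Type u} [AddCommGroup M] {N : Type v} [AddCommGroup N]

lemma shift_internal {gr : ℤ → AddSubgroup M} (h : IsInternal gr) (n : ℤ) :
    IsInternal fun i => gr (i + n) := by
  refine isInternal_of_proj _ (fun i => gproj h (i + n)) (fun i x hx => ?_)
    (fun i j x hij hx => ?_) (fun x => ?_)
  · exact gproj_of_mem h hx
  · exact gproj_of_mem_ne h (by simpa using hij) hx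
  · induction x using gr_induction h with
    | h0 => exact AddSubgroup.zero_mem _
    | hadd x y hx hy => exact AddSubgroup.add_mem _ hx hy
    | hh i x hx =>
      refine AddSubgroup.mem_iSup_of_mem (i - n) ?_
      rwa [sub_add_cancel]

lemma prod_internal {gr : ℤ → AddSubgroup M} {gr' : ℤ → AddSubgroup N} (h : IsInternal gr)
    (h' : IsInternal gr') : IsInternal fun i => (gr i).prod (gr' i) := by
  refine isInternal_of_proj _ (fun i => (gproj h i).prodMap (gproj h' i))
    (fun i x hx => ?_) (fun i j x hij hx => ?_) (fun x => ?_)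
  · rw [AddSubgroup.mem_prod] at hx
    exact Prod.ext (gproj_of_mem h hx.1) (gproj_of_mem h' hx.2)
  · rw [AddSubgroup.mem_prod] at hx
    exact Prod.ext (gproj_of_mem_ne h hij hx.1) (gproj_of_mem_ne h' hij hx.2)
  · obtain ⟨y, x⟩ := x
    have h1 : (y, (0 : N)) ∈ ⨆ i, (gr i).prod (gr' i) := by
      induction y using gr_induction h with
      | h0 => exact AddSubgroup.zero_mem _
      | hadd x y hx hy => simpa using AddSubgroup.add_mem _ hx hy
      | hh i x hx =>
        exact AddSubgroup.mem_iSup_of_mem i (AddSubgroup.mem_prod.2 ⟨hx, AddSubgroup.zero_mem _⟩)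
    have h2 : ((0 : M), x) ∈ ⨆ i, (gr i).prod (gr' i) := by
      induction x using gr_induction h' with
      | h0 => exact AddSubgroup.zero_mem _
      | hadd x y hx hy => simpa using AddSubgroup.add_mem _ hx hy
      | hh i x hx =>
        exact AddSubgroup.mem_iSup_of_mem i (AddSubgroup.mem_prod.2 ⟨AddSubgroup.zero_mem _, hx⟩)
    simpa using AddSubgroup.add_mem _ h1 h2

end Constructions

section Smul

variable {R : Type*} [CommRing R] {𝒜 : ℤ → AddSubgroup R} {M : Type u} [AddCommGroup M]
  [Module R M] {N : Type v} [AddCommGroup N] [Module R N] {gr : ℤ → AddSubgroup M}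
  {gr' : ℤ → AddSubgroup N}

lemma gproj_smul (h : IsInternal gr)
    (hs : ∀ {i j : ℤ} {r : R} {x : M}, r ∈ 𝒜 i → x ∈ gr j → r • x ∈ gr (i + j))
    {a : ℤ} {r : R} (hr : r ∈ 𝒜 a) (j : ℤ) (x : M) :
    gproj h (a + j) (r • x) = r • gproj h j x := by
  induction x using gr_induction h with
  | h0 => rw [smul_zero, map_zero, map_zero, smul_zero]
  | hadd x y hx hy => rw [smul_add, map_add, map_add, smul_add, hx, hy]
  | hh i x hx =>
    by_cases hij : i = j
    · subst hij
      rw [gproj_of_mem h (hs hr hx), gproj_of_mem h hx]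
    · rw [gproj_of_mem_ne h (by omega) (hs hr hx), gproj_of_mem_ne h hij hx, smul_zero]

/-- The homogeneous component of degree `c` of a linear map. -/
noncomputable def gcomp (hA : IsInternal 𝒜) (h : IsInternal gr) (h' : IsInternal gr')
    (hs : ∀ {i j : ℤ} {r : R} {x : M}, r ∈ 𝒜 i → x ∈ gr j → r • x ∈ gr (i + j))
    (hs' : ∀ {i j : ℤ} {r : R} {x : N}, r ∈ 𝒜 i → x ∈ gr' j → r • x ∈ gr' (i + j))
    (c : ℤ) (f : M →ₗ[R] N) : M →ₗ[R] N where
  toFun := glift h fun i => (gproj h' (i + c)).comp f.toAddMonoidHom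
  map_add' := map_add _
  map_smul' r x := by
    rw [RingHom.id_apply]
    induction x using gr_induction h with
    | h0 => rw [smul_zero, map_zero, smul_zero]
    | hadd x y hx hy => rw [smul_add, map_add, map_add, smul_add, hx, hy]
    | hh i x hx =>
      induction r using gr_induction hA with
      | h0 => rw [zero_smul, zero_smul, map_zero]
      | hadd r s hr hs => rw [add_smul, map_add, add_smul, hr, hs]
      | hh a r hr =>
        rw [glift_apply h _ hx, glift_apply h _ (hs hr hx)]
        change gproj h' (a + i + c) (f (r • x)) = r • gproj h' (i + c) (f x)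
        rw [f.map_smul, add_assoc]
        exact gproj_smul h' hs' hr _ _

lemma gcomp_apply (hA : IsInternal 𝒜) (h : IsInternal gr) (h' : IsInternal gr')
    (hs : ∀ {i j : ℤ} {r : R} {x : M}, r ∈ 𝒜 i → x ∈ gr j → r • x ∈ gr (i + j))
    (hs' : ∀ {i j : ℤ} {r : R} {x : N}, r ∈ 𝒜 i → x ∈ gr' j → r • x ∈ gr' (i + j))
    (c : ℤ) (f : M →ₗ[R] N) {i : ℤ} {x : M} (hx : x ∈ gr i) :
    gcomp hA h h' hs hs' c f x = gproj h' (i + c) (f x) :=
  glift_apply h _ hx

lemma gcomp_mem (hA : IsInternal 𝒜) (h : IsInternal gr) (h' : IsInternal gr')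
    (hs : ∀ {i j : ℤ} {r : R} {x : M}, r ∈ 𝒜 i → x ∈ gr j → r • x ∈ gr (i + j))
    (hs' : ∀ {i j : ℤ} {r : R} {x : N}, r ∈ 𝒜 i → x ∈ gr' j → r • x ∈ gr' (i + j))
    (c : ℤ) (f : M →ₗ[R] N) {i : ℤ} {x : M} (hx : x ∈ gr i) :
    gcomp hA h h' hs hs' c f x ∈ gr' (i + c) := by
  rw [gcomp_apply hA h h' hs hs' c f hx]
  exact gproj_mem _ _ _

end Smul

/-- A commutative ring graded in even cohomological degrees. -/
structure GrRing (R : Type u) [CommRing R] (𝒜 : ℤ → AddSubgroup R) : Prop where
  internal : IsInternal 𝒜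
  one_mem : (1 : R) ∈ 𝒜 0
  mul_mem : ∀ {i j : ℤ} {r s : R}, r ∈ 𝒜 i → s ∈ 𝒜 j → r * s ∈ 𝒜 (i + j)
  even : ∀ {i : ℤ} {r : R}, r ∈ 𝒜 i → r ≠ 0 → Even i

lemma GrRing.pow_mem {R : Type u} [CommRing R] {𝒜 : ℤ → AddSubgroup R} (h : GrRing R 𝒜) {i : ℤ}
    {r : R} (hr : r ∈ 𝒜 i) (n : ℕ) : r ^ n ∈ 𝒜 (n * i) := by
  induction n with
  | zero => simpa using h.one_mem
  | succ n ih =>
    rw [pow_succ]
    have := h.mul_mem ih hr
    convert this using 2
    push_cast
    ring

end Run7.h892
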