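import Pool.Agent.Run7.h892.Main

/-! Rings of invariants of finite linear groups. -/

universe u

namespace Run7.h892

open MvPolynomial DirectSum

variable {k : Type u} [Field k] {n : ℕ}

/-- The substitution `p ↦ p ∘ A` in a polynomial function `p` on `k ^ n`. -/
noncomputable def subst (A : Matrix (Fin n) (Fin n) k) :
    MvPolynomial (Fin n) k →ₐ[k] MvPolynomial (Fin n) k :=
  aeval fun i => ∑ j, C (A i j) * X j

lemma subst_X (A : Matrix (Fin n) (Fin n) k) (i : Fin n) :
    subst A (X i) = ∑ j, C (A i j) * X j := by
  rw [subst, aeval_X]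

lemma subst_one (p : MvPolynomial (Fin n) k) : subst 1 p = p := by
  have h : subst (1 : Matrix (Fin n) (Fin n) k) = AlgHom.id k _ := by
    apply MvPolynomial.algHom_ext
    intro i
    rw [subst_X, Finset.sum_eq_single i]
    · simp
    · intro s _ hs
      rw [Matrix.one_apply_ne (Ne.symm hs)]
      simp
    · intro h; exact absurd (Finset.mem_univ i) h
  rw [h]
  rfl

lemma subst_subst (g h : Matrix (Fin n) (Fin n) k) (p : MvPolynomial (Fin n) k) :
    subst h (subst g p) = subst (g * h) p := by
  have e : (subst h).comp (subst g) = subst (g * h) := by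
    apply MvPolynomial.algHom_ext
    intro i
    rw [AlgHom.comp_apply, subst_X, subst_X, map_sum]
    have hC : ∀ c : k, subst h (C c) = C c := fun c => AlgHom.commutes _ c
    simp_rw [map_mul, subst_X, hC, Finset.mul_sum]
    rw [Finset.sum_comm]
    refine Finset.sum_congr rfl fun t _ => ?_
    rw [Matrix.mul_apply, map_sum, Finset.sum_mul]
    refine Finset.sum_congr rfl fun s _ => ?_
    rw [C_mul]
    ring
  exact congrArg (fun f => f p) e

/-- An algebra homomorphism of polynomial rings which sends the variables to linear forms is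
graded. -/
lemma map_polyGr {σ τ : Type} (φ : MvPolynomial σ k →ₐ[k] MvPolynomial τ k)
    (hφ : ∀ i, φ (X i) ∈ polyGr τ k 2) {i : ℤ} {p : MvPolynomial σ k} (hp : p ∈ polyGr σ k i) :
    φ p ∈ polyGr τ k i := by
  let _ : Module (MvPolynomial σ k) (MvPolynomial τ k) := Module.compHom _ φ.toRingHom
  have h := smul_mem_of_gens (N := MvPolynomial τ k) (polyGr τ k)
    (fun c {j x} hx => by
      change φ (C c) * x ∈ _
      have : φ (C c) = C c := φ.commutes c
      rw [this]
      have := polyGr_mul (C_mem (σ := τ) c) hx
      rwa [zero_add] at this)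
    (fun i {j x} hx => polyGr_mul (hφ i) hx) hp (one_mem' (σ := τ) (k := k))
  rw [add_zero] at h
  have h2 : φ p * 1 ∈ polyGr τ k i := h
  rwa [mul_one] at h2

lemma subst_mem (A : Matrix (Fin n) (Fin n) k) {i : ℤ} {p : MvPolynomial (Fin n) k}
    (hp : p ∈ polyGr (Fin n) k i) : subst A p ∈ polyGr (Fin n) k i := by
  refine map_polyGr _ (fun i => ?_) hp
  rw [subst_X]
  refine AddSubgroup.sum_mem _ fun j _ => ?_
  have := polyGr_mul (C_mem (σ := Fin n) (A i j)) (X_mem j)
  rwa [zero_add] at this

lemma subst_gproj (A : Matrix (Fin n) (Fin n) k) (i : ℤ) (p : MvPolynomial (Fin n) k) :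
    subst A (gproj (polyGr_internal (Fin n) k) i p) =
      gproj (polyGr_internal (Fin n) k) i (subst A p) := by
  induction p using gr_induction (polyGr_internal (Fin n) k) with
  | h0 => simp
  | hadd x y hx hy => rw [map_add, map_add, hx, hy, map_add, map_add]
  | hh j p hp =>
    by_cases hij : j = i
    · subst hij
      rw [gproj_of_mem _ hp, gproj_of_mem _ (subst_mem A hp)]
    · rw [gproj_of_mem_ne _ hij hp, gproj_of_mem_ne _ hij (subst_mem A hp), map_zero]

/-- The ring of invariants of a group of invertible matrices: the polynomial functions `p` on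
`k ^ n` with `p ∘ w = p` for all `w` in the group. -/
noncomputable def invariants (W : Subgroup (Matrix.GeneralLinearGroup (Fin n) k)) :
    Subalgebra k (MvPolynomial (Fin n) k) where
  carrier := {p | ∀ w ∈ W, subst (w : Matrix (Fin n) (Fin n) k) p = p}
  mul_mem' := fun hp hq w hw => by rw [map_mul, hp w hw, hq w hw]
  add_mem' := fun hp hq w hw => by rw [map_add, hp w hw, hq w hw]
  algebraMap_mem' := fun c w _ => AlgHom.commutes _ c

lemma mem_invariants {W : Subgroup (Matrix.GeneralLinearGroup (Fin n) k)}
    {p : MvPolynomial (Fin n) k} :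
    p ∈ invariants W ↔ ∀ w ∈ W, subst (w : Matrix (Fin n) (Fin n) k) p = p := Iff.rfl

/-- The cohomological grading of the ring of invariants. -/
noncomputable def invGr (W : Subgroup (Matrix.GeneralLinearGroup (Fin n) k)) (i : ℤ) :
    AddSubgroup (invariants W) :=
  (polyGr (Fin n) k i).comap (invariants W).val.toAddMonoidHom

lemma mem_invGr {W : Subgroup (Matrix.GeneralLinearGroup (Fin n) k)} {i : ℤ}
    {p : invariants W} : p ∈ invGr W i ↔ (p : MvPolynomial (Fin n) k) ∈ polyGr (Fin n) k i :=
  Iff.rfl

lemma polyGr_ring (σ : Type) (k : Type u) [Field k] :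
    GrRing (MvPolynomial σ k) (polyGr σ k) where
  internal := polyGr_internal σ k
  one_mem := one_mem'
  mul_mem := polyGr_mul
  even := fun {i p} hp hp0 => by
    obtain ⟨m, hm⟩ := exists_coeff_ne_zero hp0
    rw [← hp m hm]
    exact even_two_mul _

lemma invGr_ring (W : Subgroup (Matrix.GeneralLinearGroup (Fin n) k)) :
    GrRing (invariants W) (invGr W) where
  internal := by
    classical
    have hinv : ∀ (i : ℤ) (p : invariants W),
        gproj (polyGr_internal (Fin n) k) i (p : MvPolynomial (Fin n) k) ∈ invariants W := by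
      intro i p w hw
      rw [subst_gproj, p.2 w hw]
    refine isInternal_of_proj _ (fun i => AddMonoidHom.mk'
      (fun p : invariants W => (⟨_, hinv i p⟩ : invariants W))
        fun x y => Subtype.ext (map_add _ _ _))
      (fun i x hx => Subtype.ext (gproj_of_mem _ hx))
      (fun i j x hij hx => Subtype.ext (gproj_of_mem_ne _ hij hx)) (fun x => ?_)
    obtain ⟨s, -, hs⟩ := gproj_sum (polyGr_internal (Fin n) k) (x : MvPolynomial (Fin n) k)
    have h1 : x = ∑ i ∈ s, (⟨_, hinv i x⟩ : invariants W) := by
      apply Subtype.ext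
      rw [AddSubmonoidClass.coe_finsetSum]
      exact (hs s subset_rfl).symm
    rw [h1]
    refine AddSubgroup.sum_mem _ fun i _ => AddSubgroup.mem_iSup_of_mem i ?_
    rw [mem_invGr]
    exact gproj_mem _ _ _
  one_mem := one_mem'
  mul_mem := fun hp hq => polyGr_mul hp hq
  even := fun {i p} hp hp0 => (polyGr_ring (Fin n) k).even hp fun h => hp0 (Subtype.ext h)

section Finite

variable (W : Subgroup (Matrix.GeneralLinearGroup (Fin n) k)) [Finite W]

/-- The polynomial ring is integral over the ring of invariants. -/
lemma isIntegral_invariants :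
    Algebra.IsIntegral (invariants W) (MvPolynomial (Fin n) k) := by
  classical
  constructor
  intro b
  have : Fintype W := Fintype.ofFinite W
  let P : Polynomial (MvPolynomial (Fin n) k) :=
    ∏ g : W, (Polynomial.X - Polynomial.C (subst (g.1 : Matrix (Fin n) (Fin n) k) b))
  have hP : P.Monic := Polynomial.monic_prod_of_monic _ _ fun g _ => Polynomial.monic_X_sub_C _
  have hmap : ∀ h : W, P.map (subst (h.1 : Matrix (Fin n) (Fin n) k)).toRingHom = P := by
    intro h
    simp only [P, Polynomial.map_prod, Polynomial.map_sub, Polynomial.map_X, Polynomial.map_C]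
    refine Fintype.prod_equiv (Equiv.mulRight h) _ _ fun g => ?_
    have h1 : (subst (h.1 : Matrix (Fin n) (Fin n) k)).toRingHom
        (subst (g.1 : Matrix (Fin n) (Fin n) k) b) =
        subst (((Equiv.mulRight h) g).1 : Matrix (Fin n) (Fin n) k) b := subst_subst _ _ _
    rw [h1]
  have hcoeff : ∀ i, P.coeff i ∈ invariants W := by
    intro i
    rw [mem_invariants]
    intro g hg
    have := congrArg (fun p => Polynomial.coeff p i) (hmap ⟨g, hg⟩)
    rw [Polynomial.coeff_map] at this
    exact this
  have hsub : ((P.coeffs : Set (MvPolynomial (Fin n) k))) ⊆ (invariants W).toSubring := by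
    intro c hc
    obtain ⟨i, -, rfl⟩ := Polynomial.mem_coeffs_iff.1 hc
    exact hcoeff i
  refine ⟨P.toSubring _ hsub, (Polynomial.monic_toSubring _ _ hsub).2 hP, ?_⟩
  have h1 : Polynomial.eval₂ (invariants W).toSubring.subtype b (P.toSubring _ hsub) =
      Polynomial.eval b P := by
    rw [Polynomial.eval₂_eq_eval_map, Polynomial.map_toSubring]
  change Polynomial.eval₂ (invariants W).toSubring.subtype b _ = 0
  rw [h1, Polynomial.eval_prod]
  apply Finset.prod_eq_zero (Finset.mem_univ (1 : W))
  simp only [Polynomial.eval_sub, Polynomial.eval_X, Polynomial.eval_C, sub_eq_zero]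
  exact (subst_one b).symm

lemma finite_invariants : Module.Finite (invariants W) (MvPolynomial (Fin n) k) := by
  have h1 := isIntegral_invariants W
  have h2 : Algebra.FiniteType (invariants W) (MvPolynomial (Fin n) k) :=
    Algebra.FiniteType.of_restrictScalars_finiteType k _ _
  exact Algebra.IsIntegral.finite

lemma finiteType_invariants : Algebra.FiniteType k (invariants W) := by
  have h3 := finite_invariants W
  refine ⟨fg_of_fg_of_fg k (invariants W) (MvPolynomial (Fin n) k) ?_ h3.1 ?_⟩
  · exact (inferInstance : Algebra.FiniteType k (MvPolynomial (Fin n) k)).1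
  · exact Subtype.val_injective

lemma noetherian_invariants : IsNoetherianRing (invariants W) := by
  have := finiteType_invariants W
  exact Algebra.FiniteType.isNoetherianRing k _

/-- The trace of a polynomial. -/
noncomputable def trInv (p : MvPolynomial (Fin n) k) : invariants W :=
  ⟨∑ᶠ w : W, subst (w.1 : Matrix (Fin n) (Fin n) k) p, fun g hg => by
    classical
    have : Fintype W := Fintype.ofFinite W
    rw [finsum_eq_sum_of_fintype, map_sum]
    refine Fintype.sum_equiv (Equiv.mulRight (⟨g, hg⟩ : W)) _ _ fun w => ?_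
    exact subst_subst _ _ _⟩

lemma trInv_coe [Fintype W] (p : MvPolynomial (Fin n) k) :
    (trInv W p : MvPolynomial (Fin n) k) =
      ∑ w : W, subst (w.1 : Matrix (Fin n) (Fin n) k) p := finsum_eq_sum_of_fintype _

/-- The trace as a linear map over the invariants. -/
noncomputable def trL : MvPolynomial (Fin n) k →ₗ[invariants W] invariants W where
  toFun := trInv W
  map_add' p q := by
    have : Fintype W := Fintype.ofFinite W
    apply Subtype.ext
    rw [Subalgebra.coe_add, trInv_coe, trInv_coe, trInv_coe, ← Finset.sum_add_distrib]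
    exact Finset.sum_congr rfl fun w _ => map_add _ _ _
  map_smul' r p := by
    have : Fintype W := Fintype.ofFinite W
    apply Subtype.ext
    rw [RingHom.id_apply, smul_eq_mul, Subalgebra.coe_mul, trInv_coe, trInv_coe, Finset.mul_sum]
    refine Finset.sum_congr rfl fun w _ => ?_
    change subst _ ((r : MvPolynomial (Fin n) k) * p) = _
    rw [map_mul, r.2 w.1 w.2]

lemma trL_mem {i : ℤ} {p : MvPolynomial (Fin n) k} (hp : p ∈ polyGr (Fin n) k i) :
    trL W p ∈ invGr W i := by
  have : Fintype W := Fintype.ofFinite W
  rw [mem_invGr]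
  change (trInv W p : MvPolynomial (Fin n) k) ∈ _
  rw [trInv_coe]
  exact AddSubgroup.sum_mem _ fun w _ => subst_mem _ hp

lemma trL_inv (r : invariants W) :
    trL W (r : MvPolynomial (Fin n) k) = (Nat.card W : ℕ) • r := by
  have : Fintype W := Fintype.ofFinite W
  apply Subtype.ext
  change (trInv W (r : MvPolynomial (Fin n) k) : MvPolynomial (Fin n) k) = _
  rw [trInv_coe]
  have h1 : ∀ w : W, subst (w.1 : Matrix (Fin n) (Fin n) k) (r : MvPolynomial (Fin n) k) =
      (r : MvPolynomial (Fin n) k) := fun w => r.2 w.1 w.2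
  simp only [h1, Finset.sum_const, Finset.card_univ, Nat.card_eq_fintype_card]
  rfl

/-- The Reynolds operator. -/
noncomputable def reyn : MvPolynomial (Fin n) k →ₗ[invariants W] invariants W where
  toFun p := algebraMap k (invariants W) (Nat.card W : k)⁻¹ * trL W p
  map_add' p q := by rw [map_add, mul_add]
  map_smul' r p := by
    rw [map_smul, smul_eq_mul, RingHom.id_apply, smul_eq_mul]
    ring

lemma reyn_apply (p : MvPolynomial (Fin n) k) :
    reyn W p = algebraMap k (invariants W) (Nat.card W : k)⁻¹ * trL W p := rfl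

lemma reyn_inv (hW : (Nat.card W : k) ≠ 0) (r : invariants W) :
    reyn W (r : MvPolynomial (Fin n) k) = r := by
  rw [reyn_apply, trL_inv, nsmul_eq_mul, ← mul_assoc]
  have : (Nat.card W : invariants W) = algebraMap k (invariants W) (Nat.card W : k) := by
    rw [map_natCast]
  rw [this, ← map_mul, inv_mul_cancel₀ hW, map_one, one_mul]

lemma algebraMap_mem_zero (c : k) : algebraMap k (invariants W) c ∈ invGr W 0 := C_mem c

lemma reyn_mem {i : ℤ} {p : MvPolynomial (Fin n) k} (hp : p ∈ polyGr (Fin n) k i) :
    reyn W p ∈ invGr W i := by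
  have := (invGr_ring W).mul_mem (algebraMap_mem_zero W (Nat.card W : k)⁻¹) (trL_mem W hp)
  rwa [zero_add] at this

end Finite

end Run7.h892
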