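import Pool.Agent.Run7.h892.Free

/-! The locus where the polynomial ring is free over the invariants. -/

universe u

namespace Run7.h892

open MvPolynomial DirectSum

section Factors

variable {R S : Type u} [CommRing R] [CommRing S] [Algebra R S]

lemma Factors.mk' {f : R} {ι : Type} [Fintype ι] (a : ι → S →ₗ[R] R) (x : ι → S)
    (h : ∀ s : S, f • s = ∑ j, a j s • x j) : Factors R S f := by
  let e := (Fintype.equivFin ι).symm
  refine ⟨Fintype.card ι, a ∘ e, x ∘ e, fun s => ?_⟩
  rw [h s]
  exact (Equiv.sum_comp e fun j => a j s • x j).symm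

/-- The ideal of the elements which act on `S` through a finite free module. -/
def factIdeal (R S : Type u) [CommRing R] [CommRing S] [Algebra R S] : Ideal R where
  carrier := {f | Factors R S f}
  zero_mem' := ⟨0, fun j => j.elim0, fun j => j.elim0, fun s => by simp⟩
  add_mem' := by
    rintro f g ⟨a, x, y, h1⟩ ⟨b, z, w, h2⟩
    refine Factors.mk' (ι := Fin a ⊕ Fin b) (Sum.elim x z) (Sum.elim y w) fun s => ?_
    rw [Fintype.sum_sum_type]
    simp only [Sum.elim_inl, Sum.elim_inr]
    rw [← h1, ← h2, add_smul]
  smul_mem' := by
    rintro r f ⟨a, x, y, h1⟩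
    refine ⟨a, fun j => r • x j, y, fun s => ?_⟩
    rw [smul_eq_mul, mul_smul, h1, Finset.smul_sum]
    refine Finset.sum_congr rfl fun j _ => ?_
    rw [LinearMap.smul_apply, smul_assoc]

lemma exists_factors_of_free [IsNoetherianRing R] [Module.Finite R S] (p : Ideal R) [p.IsPrime]
    [Module.Free (Localization.AtPrime p) (LocalizedModule p.primeCompl S)] :
    ∃ f, f ∉ p ∧ Factors R S f := by
  classical
  have hfp : Module.FinitePresentation R S := Module.finitePresentation_of_finite R S
  let g := LocalizedModule.mkLinearMap p.primeCompl S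
  let Rp := Localization.AtPrime p
  have hfin : Module.Finite Rp (LocalizedModule p.primeCompl S) :=
    Module.Finite.of_isLocalizedModule p.primeCompl g
  let ι := Module.Free.ChooseBasisIndex Rp (LocalizedModule p.primeCompl S)
  let b : Module.Basis ι Rp (LocalizedModule p.primeCompl S) := Module.Free.chooseBasis _ _
  have : Fintype ι := inferInstance
  choose xu hxu using fun j => IsLocalizedModule.surj p.primeCompl g (b j)
  -- lift the coordinate functionals
  have hl : ∀ j, ∃ (h : S →ₗ[R] R) (s : p.primeCompl),
      (Algebra.linearMap R Rp) ∘ₗ h = s • (((b.coord j).restrictScalars R) ∘ₗ g) := fun j =>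
    Module.FinitePresentation.exists_lift_of_isLocalizedModule p.primeCompl
      (Algebra.linearMap R Rp) (((b.coord j).restrictScalars R) ∘ₗ g)
  choose a t hat using hl
  let T : p.primeCompl := ∏ j, t j * (xu j).2
  let c : ι → p.primeCompl := fun j => ∏ i ∈ Finset.univ.erase j, t i * (xu i).2
  have hc : ∀ j, c j * (t j * (xu j).2) = T := fun j =>
    Finset.prod_erase_mul Finset.univ (fun i => t i * (xu i).2) (Finset.mem_univ j)
  let A : S →ₗ[R] S := ∑ j, ((c j : R) • a j).smulRight (xu j).1
  have key : g ∘ₗ A = g ∘ₗ ((T : R) • LinearMap.id) := by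
    ext s
    simp only [LinearMap.comp_apply, A, LinearMap.sum_apply, LinearMap.smulRight_apply,
      LinearMap.smul_apply, LinearMap.id_apply, map_sum, map_smul]
    have h1 : ∀ j, algebraMap R Rp (a j s) = (t j : R) • (b.coord j (g s)) := fun j =>
      LinearMap.congr_fun (hat j) s
    have h2 : ∀ j, g (xu j).1 = ((xu j).2 : R) • b j := fun j => (hxu j).symm
    have h3 : ∀ j, ((c j : R) • a j s) • g (xu j).1 =
        (T : R) • ((b.coord j (g s)) • b j) := by
      intro j
      rw [smul_assoc, h2, ← algebraMap_smul Rp (a j s), h1, ← hc j]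
      rw [smul_comm ((t j : R) • b.coord j (g s)) ((xu j).2 : R) (b j)]
      simp only [smul_assoc, Submonoid.coe_mul, mul_smul]
      rw [smul_comm ((xu j).2 : R) (t j : R)]
    rw [Finset.sum_congr rfl fun j _ => h3 j, ← Finset.smul_sum]
    congr 1
    exact b.sum_repr (g s)
  obtain ⟨s0, hs0⟩ := Module.Finite.exists_smul_of_comp_eq_of_isLocalizedModule p.primeCompl g
    _ _ key
  refine ⟨(s0 * T : p.primeCompl), (s0 * T).2, Factors.mk' (ι := Fin (Fintype.card ι))
    (fun j => ((s0 : R) * (c ((Fintype.equivFin ι).symm j) : R)) • a ((Fintype.equivFin ι).symm j))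
    (fun j => (xu ((Fintype.equivFin ι).symm j)).1) fun s => ?_⟩
  have h4 := LinearMap.congr_fun hs0 s
  have h5 : (s0 : R) • A s = (s0 : R) • ((T : R) • s) := h4
  rw [Submonoid.coe_mul, mul_smul, ← h5]
  have h6 := Equiv.sum_comp (Fintype.equivFin ι).symm
    (fun j => (((s0 : R) * (c j : R)) • a j) s • (xu j).1)
  refine Eq.trans ?_ h6.symm
  simp only [A, LinearMap.sum_apply, LinearMap.smulRight_apply, LinearMap.smul_apply,
    Finset.smul_sum, mul_smul, smul_assoc]

/-- `S` is free over `R` at every prime ideal of `R` other than `m`. -/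
def FreeOff (R S : Type u) [CommRing R] [CommRing S] [Algebra R S] (m : Ideal R) : Prop :=
  ∀ (p : Ideal R) [p.IsPrime], p ≠ m →
    Module.Free (Localization.AtPrime p) (LocalizedModule p.primeCompl S)

lemma exists_pow_factors [IsNoetherianRing R] [Module.Finite R S] (m : Ideal R)
    (h : FreeOff R S m) {f : R} (hf : f ∈ m) :
    ∃ N : ℕ, Factors R S (f ^ N) := by
  have h1 : f ∈ (factIdeal R S).radical := by
    rw [Ideal.radical_eq_sInf, Submodule.mem_sInf]
    rintro p ⟨hp, hpp⟩
    by_cases hpm : p = m
    · rw [hpm]
      exact hf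
    · exfalso
      have := h p hpm
      obtain ⟨g, hg, hgf⟩ := exists_factors_of_free (R := R) (S := S) p
      exact hg (hp hgf)
  obtain ⟨N, hN⟩ := h1
  exact ⟨N, hN⟩

end Factors

variable {k : Type u} [Field k] {n : ℕ}

/-- If the polynomial ring is free over the invariants at all primes other than the ideal of the
invariants without constant term, then the DG modules over the ring of invariants with finitely
generated cohomology are exactly the objects of the thick subcategory generated by the polynomial
ring. -/
theorem iso_generation (W : Subgroup (Matrix.GeneralLinearGroup (Fin n) k)) [Finite W]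
    (hW : (Nat.card W : k) ≠ 0)
    (hiso : FreeOff (invariants W) (MvPolynomial (Fin n) k) (RingHom.ker (aug W)))
    (M : DGMod (invariants W) (invGr W)) :
    Thick (fun N => N = polyMod W) M ↔ FG M := by
  have hft := finiteType_invariants W
  have hnoeth := noetherian_invariants W
  have hfin := finite_invariants W
  constructor
  · intro h
    refine FG.of_thick (fun N hN => ?_) h
    rw [hN]
    have h1 : IsNoetherian (invariants W) (MvPolynomial (Fin n) k) := inferInstance
    have h2 : IsNoetherian (invariants W) (polyMod W) := h1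
    exact FG.of_noetherian _
  · intro h
    have hS : Thick (fun N => N = polyMod W) (polyMod W) := .of rfl
    obtain ⟨r, g, hg, hgen⟩ := exists_generators W
    exact generation (hasGL_poly n k) (invGr_ring W) (polyGr_ring (Fin n) k) (fun h => h) hfin
      (reyn W) (reyn_inv W hW 1) (fun h => reyn_mem W h) (aug W) (fun h => aug_mem W h)
      (fun c => constantCoeff_C _ c) (fun h => inv_neg W h) (fun h => inv_zero W h)
      (algebraMap_mem_zero W) (field_mem W hS) (ring_mem W hW hS) g hg
      (fun j => (hgen j).1) (fun j => exists_pow_factors _ hiso (RingHom.mem_ker.2 (hgen j).2)) M h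

end Run7.h892
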