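import Pool.Agent.Run7.h892.TP

/-! The two-term resolution of a DG module over a polynomial ring and the ghost lemma over
polynomial rings. -/

universe u

namespace Run7.h892

open MvPolynomial

variable {n : ℕ} {k : Type u} [Field k]

section TPgr

variable {N : Type u} [AddCommGroup N] [Module (MvPolynomial (Fin n) k) N]

/-- The grading of `N[t]`, with `t` in degree `2`. -/
noncomputable def TPgr (i : Fin n) (gr : ℤ → AddSubgroup N) (j : ℤ) : AddSubgroup (TP k i N) where
  carrier := {v | ∀ a : ℕ, TP.coeffHom (k := k) i v a ∈ gr (j - 2 * a)}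
  zero_mem' := fun a => by
    rw [map_zero, Finsupp.zero_apply]
    exact AddSubgroup.zero_mem _
  add_mem' := fun {v w} hv hw a => by
    rw [map_add, Finsupp.add_apply]
    exact AddSubgroup.add_mem _ (hv a) (hw a)
  neg_mem' := fun {v} hv a => by
    rw [map_neg, Finsupp.neg_apply]
    exact AddSubgroup.neg_mem _ (hv a)

lemma mem_TPgr {i : Fin n} {gr : ℤ → AddSubgroup N} {j : ℤ} {v : TP k i N} :
    v ∈ TPgr i gr j ↔ ∀ a : ℕ, TP.coeffHom (k := k) i v a ∈ gr (j - 2 * a) := Iff.rfl

lemma single_mem_TPgr {i : Fin n} {gr : ℤ → AddSubgroup N} {j : ℤ} {a : ℕ} {x : N}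
    (hx : x ∈ gr (j - 2 * a)) : TP.single (k := k) i a x ∈ TPgr i gr j := by
  classical
  intro b
  rw [TP.coeffHom_single, Finsupp.single_apply]
  by_cases h : a = b
  · subst h
    rwa [if_pos rfl]
  · rw [if_neg h]
    exact AddSubgroup.zero_mem _

lemma TP_sum {i : Fin n} (v : TP k i N) :
    v = (TP.coeffHom (k := k) i v).sum fun a x => TP.single (k := k) i a x := by
  have h : TP.coeffHom (k := k) i v = TP.coeffHom (k := k) i
      ((TP.coeffHom (k := k) i v).sum fun a x => TP.single (k := k) i a x) := by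
    rw [map_finsuppSum]
    simp only [TP.coeffHom_single]
    exact (Finsupp.sum_single _).symm
  exact (TP.coeffHom (k := k) i).injective h

lemma TPgr_induction {i : Fin n} {gr : ℤ → AddSubgroup N} {j : ℤ} {p : TP k i N → Prop}
    (h0 : p 0) (hadd : ∀ v w, p v → p w → p (v + w))
    (hs : ∀ (a : ℕ) (x : N), x ∈ gr (j - 2 * a) → p (TP.single (k := k) i a x)) {v : TP k i N}
    (hv : v ∈ TPgr i gr j) : p v := by
  rw [TP_sum v, Finsupp.sum]
  exact Finset.sum_induction _ p hadd h0 fun a _ => hs a _ (hv a)

lemma coeff_lift {i : Fin n} {N' : Type u} [AddCommGroup N']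
    [Module (MvPolynomial (Fin n) k) N'] (φ : ℕ → N →+ N') (v : TP k i N) (b : ℕ) :
    TP.coeffHom (k := k) i (TP.lift (k := k) (i := i)
      (fun a => (TP.single (k := k) i a).comp (φ a)) v) b =
      φ b (TP.coeffHom (k := k) i v b) := by
  classical
  induction v using TP.induction with
  | h0 => simp
  | hadd v w hv hw => rw [map_add, map_add, Finsupp.add_apply, hv, hw, map_add,
      Finsupp.add_apply, map_add]
  | hs a x =>
    rw [TP.lift_single, AddMonoidHom.comp_apply, TP.coeffHom_single, TP.coeffHom_single,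
      Finsupp.single_apply, Finsupp.single_apply]
    by_cases h : a = b
    · subst h
      rw [if_pos rfl, if_pos rfl]
    · rw [if_neg h, if_neg h, map_zero]

lemma TPgr_internal (i : Fin n) {gr : ℤ → AddSubgroup N} (h : DirectSum.IsInternal gr) :
    DirectSum.IsInternal (TPgr (k := k) i gr) := by
  refine isInternal_of_proj _
    (fun j => TP.lift (k := k) (i := i) fun a => (TP.single (k := k) i a).comp
      (gproj h (j - 2 * a))) (fun j v hv => ?_) (fun j l v hjl hv => ?_) (fun v => ?_)
  · apply (TP.coeffHom (k := k) i).injective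
    ext b
    rw [coeff_lift]
    exact gproj_of_mem h (hv b)
  · apply (TP.coeffHom (k := k) i).injective
    ext b
    rw [coeff_lift, map_zero, Finsupp.zero_apply]
    exact gproj_of_mem_ne h (by omega) (hv b)
  · induction v using TP.induction with
    | h0 => exact AddSubgroup.zero_mem _
    | hadd v w hv hw => exact AddSubgroup.add_mem _ hv hw
    | hs a x =>
      induction x using gr_induction h with
      | h0 =>
        rw [map_zero]
        exact AddSubgroup.zero_mem _
      | hadd x y hx hy =>
        rw [map_add]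
        exact AddSubgroup.add_mem _ hx hy
      | hh l x hx =>
        refine AddSubgroup.mem_iSup_of_mem (l + 2 * a) (single_mem_TPgr ?_)
        rwa [add_sub_cancel_right]

end TPgr

/-- The DG module `N[t]`. -/
@[reducible] noncomputable def TPmod (i : Fin n)
    (N : DGMod (MvPolynomial (Fin n) k) (polyGr (Fin n) k)) :
    DGMod (MvPolynomial (Fin n) k) (polyGr (Fin n) k) where
  carrier := TP k i N
  gr := TPgr i N.gr
  internal := TPgr_internal i N.internal
  smul_mem := fun {j l p v} hp hv => by
    refine smul_mem_of_gens (TPgr (k := k) i N.gr) (fun c {j x} hx => ?_) (fun b {j x} hx => ?_)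
      hp hv
    · refine TPgr_induction (p := fun x => (C c : MvPolynomial (Fin n) k) • x ∈ TPgr i N.gr j)
        ?_ (fun v w hv hw => ?_) (fun a x hx => ?_) hx
      · rw [smul_zero]
        exact AddSubgroup.zero_mem _
      · rw [smul_add]
        exact AddSubgroup.add_mem _ hv hw
      · rw [TP.C_smul_single]
        refine single_mem_TPgr ?_
        have := N.smul_mem (C_mem c) hx
        rwa [zero_add] at this
    · refine TPgr_induction
        (p := fun x => (X b : MvPolynomial (Fin n) k) • x ∈ TPgr i N.gr (2 + j))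
        ?_ (fun v w hv hw => ?_) (fun a y hy => ?_) hx
      · rw [smul_zero]
        exact AddSubgroup.zero_mem _
      · rw [smul_add]
        exact AddSubgroup.add_mem _ hv hw
      · by_cases hb : b = i
        · rw [hb, TP.X_smul_single]
          refine single_mem_TPgr ?_
          have e : (2 + j - 2 * ((a + 1 : ℕ) : ℤ)) = j - 2 * a := by push_cast; ring
          rwa [e]
        · rw [TP.X_smul_single_ne i hb]
          refine single_mem_TPgr ?_
          have e : 2 + j - 2 * (a : ℤ) = 2 + (j - 2 * a) := by ring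
          rw [e]
          exact N.smul_mem (X_mem b) hy
  d := TP.mapL N.d
  d_mem := fun {j v} hv => by
    refine TPgr_induction (p := fun x => TP.mapL (k := k) (i := i) N.d x ∈ TPgr i N.gr (j + 1))
      ?_ (fun v w hv hw => ?_) (fun a x hx => ?_) hv
    · rw [map_zero]
      exact AddSubgroup.zero_mem _
    · rw [map_add]
      exact AddSubgroup.add_mem _ hv hw
    · rw [TP.mapL_single]
      refine single_mem_TPgr ?_
      convert N.d_mem hx using 2
      ring
  d_d v := by
    refine TP.eq_of_single (f := fun v => TP.mapL (k := k) (i := i) N.d (TP.mapL N.d v))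
      (g := fun v => 0) (fun v w => by simp) (fun v w => by simp) (fun a x => ?_) v
    rw [TP.mapL_single, TP.mapL_single, N.d_d, map_zero]

/-- The difference of the two actions of `X i` as a morphism of DG modules. -/
@[reducible] noncomputable def kapHom (i : Fin n)
    (N : DGMod (MvPolynomial (Fin n) k) (polyGr (Fin n) k)) :
    DGHom ((TPmod i N).shift (-2)) (TPmod i N) where
  lin := TP.kap i N
  comm x := by
    rw [shift_d_even _ (by decide)]
    exact TP.kap_mapL N.d x
  mem := fun {j x} hx => by
    refine TPgr_induction (gr := N.gr) (j := j + -2)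
      (p := fun x => TP.kap (k := k) i N x ∈ TPgr i N.gr j)
      ?_ (fun v w hv hw => ?_) (fun a x hx => ?_) hx
    · rw [map_zero]
      exact AddSubgroup.zero_mem _
    · rw [map_add]
      exact AddSubgroup.add_mem _ hv hw
    · rw [TP.kap_single]
      refine AddSubgroup.sub_mem _ (single_mem_TPgr ?_) (single_mem_TPgr ?_)
      · convert hx using 2
        push_cast
        ring
      · have := N.smul_mem (X_mem i) hx
        convert this using 2
        ring

/-- The resolution `cone (N[t] → N[t])` of `N`. -/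
@[reducible] noncomputable def Kos (i : Fin n)
    (N : DGMod (MvPolynomial (Fin n) k) (polyGr (Fin n) k)) :
    DGMod (MvPolynomial (Fin n) k) (polyGr (Fin n) k) := cone (kapHom i N)

lemma Kos_d (i : Fin n) (N : DGMod (MvPolynomial (Fin n) k) (polyGr (Fin n) k))
    (v w : TP k i N) :
    (Kos i N).d (v, w) = (TP.mapL N.d v + TP.kap i N w, -TP.mapL N.d w) := by
  refine (cone_d (kapHom i N) v w).trans ?_
  rw [shift_d_even _ (by decide)]

/-- The augmentation of the resolution. -/
@[reducible] noncomputable def kosHom (i : Fin n)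
    (N : DGMod (MvPolynomial (Fin n) k) (polyGr (Fin n) k)) : DGHom (Kos i N) N where
  lin := TP.eps i N ∘ₗ LinearMap.fst _ _ _
  comm x := by
    obtain ⟨v, w⟩ := x
    rw [Kos_d]
    change TP.eps i N (TP.mapL N.d v + TP.kap i N w) = N.d (TP.eps i N v)
    rw [map_add, TP.eps_kap, add_zero, TP.eps_mapL]
  mem := fun {j x} hx => by
    have h1 : x.1 ∈ TPgr (k := k) i N.gr j := (AddSubgroup.mem_prod.1 hx).1
    change TP.eps i N x.1 ∈ N.gr j
    refine TPgr_induction (gr := N.gr) (j := j)
      (p := fun x => TP.eps (k := k) i N x ∈ N.gr j)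
      ?_ (fun v w hv hw => ?_) (fun a x hx => ?_) h1
    · rw [map_zero]
      exact AddSubgroup.zero_mem _
    · rw [map_add]
      exact AddSubgroup.add_mem _ hv hw
    · rw [TP.eps_single]
      have h2 : (X i : MvPolynomial (Fin n) k) ^ a ∈ polyGr (Fin n) k (2 * a) := by
        clear hx
        induction a with
        | zero => simpa using one_mem'
        | succ a ih =>
          rw [pow_succ]
          have := polyGr_mul ih (X_mem i)
          convert this using 2
          push_cast
          ring
      have := N.smul_mem h2 hx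
      convert this using 2
      ring

lemma kosHom_isQis (i : Fin n) (N : DGMod (MvPolynomial (Fin n) k) (polyGr (Fin n) k)) :
    (kosHom i N).IsQis := by
  refine ⟨?_, fun z hz => ?_⟩
  · rintro ⟨v, w⟩ hx ⟨m, hm⟩
    rw [Kos_d] at hx
    have hx1 : TP.mapL N.d v + TP.kap i N w = 0 := congrArg Prod.fst hx
    have hx2 : -TP.mapL (k := k) (i := i) N.d w = 0 := congrArg Prod.snd hx
    have hm' : TP.eps i N v = N.d m := hm
    refine ⟨(TP.single i 0 m, TP.ctr i N v), ?_⟩
    rw [Kos_d]
    refine Prod.ext ?_ ?_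
    · change v = _ + _
      rw [TP.mapL_single, TP.kap_ctr, hm']
      abel
    · change w = -_
      rw [← TP.ctr_mapL, ← map_neg]
      have h3 : -TP.mapL (k := k) (i := i) N.d v = TP.kap i N w := by
        rw [neg_eq_iff_add_eq_zero]
        exact hx1
      rw [h3, TP.ctr_kap]
  · refine ⟨(TP.single i 0 z, 0), ?_, 0, ?_⟩
    · rw [Kos_d, TP.mapL_single, hz]
      simp
    · change z = TP.eps i N (TP.single i 0 z) + N.d 0
      rw [TP.eps_single]
      simp

/-- Additive maps which commute with the constants and the variables `X j`, `j < i`. -/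
def Lin {N Z : Type*} [AddCommGroup N] [Module (MvPolynomial (Fin n) k) N] [AddCommGroup Z]
    [Module (MvPolynomial (Fin n) k) Z] (i : ℕ) (h : N →+ Z) : Prop :=
  (∀ (c : k) (x : N), h ((C c : MvPolynomial (Fin n) k) • x) =
    (C c : MvPolynomial (Fin n) k) • h x) ∧
  ∀ j : Fin n, (j : ℕ) < i → ∀ x : N, h ((X j : MvPolynomial (Fin n) k) • x) =
    (X j : MvPolynomial (Fin n) k) • h x

/-- The lifting property of the resolutions: composites of `2 ^ i` ghosts starting at a module
which receives a map from `N` linear in the first `i` variables become null-homotopic, linearly in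
the first `i` variables. -/
def PP (i : ℕ) (N : DMod (MvPolynomial (Fin n) k)) : Prop :=
  ∀ (Z Z' : DMod (MvPolynomial (Fin n) k)) (θ : Z →ₗ[MvPolynomial (Fin n) k] Z'),
    GC (2 ^ i) Z Z' θ → ∀ u : N →+ Z, Lin (k := k) (n := n) i u → (∀ x, u (N.d x) = Z.d (u x)) →
    ∃ h : N →+ Z', Lin (k := k) (n := n) i h ∧ ∀ x, θ (u x) = Z'.d (h x) + h (N.d x)

lemma PP_zero (N : DMod (MvPolynomial (Fin n) k)) : PP 0 N := by
  intro Z Z' θ hθ u hu hud
  rw [pow_zero] at hθ
  cases hθ with
  | @ghost _ _ Y _ f g hf hg hg' =>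
    let _ : Module k N := Module.compHom N (C : k →+* MvPolynomial (Fin n) k)
    let _ : Module k Z' := Module.compHom Z' (C : k →+* MvPolynomial (Fin n) k)
    have hd : ∀ x, g (f (u (N.d x))) = Z'.d (g (f (u x))) := fun x => by
      rw [hud, hf.comm, hg]
    let dN : N →ₗ[k] N := { N.d.toAddMonoidHom with map_smul' := fun c x => N.d.map_smul (C c) x }
    let dZ : Z' →ₗ[k] Z' :=
      { Z'.d.toAddMonoidHom with map_smul' := fun c x => Z'.d.map_smul (C c) x }
    let φ : N →ₗ[k] Z' :=
      { toFun := fun x => g (f (u x))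
        map_add' := fun x y => by rw [map_add, map_add, map_add]
        map_smul' := fun c x => by
          change g (f (u ((C c : MvPolynomial (Fin n) k) • x))) =
            (C c : MvPolynomial (Fin n) k) • g (f (u x))
          rw [hu.1, f.map_smul, g.map_smul] }
    obtain ⟨h, hh⟩ := field_homotopy dN dZ N.d_d φ hd (fun x hx => by
      have hx' : N.d x = 0 := hx
      have h1 : Y.d (f (u x)) = 0 := by rw [← hf.comm, ← hud, hx', map_zero, map_zero]
      exact hg' _ h1)
    refine ⟨h.toAddMonoidHom, ⟨fun c x => h.map_smul c x, fun j hj => absurd hj (by omega)⟩, hh⟩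

lemma PP_succ {i : ℕ} (I : Fin n) (hI : (I : ℕ) = i)
    (N : DGMod (MvPolynomial (Fin n) k) (polyGr (Fin n) k))
    (hN : PP i N.toD) : PP (i + 1) (Kos I N).toD := by
  intro Z Z'' θ hθ u hu hud
  rw [pow_succ, mul_two] at hθ
  obtain ⟨Z', θ1, θ2, hθ1, hθ2, rfl⟩ := hθ.split
  -- the restriction of `u` to `N`
  let v : N →+ Z := (u.comp (AddMonoidHom.inl (TP k I N) (TP k I N))).comp (TP.single I 0)
  have hv : ∀ x, v x = u (TP.single I 0 x, 0) := fun x => rfl
  have hCp : ∀ (c : k) (a b : TP k I N), (C c : MvPolynomial (Fin n) k) •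
      ((a, b) : (Kos I N).toD) = ((C c : MvPolynomial (Fin n) k) • a,
        (C c : MvPolynomial (Fin n) k) • b) := fun _ _ _ => rfl
  have hXp : ∀ (c : Fin n) (a b : TP k I N), (X c : MvPolynomial (Fin n) k) •
      ((a, b) : (Kos I N).toD) = ((X c : MvPolynomial (Fin n) k) • a,
        (X c : MvPolynomial (Fin n) k) • b) := fun _ _ _ => rfl
  have hne : ∀ j : Fin n, (j : ℕ) < i → j ≠ I := fun j hj h => by
    rw [h, hI] at hj
    exact absurd hj (lt_irrefl _)
  have hvL : Lin (k := k) (n := n) i v := by
    refine ⟨fun c x => ?_, fun j hj x => ?_⟩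
    · rw [hv, hv, ← hu.1, hCp, TP.C_smul_single, smul_zero]
    · rw [hv, hv, ← hu.2 j (by omega), hXp, TP.X_smul_single_ne I (hne j hj), smul_zero]
  have hvd : ∀ x, v (N.toD.d x) = Z.d (v x) := by
    intro x
    rw [hv, hv, ← hud]
    congr 1
    refine Eq.trans ?_ (Kos_d I N _ _).symm
    rw [TP.mapL_single]
    simp
  obtain ⟨h, hhL, hh⟩ := hN Z Z' θ1 hθ1 v hvL hvd
  -- the extension of a map from `N` to `N[t]`
  have ext_lin : ∀ (Y : DMod (MvPolynomial (Fin n) k)) (g : N →+ Y), Lin (k := k) (n := n) i g →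
      ∃ G : TP k I N →+ Y, (∀ a x, G (TP.single I a x) =
        (X I : MvPolynomial (Fin n) k) ^ a • g x) ∧
        (∀ (c : k) (w : TP k I N), G ((C c : MvPolynomial (Fin n) k) • w) =
          (C c : MvPolynomial (Fin n) k) • G w) ∧
        ∀ j : Fin n, (j : ℕ) < i + 1 → ∀ w : TP k I N, G ((X j : MvPolynomial (Fin n) k) • w) =
          (X j : MvPolynomial (Fin n) k) • G w := by
    intro Y g hg
    refine ⟨TP.lift fun a => (DistribSMul.toAddMonoidHom Y
      ((X I : MvPolynomial (Fin n) k) ^ a)).comp g, fun a x => TP.lift_single _ a x,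
      fun c w => ?_, fun j hj w => ?_⟩
    · induction w using TP.induction with
      | h0 => simp
      | hadd v w hv hw => rw [smul_add, map_add, map_add, hv, hw, smul_add]
      | hs a x =>
        rw [TP.C_smul_single, TP.lift_single, TP.lift_single]
        change (X I : MvPolynomial (Fin n) k) ^ a • g _ = _ • (X I : MvPolynomial (Fin n) k) ^ a • g _
        rw [hg.1, smul_smul, smul_smul, mul_comm]
    · induction w using TP.induction with
      | h0 => simp
      | hadd v w hv hw => rw [smul_add, map_add, map_add, hv, hw, smul_add]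
      | hs a x =>
        by_cases hjI : j = I
        · rw [hjI, TP.X_smul_single, TP.lift_single, TP.lift_single]
          change (X I : MvPolynomial (Fin n) k) ^ (a + 1) • g _ =
            _ • (X I : MvPolynomial (Fin n) k) ^ a • g _
          rw [smul_smul, pow_succ']
        · rw [TP.X_smul_single_ne I hjI, TP.lift_single, TP.lift_single]
          change (X I : MvPolynomial (Fin n) k) ^ a • g _ =
            _ • (X I : MvPolynomial (Fin n) k) ^ a • g _
          have hj' : (j : ℕ) < i := by
            rcases Nat.lt_succ_iff_lt_or_eq.1 hj with h | h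
            · exact h
            · exact absurd (Fin.ext (h.trans hI.symm)) hjI
          rw [hg.2 j hj', smul_smul, smul_smul, mul_comm]
  obtain ⟨H, hH, hHC, hHX⟩ := ext_lin Z' h hhL
  -- the homotopy on the first summand
  have key1 : ∀ a : TP k I N, θ1 (u (a, 0)) = Z'.d (H a) + H (TP.mapL N.d a) := by
    intro a
    refine TP.eq_of_single (f := fun a => θ1 (u (a, 0)))
      (g := fun a => Z'.d (H a) + H (TP.mapL N.d a)) (fun a b => ?_) (fun a b => ?_)
      (fun a x => ?_) a
    · have : ((a + b, 0) : (Kos I N).toD) = ((a, 0) : (Kos I N).toD) + (b, 0) := by simp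
      rw [this, map_add, map_add]
    · simp only [map_add]
      abel
    · have e1 : ((TP.single I a x, 0) : (Kos I N).toD) =
          (X I : MvPolynomial (Fin n) k) ^ a • ((TP.single I 0 x, 0) : (Kos I N).toD) := by
        have : ∀ a : ℕ, (X I : MvPolynomial (Fin n) k) ^ a • TP.single (k := k) I 0 x =
            TP.single I a x := by
          intro a
          induction a with
          | zero => simp
          | succ a ih => rw [pow_succ', mul_smul, ih, TP.X_smul_single]
        rw [← this a]
        refine Prod.ext rfl ?_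
        change (0 : TP k I N) = _ • (0 : TP k I N)
        rw [smul_zero]
      have e2 : ∀ (a : ℕ) (y : (Kos I N).toD), u ((X I : MvPolynomial (Fin n) k) ^ a • y) =
          (X I : MvPolynomial (Fin n) k) ^ a • u y := by
        intro a y
        induction a with
        | zero => simp
        | succ a ih => rw [pow_succ', mul_smul, mul_smul, hu.2 I (by omega), ih]
      rw [e1, e2, map_smul, ← hv, hh, hH, TP.mapL_single, hH, smul_add, map_smul]
  -- the remaining map on the second summand
  let w : TP k I N →+ Z' := (θ1.toAddMonoidHom.comp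
    (u.comp (AddMonoidHom.inr (TP k I N) (TP k I N)))) - H.comp (TP.kap I N).toAddMonoidHom
  have hw : ∀ b, w b = θ1 (u (0, b)) - H (TP.kap I N b) := fun b => rfl
  have hwC : ∀ (c : k) (b : TP k I N), w ((C c : MvPolynomial (Fin n) k) • b) =
      (C c : MvPolynomial (Fin n) k) • w b := by
    intro c b
    rw [hw, hw, (TP.kap I N).map_smul, hHC, smul_sub, ← θ1.map_smul, ← hu.1, hCp, smul_zero]
  have hwX : ∀ j : Fin n, (j : ℕ) < i + 1 → ∀ b : TP k I N,
      w ((X j : MvPolynomial (Fin n) k) • b) = (X j : MvPolynomial (Fin n) k) • w b := by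
    intro j hj b
    rw [hw, hw, (TP.kap I N).map_smul, hHX j hj, smul_sub, ← θ1.map_smul, ← hu.2 j hj, hXp,
      smul_zero]
  have hwd : ∀ b, w (TP.mapL N.d b) = -Z'.d (w b) := by
    intro b
    have e1 : ((0, b) : (Kos I N).toD) ∈ (⊤ : Set (Kos I N).toD) := trivial
    have e2 : (Kos I N).toD.d (0, b) = (TP.kap I N b, -TP.mapL N.d b) := by
      refine (Kos_d I N _ _).trans ?_
      rw [map_zero, zero_add]
    have e3 := hud (0, b)
    rw [e2] at e3
    have e4 : ((TP.kap I N b, -TP.mapL N.d b) : (Kos I N).toD) =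
        ((TP.kap I N b, 0) : (Kos I N).toD) - ((0, TP.mapL N.d b) : (Kos I N).toD) := by
      refine Prod.ext ?_ ?_
      · change _ = _ - (0 : TP k I N)
        rw [sub_zero]
      · change _ = (0 : TP k I N) - _
        rw [zero_sub]
    rw [e4, map_sub] at e3
    have e5 := congrArg θ1 e3
    rw [map_sub, key1, hθ1.comm] at e5
    have e6 := TP.kap_mapL (i := I) N.d b
    rw [hw, hw, map_sub, ← e5, e6]
    abel
  -- apply the hypothesis once more
  let w0 : N →+ Z' := w.comp (TP.single I 0)
  have hw0L : Lin (k := k) (n := n) (N := N) (Z := Z'.neg) i w0 := by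
    refine ⟨fun c x => ?_, fun j hj x => ?_⟩
    · change w _ = _ • w _
      rw [← hwC, TP.C_smul_single]
    · change w _ = _ • w _
      rw [← hwX j (by omega), TP.X_smul_single_ne I (hne j hj)]
  obtain ⟨h2, hh2L, hh2⟩ := hN Z'.neg Z''.neg θ2 hθ2.neg w0 hw0L (fun x => by
    change w (TP.single I 0 (N.d x)) = -Z'.d (w (TP.single I 0 x))
    rw [← hwd, TP.mapL_single])
  obtain ⟨H2, hH2, hH2C, hH2X⟩ := ext_lin Z'' h2 hh2L
  have key2 : ∀ b : TP k I N, θ2 (w b) = -Z''.d (H2 b) + H2 (TP.mapL N.d b) := by
    intro b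
    refine TP.eq_of_single (f := fun b => θ2 (w b))
      (g := fun b => -Z''.d (H2 b) + H2 (TP.mapL N.d b)) (fun a b => ?_) (fun a b => ?_)
      (fun a x => ?_) b
    · rw [map_add, map_add]
    · simp only [map_add]
      abel
    · have e1 : ∀ a : ℕ, TP.single (k := k) I a x =
          (X I : MvPolynomial (Fin n) k) ^ a • TP.single I 0 x := by
        intro a
        induction a with
        | zero => simp
        | succ a ih => rw [pow_succ', mul_smul, ← ih, TP.X_smul_single]
      have e2 : ∀ (a : ℕ) (y : TP k I N), w ((X I : MvPolynomial (Fin n) k) ^ a • y) =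
          (X I : MvPolynomial (Fin n) k) ^ a • w y := by
        intro a y
        induction a with
        | zero => simp
        | succ a ih => rw [pow_succ', mul_smul, mul_smul, hwX I (by omega), ih]
      have e3 : θ2 (w (TP.single I 0 x)) = -Z''.d (h2 x) + h2 (N.d x) := hh2 x
      rw [e1, e2, map_smul, e3, ← e1, hH2, TP.mapL_single, hH2, smul_add, map_smul, smul_neg]
  -- assemble
  let K : (Kos I N).toD →+ Z'' :=
    (θ2.toAddMonoidHom.comp H).comp (AddMonoidHom.fst (TP k I N) (TP k I N)) -
      H2.comp (AddMonoidHom.snd (TP k I N) (TP k I N))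
  have hK : ∀ a b, K (a, b) = θ2 (H a) - H2 b := fun a b => rfl
  refine ⟨K, ⟨?_, ?_⟩, ?_⟩
  · rintro c ⟨a, b⟩
    rw [hCp, hK, hK, hHC, hH2C, map_smul, smul_sub]
  · rintro j hj ⟨a, b⟩
    rw [hXp, hK, hK, hHX j hj, hH2X j hj, map_smul, smul_sub]
  · rintro ⟨a, b⟩
    have e1 : ((a, b) : (Kos I N).toD) = ((a, 0) : (Kos I N).toD) + ((0, b) : (Kos I N).toD) := by
      refine Prod.ext ?_ ?_
      · change a = a + (0 : TP k I N)
        rw [add_zero]
      · change b = (0 : TP k I N) + b
        rw [zero_add]
    have e2 : (Kos I N).toD.d (a, b) = (TP.mapL N.d a + TP.kap I N b, -TP.mapL N.d b) :=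
      Kos_d I N a b
    have e3 : θ1 (u (0, b)) = w b + H (TP.kap I N b) := by
      rw [hw]
      abel
    rw [e2, hK, hK, LinearMap.comp_apply, e1, map_add, map_add, key1, e3]
    simp only [map_add, map_sub, map_neg]
    rw [key2, hθ2.comm]
    abel

/-- The ghost lemma over a polynomial ring in `n` variables: every DG module `Y` has a
resolution on which every composite of `2 ^ n` ghosts becomes null-homotopic. -/
theorem ghost_lemma (Y : DGMod (MvPolynomial (Fin n) k) (polyGr (Fin n) k)) :
    ∃ (N : DGMod (MvPolynomial (Fin n) k) (polyGr (Fin n) k)) (q : DGHom N Y), q.IsQis ∧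
      ∀ (Z Z' : DMod (MvPolynomial (Fin n) k)) (θ : Z →ₗ[MvPolynomial (Fin n) k] Z'),
        GC (2 ^ n) Z Z' θ → ∀ u : N →ₗ[MvPolynomial (Fin n) k] Z, (∀ x, u (N.d x) = Z.d (u x)) →
        ∃ h : N →ₗ[MvPolynomial (Fin n) k] Z', ∀ x, θ (u x) = Z'.d (h x) + h (N.d x) := by
  have key : ∀ i : ℕ, i ≤ n → ∃ (N : DGMod (MvPolynomial (Fin n) k) (polyGr (Fin n) k))
      (q : DGHom N Y), q.IsQis ∧ PP i N.toD := by
    intro i
    induction i with
    | zero => exact fun _ => ⟨Y, DGHom.id Y, DGHom.id_isQis Y, PP_zero _⟩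
    | succ i ih =>
      intro hi
      obtain ⟨N, q, hq, hN⟩ := ih (by omega)
      exact ⟨Kos ⟨i, hi⟩ N, q.comp (kosHom _ N), hq.comp (kosHom_isQis _ N), PP_succ ⟨i, hi⟩ rfl N hN⟩
  obtain ⟨N, q, hq, hN⟩ := key n le_rfl
  refine ⟨N, q, hq, fun Z Z' θ hθ u hu => ?_⟩
  obtain ⟨h, hhL, hh⟩ := hN Z Z' θ hθ u.toAddMonoidHom
    ⟨fun c x => u.map_smul _ x, fun j _ x => u.map_smul _ x⟩ hu
  exact ⟨linOfGens h hhL.1 fun j x => hhL.2 j j.2 x, hh⟩

end Run7.h892
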