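import Pool.Agent.Run7.h892.Base

/-! The abstract generation theorem. -/

universe u

namespace Run7.h892

open DirectSum

variable {R : Type u} [CommRing R] {𝒜 : ℤ → AddSubgroup R}

/-- `g` acts nilpotently on the cohomology. -/
def Nil (g : R) (M : DGMod R 𝒜) : Prop :=
  ∃ N : ℕ, ∀ x, M.d x = 0 → ∃ y, g ^ N • x = M.d y

lemma Nil.shift {g : R} {M : DGMod R 𝒜} (h : Nil g M) {n : ℤ} (hn : Even n) :
    Nil g (M.shift n) := by
  obtain ⟨N, hN⟩ := h
  refine ⟨N, fun x hx => ?_⟩
  rw [shift_d_even _ hn] at hx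
  obtain ⟨y, hy⟩ := hN x hx
  exact ⟨y, by rw [shift_d_even _ hn]; exact hy⟩

lemma Nil.cone {g : R} {M N : DGMod R 𝒜} (f : DGHom M N) (hM : Nil g M) (hN : Nil g N) :
    Nil g (cone f) := by
  obtain ⟨a, ha⟩ := hM
  obtain ⟨b, hb⟩ := hN
  refine ⟨b + a, ?_⟩
  rintro ⟨y, x⟩ hx
  rw [cone_d] at hx
  have h1 : N.d y + f x = 0 := congrArg Prod.fst hx
  have h2 : -M.d x = 0 := congrArg Prod.snd hx
  obtain ⟨x', hx'⟩ := ha x (neg_eq_zero.1 h2)
  have h3 : N.d (g ^ a • y + f x') = 0 := by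
    rw [map_add, map_smul, ← f.comm, ← hx', map_smul, ← smul_add, h1, smul_zero]
  obtain ⟨w, hw⟩ := hb _ h3
  refine ⟨(w, -(g ^ b • x')), ?_⟩
  rw [cone_d]
  refine Prod.ext ?_ ?_
  · change g ^ (b + a) • y = N.d w + f (-(g ^ b • x'))
    rw [← hw, map_neg, map_smul, smul_add, pow_add, mul_smul]
    abel
  · change g ^ (b + a) • x = -M.d (-(g ^ b • x'))
    rw [map_neg, neg_neg, map_smul, ← hx', pow_add, mul_smul]

lemma nil_cone_mul {g : R} {a : ℕ} {e : ℤ} (he : Even e) {f : R} (hf : f ∈ 𝒜 e) (hfg : f = g ^ a)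
    (M : DGMod R 𝒜) : Nil g (cone (mulHom he hf M)) := by
  refine ⟨a, ?_⟩
  rintro ⟨y, x⟩ hx
  rw [cone_d] at hx
  have h1 : (M.shift e).d y + f • x = 0 := congrArg Prod.fst hx
  rw [shift_d_even _ he] at h1
  refine ⟨((0 : M), y), ?_⟩
  rw [cone_d]
  refine Prod.ext ?_ ?_
  · change g ^ a • y = (M.shift e).d 0 + f • y
    rw [map_zero, zero_add, hfg]
  · change g ^ a • x = -M.d y
    rw [← hfg, eq_neg_iff_add_eq_zero, add_comm]
    exact h1

variable {k : Type u} [Field k] [Algebra k R]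

lemma quot_finite {r : ℕ} (g : Fin r → R) (hg : Algebra.adjoin k (Set.range g) = ⊤)
    (J : Ideal R) (hJ : ∀ i, ∃ N : ℕ, g i ^ N ∈ J) : Module.Finite k (R ⧸ J) := by
  have h1 : Algebra.adjoin k (Set.range fun i => Ideal.Quotient.mkₐ k J (g i)) = ⊤ := by
    have h2 : (Set.range fun i => Ideal.Quotient.mkₐ k J (g i)) =
        (Ideal.Quotient.mkₐ k J) '' Set.range g := by
      rw [← Set.range_comp]
      rfl
    rw [h2, ← AlgHom.map_adjoin, hg, Algebra.map_top, AlgHom.range_eq_top]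
    exact Ideal.Quotient.mkₐ_surjective k J
  have h3 := fg_adjoin_of_finite (R := k)
    (s := Set.range fun i => Ideal.Quotient.mkₐ k J (g i)) (Set.finite_range _) (by
      rintro _ ⟨i, rfl⟩
      obtain ⟨N, hN⟩ := hJ i
      refine ⟨Polynomial.X ^ N, Polynomial.monic_X_pow N, ?_⟩
      rw [Polynomial.eval₂_pow, Polynomial.eval₂_X, ← map_pow]
      exact Ideal.Quotient.eq_zero_iff_mem.2 hN)
  rw [h1] at h3
  exact ⟨h3⟩

/-- If generators of the algebra act nilpotently on a finitely generated cohomology, then the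
cohomology is spanned over the field by finitely many homogeneous classes. -/
lemma exists_span (hA : GrRing R 𝒜) {r : ℕ} (g : Fin r → R)
    (hg : Algebra.adjoin k (Set.range g) = ⊤) (M : DGMod R 𝒜) (hM : FG M)
    (hnil : ∀ i, Nil (g i) M) :
    ∃ (m : ℕ) (z : Fin m → M), (∀ j, M.d (z j) = 0) ∧ (∀ j, ∃ i, z j ∈ M.gr i) ∧
      ∀ x, M.d x = 0 → ∃ (c : Fin m → k) (y : M),
        x = ∑ j, algebraMap k R (c j) • z j + M.d y := by
  classical
  let _ : Module k M := Module.compHom M (algebraMap k R)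
  obtain ⟨m, z, hz, hgen⟩ := (FG.iff M).1 hM
  -- the elements which kill the cohomology
  let J : Ideal R :=
    { carrier := {s | ∀ x, M.d x = 0 → ∃ y, s • x = M.d y}
      zero_mem' := fun x _ => ⟨0, by rw [zero_smul, map_zero]⟩
      add_mem' := fun {s t} hs ht x hx => by
        obtain ⟨y, hy⟩ := hs x hx
        obtain ⟨w, hw⟩ := ht x hx
        exact ⟨y + w, by rw [add_smul, hy, hw, map_add]⟩
      smul_mem' := fun s t ht x hx => by
        obtain ⟨w, hw⟩ := ht x hx
        exact ⟨s • w, by rw [smul_eq_mul, mul_smul, hw, map_smul]⟩ }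
  have hfin : Module.Finite k (R ⧸ J) := quot_finite g hg J fun i => hnil i
  obtain ⟨p, s, hs⟩ := Module.Finite.exists_fin (R := k) (M := R ⧸ J)
  choose w hw using fun i => Ideal.Quotient.mk_surjective (s i)
  -- a spanning family of cocycles
  have hspan : ∀ x, M.d x = 0 → ∃ (c : Fin m → Fin p → k) (y : M),
      x = ∑ j, ∑ i, c j i • (w i • z j) + M.d y := by
    intro x hx
    obtain ⟨t, y, hy⟩ := hgen x hx
    have h1 : ∀ j, ∃ c : Fin p → k, ∃ v : M, t j • z j = ∑ i, c i • (w i • z j) + M.d v := by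
      intro j
      have h2 : Ideal.Quotient.mk J (t j) ∈ Submodule.span k (Set.range s) := hs ▸ Submodule.mem_top
      rw [Submodule.mem_span_range_iff_exists_fun] at h2
      obtain ⟨c, hc⟩ := h2
      have h3 : t j - ∑ i, algebraMap k R (c i) * w i ∈ J := by
        rw [← Ideal.Quotient.eq_zero_iff_mem, map_sub, ← hc, map_sum, sub_eq_zero]
        refine Finset.sum_congr rfl fun i _ => ?_
        rw [map_mul, hw, Algebra.smul_def]
        rfl
      obtain ⟨v, hv⟩ := h3 (z j) (hz j)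
      refine ⟨c, v, ?_⟩
      rw [← hv, sub_smul, Finset.sum_smul]
      have h4 : ∀ i, c i • (w i • z j) = (algebraMap k R (c i) * w i) • z j := fun i => by
        rw [mul_smul]
        rfl
      simp only [h4]
      abel
    choose c v hcv using h1
    refine ⟨c, ∑ j, v j + y, ?_⟩
    rw [hy, map_add, map_sum, ← add_assoc, ← Finset.sum_add_distrib]
    congr 1
    exact Finset.sum_congr rfl fun j _ => hcv j
  -- homogeneous components
  choose F _ hF using fun ji : Fin m × Fin p => gproj_sum M.internal (w ji.2 • z ji.1)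
  let t : Finset M := Finset.univ.biUnion fun ji =>
    (F ji).image fun l => gproj M.internal l (w ji.2 • z ji.1)
  have ht : ∀ v ∈ t, M.d v = 0 ∧ ∃ i, v ∈ M.gr i := by
    intro v hv
    simp only [t, Finset.mem_biUnion, Finset.mem_univ, true_and, Finset.mem_image] at hv
    obtain ⟨ji, l, -, rfl⟩ := hv
    exact ⟨by rw [← gproj_d, map_smul, hz, smul_zero, map_zero], l, gproj_mem _ _ _⟩
  let e := t.equivFin
  have hrange : Set.range (fun j : Fin t.card => ((e.symm j : t) : M)) = t := by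
    ext v
    constructor
    · rintro ⟨j, rfl⟩
      exact (e.symm j).2
    · intro hv
      exact ⟨e ⟨v, hv⟩, by simp⟩
  have hcomp : ∀ ji : Fin m × Fin p, w ji.2 • z ji.1 ∈ Submodule.span k (t : Set M) := by
    intro ji
    rw [← hF ji (F ji) subset_rfl]
    refine Submodule.sum_mem _ fun l hl => Submodule.subset_span ?_
    simp only [t, Finset.coe_biUnion, Finset.coe_image, Set.mem_iUnion]
    exact ⟨ji, Finset.mem_coe.2 (Finset.mem_univ _), l, hl, rfl⟩
  refine ⟨t.card, fun j => ((e.symm j : t) : M), fun j => (ht _ (e.symm j).2).1,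
    fun j => (ht _ (e.symm j).2).2, fun x hx => ?_⟩
  obtain ⟨c, y, hy⟩ := hspan x hx
  have h5 : ∑ j, ∑ i, c j i • (w i • z j) ∈
      Submodule.span k (Set.range (fun j : Fin t.card => ((e.symm j : t) : M))) := by
    rw [hrange]
    exact Submodule.sum_mem _ fun j _ => Submodule.sum_mem _ fun i _ =>
      Submodule.smul_mem _ _ (hcomp (j, i))
  rw [Submodule.mem_span_range_iff_exists_fun] at h5
  obtain ⟨c', hc'⟩ := h5
  exact ⟨c', y, by rw [hy, ← hc']; rfl⟩

/-- The abstract generation theorem: let `R` be a connected graded algebra, generated by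
homogeneous elements `g j` of positive degree, and a direct summand of a finite graded extension
`S` which satisfies the ghost lemma. If a power of each `g j` acts on `S` through a finite free
`R`-module, then every DG module with finitely generated cohomology lies in the thick subcategory
generated by `R` and `k`. -/
theorem generation {S : Type u} [CommRing S] [Algebra R S] {𝒮 : ℤ → AddSubgroup S} {L : ℕ}
    [IsNoetherianRing R] (hGL : HasGL S 𝒮 L) (hA : GrRing R 𝒜) (hS : GrRing S 𝒮)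
    (halg : ∀ {i : ℤ} {r : R}, r ∈ 𝒜 i → algebraMap R S r ∈ 𝒮 i) (hfin : Module.Finite R S)
    (π : S →ₗ[R] R) (hπ1 : π 1 = 1) (hπ : ∀ {i : ℤ} {s : S}, s ∈ 𝒮 i → π s ∈ 𝒜 i)
    (ε : R →+* k) (hε : ∀ {i : ℤ} {r : R}, r ∈ 𝒜 i → ε r ∈ fieldGr k i)
    (hεk : ∀ c, ε (algebraMap k R c) = c)
    (hneg : ∀ {i : ℤ} {r : R}, r ∈ 𝒜 i → i < 0 → r = 0)
    (hzero : ∀ {r : R}, r ∈ 𝒜 0 → r = algebraMap k R (ε r))
    (hk : ∀ c, algebraMap k R c ∈ 𝒜 0) {G : DGMod R 𝒜 → Prop}
    (hG : Thick G (algMod (fieldGr_ring k) ε hε)) (hG' : Thick G (ringMod hA))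
    {r : ℕ} (g : Fin r → R) (hg : Algebra.adjoin k (Set.range g) = ⊤)
    (hgh : ∀ j, ∃ e, Even e ∧ g j ∈ 𝒜 e) (hgf : ∀ j, ∃ N : ℕ, Factors R S (g j ^ N))
    (M : DGMod R 𝒜) (hM : FG M) : Thick G M := by
  have key : ∀ a : ℕ, ∀ j : ℕ, j + a = r → ∀ M : DGMod R 𝒜, FG M →
      (∀ i : Fin r, (i : ℕ) < j → Nil (g i) M) → Thick G M := by
    intro a
    induction a with
    | zero =>
      intro j hj M hM hnil
      obtain ⟨m, z, h1, h2, h3⟩ := exists_span hA g hg M hM fun i => hnil i (by omega)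
      exact thick_of_finite hA ε hε hεk hneg hzero hk hG m M z h1 h2 h3
    | succ a ih =>
      intro j hj M hM hnil
      let i0 : Fin r := ⟨j, by omega⟩
      obtain ⟨N, hN⟩ := hgf i0
      obtain ⟨e, he, hge⟩ := hgh i0
      have h1 : (g i0 ^ N) ^ L ∈ 𝒜 (((N * L : ℕ) : ℤ) * e) := by
        rw [← pow_mul]
        exact hA.pow_mem hge _
      have he' : Even (((N * L : ℕ) : ℤ) * e) := he.mul_left _
      obtain ⟨X', q, hq, htw⟩ := twisted_ghost hGL hA hS halg hfin π hπ1 hπ M
      refine descent hA hG' hM he' h1 ⟨X', q, hq, htw _ hN⟩ ?_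
      refine ih (j + 1) (by omega) _ ((hM.cone _ (hM.shift _))) fun i hi => ?_
      rcases Nat.lt_succ_iff_lt_or_eq.1 hi with h | h
      · exact (hnil i h).cone _ ((hnil i h).shift he')
      · have : i = i0 := Fin.ext h
        rw [this]
        exact nil_cone_mul he' h1 (a := N * L) (by rw [pow_mul]) M
  exact key r 0 (by omega) M hM fun i hi => absurd hi (by omega)

end Run7.h892
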