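import Pool.Agent.Run7.h892.Iso

/-! Groups without fixed vectors have an isolated non-free locus. -/

universe u

namespace Run7.h892

open MvPolynomial DirectSum

section Factors

variable {R S : Type u} [CommRing R] [CommRing S] [Algebra R S]

lemma free_of_factors [IsNoetherianRing R] [Module.Finite R S] (p : Ideal R) [p.IsPrime]
    {f : R} (hf : f ∉ p) (h : Factors R S f) :
    Module.Free (Localization.AtPrime p) (LocalizedModule p.primeCompl S) := by
  classical
  obtain ⟨m, a, x, hax⟩ := h
  let Rp := Localization.AtPrime p
  let α : S →ₗ[R] (Fin m → R) := LinearMap.pi a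
  let β : (Fin m → R) →ₗ[R] S := ∑ j, (LinearMap.proj j : (Fin m → R) →ₗ[R] R).smulRight (x j)
  have hβα : β ∘ₗ α = f • LinearMap.id := by
    ext s
    simp only [β, α, LinearMap.comp_apply, LinearMap.sum_apply, LinearMap.smulRight_apply,
      LinearMap.proj_apply, LinearMap.pi_apply, LinearMap.smul_apply, LinearMap.id_apply]
    exact (hax s).symm
  let αp := LocalizedModule.map p.primeCompl α
  let βp := LocalizedModule.map p.primeCompl β
  have hfu : IsUnit (algebraMap R Rp f) :=
    IsLocalization.map_units Rp (⟨f, hf⟩ : p.primeCompl)
  obtain ⟨u, hu⟩ := hfu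
  have hcomp : βp ∘ₗ αp = (algebraMap R Rp f) • LinearMap.id := by
    ext s
    induction s using LocalizedModule.induction_on with
    | h s t =>
      have h1 : β (α s) = f • s := LinearMap.congr_fun hβα s
      simp only [αp, βp, LinearMap.comp_apply, LocalizedModule.map_mk, LinearMap.smul_apply,
        LinearMap.id_apply, h1]
      rw [algebraMap_smul, LocalizedModule.smul'_mk]
  have hproj : Module.Projective Rp (LocalizedModule p.primeCompl S) := by
    have hfree : Module.Free Rp (LocalizedModule p.primeCompl (Fin m → R)) :=
      Module.free_of_isLocalizedModule (Rₛ := Rp) p.primeCompl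
        (LocalizedModule.mkLinearMap p.primeCompl (Fin m → R))
    refine Module.Projective.of_split αp (((u⁻¹ : Rpˣ) : Rp) • βp) ?_
    rw [LinearMap.smul_comp, hcomp, ← hu, smul_smul, Units.inv_mul, one_smul]
  have hfin : Module.Finite Rp (LocalizedModule p.primeCompl S) :=
    Module.Finite.of_isLocalizedModule p.primeCompl
      (LocalizedModule.mkLinearMap p.primeCompl S)
  exact Module.free_of_flat_of_isLocalRing

end Factors

variable {k : Type u} [Field k] {n : ℕ}

/-- If no nonidentity element of `W` fixes a nonzero vector, then the polynomial ring is free over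
the invariants at all primes other than the ideal of the invariants without constant term. -/
theorem freeOff_of_fixedPointFree (W : Subgroup (Matrix.GeneralLinearGroup (Fin n) k)) [Finite W]
    (hfree : ∀ w ∈ W, w ≠ 1 → ∀ v : Fin n → k,
      (w : Matrix (Fin n) (Fin n) k).mulVec v = v → v = 0) :
    FreeOff (invariants W) (MvPolynomial (Fin n) k) (RingHom.ker (aug W)) := by
  intro p hp hpm
  have hft := finiteType_invariants W
  have hnoeth := noetherian_invariants W
  have hfin := finite_invariants W
  have hex : ∃ f ∈ RingHom.ker (aug W), f ∉ p := by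
    by_contra hcon
    push Not at hcon
    have hle : RingHom.ker (aug W) ≤ p := fun f hf => hcon f hf
    have hmax : (RingHom.ker (aug W)).IsMaximal := by
      refine RingHom.ker_isMaximal_of_surjective _ fun c => ⟨algebraMap k (invariants W) c, ?_⟩
      exact constantCoeff_C _ c
    exact hpm (hmax.eq_of_le hp.ne_top hle).symm
  obtain ⟨f, hf, hfp⟩ := hex
  have hf0 : aug W f = 0 := hf
  obtain ⟨N, hN⟩ := factors_pow W hfree f hf0
  exact free_of_factors p (fun h => hfp (hp.mem_of_pow_mem N h)) hN

end Run7.h892
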