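import Pool.Agent.Run7.h892.Ghost

/-! The even grading of a polynomial ring, DG modules over it, and the Koszul type resolutions
which kill composites of ghosts. -/

universe u

namespace Run7.h892

open MvPolynomial

section PolyGr

variable (σ : Type) (k : Type u) [Field k]

/-- The cohomological grading of a polynomial ring with generators in degree `2`: the part of
degree `i` consists of the polynomials all of whose monomials have total degree `i / 2`. -/
def polyGr (i : ℤ) : AddSubgroup (MvPolynomial σ k) where
  carrier := {p | ∀ m, coeff m p ≠ 0 → 2 * (m.degree : ℤ) = i}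
  zero_mem' := fun m hm => absurd (coeff_zero m) hm
  add_mem' := fun {p q} hp hq m hm => by
    rw [coeff_add] at hm
    by_cases h : coeff m p = 0
    · rw [h, zero_add] at hm
      exact hq m hm
    · exact hp m h
  neg_mem' := fun {p} hp m hm => by
    rw [coeff_neg, neg_ne_zero] at hm
    exact hp m hm

variable {σ k}

lemma mem_polyGr {i : ℤ} {p : MvPolynomial σ k} :
    p ∈ polyGr σ k i ↔ ∀ m, coeff m p ≠ 0 → 2 * (m.degree : ℤ) = i := Iff.rfl

lemma monomial_mem (m : σ →₀ ℕ) (c : k) : monomial m c ∈ polyGr σ k (2 * (m.degree : ℤ)) := by
  classical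
  intro m' hm'
  rw [coeff_monomial] at hm'
  by_cases h : m = m'
  · rw [h]
  · rw [if_neg h] at hm'
    exact absurd rfl hm'

lemma polyGr_internal (σ : Type) (k : Type u) [Field k] :
    DirectSum.IsInternal (polyGr σ k) := by
  classical
  refine isInternal_of_proj _
    (fun i => if 2 * ((i / 2).toNat : ℤ) = i then
      (homogeneousComponent (i / 2).toNat : MvPolynomial σ k →ₗ[k] _).toAddMonoidHom else 0)
    (fun i x hx => ?_) (fun i j x hij hx => ?_) (fun x => ?_)
  · by_cases hi : 2 * ((i / 2).toNat : ℤ) = i
    · simp only [if_pos hi]
      ext m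
      change coeff m (homogeneousComponent (i / 2).toNat x) = _
      rw [coeff_homogeneousComponent]
      by_cases hm : coeff m x = 0
      · rw [hm, ite_self]
      · have := hx m hm
        rw [if_pos (by omega)]
    · simp only [if_neg hi]
      ext m
      change coeff m (0 : MvPolynomial σ k) = _
      rw [coeff_zero]
      by_contra hm
      have := hx m (Ne.symm hm)
      omega
  · by_cases hi : 2 * ((j / 2).toNat : ℤ) = j
    · simp only [if_pos hi]
      ext m
      change coeff m (homogeneousComponent (j / 2).toNat x) = _
      rw [coeff_homogeneousComponent, coeff_zero]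
      by_cases hm : coeff m x = 0
      · rw [hm, ite_self]
      · have := hx m hm
        rw [if_neg (by omega)]
    · simp only [if_neg hi]
      rfl
  · induction x using MvPolynomial.induction_on' with
    | monomial m c => exact AddSubgroup.mem_iSup_of_mem _ (monomial_mem m c)
    | add p q hp hq => exact AddSubgroup.add_mem _ hp hq

lemma polyGr_mul {i j : ℤ} {p q : MvPolynomial σ k} (hp : p ∈ polyGr σ k i)
    (hq : q ∈ polyGr σ k j) : p * q ∈ polyGr σ k (i + j) := by
  classical
  intro m hm
  rw [coeff_mul] at hm
  obtain ⟨x, hx, hx'⟩ := Finset.exists_ne_zero_of_sum_ne_zero hm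
  have h1 := hp x.1 (left_ne_zero_of_mul hx')
  have h2 := hq x.2 (right_ne_zero_of_mul hx')
  rw [Finset.HasAntidiagonal.mem_antidiagonal] at hx
  rw [← hx, map_add]
  push_cast
  linarith

lemma C_mem (c : k) : (C c : MvPolynomial σ k) ∈ polyGr σ k 0 := by
  have := monomial_mem (0 : σ →₀ ℕ) c
  simpa using this

lemma X_mem (j : σ) : (X j : MvPolynomial σ k) ∈ polyGr σ k 2 := by
  have h := monomial_mem (Finsupp.single j 1) (1 : k)
  rwa [Finsupp.degree_single] at h

lemma one_mem' : (1 : MvPolynomial σ k) ∈ polyGr σ k 0 := by
  simpa using C_mem (σ := σ) (1 : k)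

/-- A module over a polynomial ring is graded as soon as the constants preserve the degree and
the variables raise it by `2`. -/
lemma smul_mem_of_gens {N : Type*} [AddCommGroup N] [Module (MvPolynomial σ k) N]
    (gr : ℤ → AddSubgroup N)
    (hC : ∀ (c : k) {j : ℤ} {x : N}, x ∈ gr j → (C c : MvPolynomial σ k) • x ∈ gr j)
    (hX : ∀ (i : σ) {j : ℤ} {x : N}, x ∈ gr j → (X i : MvPolynomial σ k) • x ∈ gr (2 + j))
    {i j : ℤ} {p : MvPolynomial σ k} {x : N} (hp : p ∈ polyGr σ k i) (hx : x ∈ gr j) :
    p • x ∈ gr (i + j) := by
  classical
  have key : ∀ (m : σ →₀ ℕ) {j : ℤ} {x : N}, x ∈ gr j →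
      (monomial m (1 : k)) • x ∈ gr (2 * (m.degree : ℤ) + j) := by
    intro m
    induction m using Finsupp.induction_linear with
    | zero =>
      intro j x hx
      simpa using hx
    | add a b ha hb =>
      intro j x hx
      have h := ha (hb hx)
      rw [smul_smul, monomial_mul, one_mul] at h
      convert h using 2
      rw [map_add]
      push_cast
      ring
    | single i a =>
      induction a with
      | zero =>
        intro j x hx
        simpa using hx
      | succ a ih =>
        intro j x hx
        have h := hX i (ih hx)
        rw [smul_smul, X, monomial_mul, one_mul, ← Finsupp.single_add, add_comm 1 a] at h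
        convert h using 2
        rw [Finsupp.degree_single, Finsupp.degree_single]
        push_cast
        ring
  rw [p.as_sum, Finset.sum_smul]
  refine AddSubgroup.sum_mem _ fun m hm => ?_
  have h1 : monomial m (coeff m p) = C (coeff m p) * monomial m (1 : k) := by
    rw [C_mul_monomial, mul_one]
  rw [h1, mul_smul]
  have h2 := hC (coeff m p) (key m hx)
  rwa [hp m (mem_support_iff.1 hm)] at h2

/-- An additive map between modules over a polynomial ring which commutes with the constants and
the variables is linear. -/
def linOfGens {M N : Type*} [AddCommGroup M] [Module (MvPolynomial σ k) M]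
    [AddCommGroup N] [Module (MvPolynomial σ k) N] (f : M →+ N)
    (hC : ∀ (c : k) (x : M), f ((C c : MvPolynomial σ k) • x) = (C c : MvPolynomial σ k) • f x)
    (hX : ∀ (i : σ) (x : M), f ((X i : MvPolynomial σ k) • x) = (X i : MvPolynomial σ k) • f x) :
    M →ₗ[MvPolynomial σ k] N where
  toFun := f
  map_add' := map_add f
  map_smul' p := by
    induction p using MvPolynomial.induction_on with
    | C c => exact hC c
    | add p q hp hq =>
      intro x
      rw [add_smul, map_add, hp, hq]
      exact (add_smul _ _ _).symm
    | mul_X p i hp =>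
      intro x
      rw [mul_smul, hp, hX]
      exact (mul_smul _ _ _).symm

end PolyGr

end Run7.h892
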