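import Pool.Agent.Run7.h892.Poly

/-! The module `N[t]` over a polynomial ring, on which the variable `X i` acts as multiplication
by `t` and everything else acts through `N`. -/

universe u

namespace Run7.h892

open MvPolynomial

variable {n : ℕ} {k : Type u} [Field k]

/-- The substitution which replaces the variable `X i` by a new variable. -/
noncomputable def TPhom (i : Fin n) :
    MvPolynomial (Fin n) k →ₐ[k] Polynomial (MvPolynomial (Fin n) k) :=
  aeval fun j => if j = i then Polynomial.X else Polynomial.C (X j)

/-- The module `N[t]`. -/
def TP (k : Type u) [Field k] (_ : Fin n) (N : Type u) [AddCommGroup N] [Module (MvPolynomial (Fin n) k) N] : Type u :=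
  PolynomialModule (MvPolynomial (Fin n) k) N

namespace TP

variable (i : Fin n) {N : Type u} [AddCommGroup N] [Module (MvPolynomial (Fin n) k) N]

noncomputable instance : AddCommGroup (TP k i N) :=
  inferInstanceAs (AddCommGroup (PolynomialModule (MvPolynomial (Fin n) k) N))

noncomputable instance : Module (MvPolynomial (Fin n) k) (TP k i N) :=
  Module.compHom (PolynomialModule (MvPolynomial (Fin n) k) N) (TPhom i).toRingHom

/-- The element `t ^ a x`. -/
noncomputable def single (a : ℕ) : N →+ TP k i N where
  toFun x := PolynomialModule.single (MvPolynomial (Fin n) k) a x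
  map_zero' := PolynomialModule.single_zero a
  map_add' x y := PolynomialModule.single_add a x y

/-- The coefficients. -/
noncomputable def coeffHom : TP k i N ≃+ (ℕ →₀ N) :=
  PolynomialModule.coeffAddEquiv

lemma coeffHom_single (a : ℕ) (x : N) : coeffHom (k := k) i (single i a x) = Finsupp.single a x :=
  rfl

lemma smul_def' (p : MvPolynomial (Fin n) k) (v : TP k i N) :
    p • v = (show TP k i N from (TPhom i p) •
      (show PolynomialModule (MvPolynomial (Fin n) k) N from v)) := rfl

lemma X_smul_single (a : ℕ) (x : N) :
    (X i : MvPolynomial (Fin n) k) • single (k := k) i a x = single i (a + 1) x := by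
  rw [smul_def']
  have h : TPhom (k := k) i (X i) = Polynomial.monomial 1 1 := by
    rw [TPhom, aeval_X, if_pos rfl]
    rfl
  rw [h]
  change Polynomial.monomial 1 1 • PolynomialModule.single (MvPolynomial (Fin n) k) a x =
    PolynomialModule.single (MvPolynomial (Fin n) k) (a + 1) x
  rw [PolynomialModule.monomial_smul_single, one_smul, add_comm]

lemma X_smul_single_ne {j : Fin n} (hj : j ≠ i) (a : ℕ) (x : N) :
    (X j : MvPolynomial (Fin n) k) • single (k := k) i a x =
      single i a ((X j : MvPolynomial (Fin n) k) • x) := by
  rw [smul_def']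
  have h : TPhom (k := k) i (X j) = Polynomial.monomial 0 (X j) := by
    rw [TPhom, aeval_X, if_neg hj]
    rfl
  rw [h]
  change Polynomial.monomial 0 (X j : MvPolynomial (Fin n) k) • PolynomialModule.single (MvPolynomial (Fin n) k) a x =
    PolynomialModule.single (MvPolynomial (Fin n) k) a _
  rw [PolynomialModule.monomial_smul_single, zero_add]

lemma C_smul_single (c : k) (a : ℕ) (x : N) :
    (C c : MvPolynomial (Fin n) k) • single (k := k) i a x =
      single i a ((C c : MvPolynomial (Fin n) k) • x) := by
  rw [smul_def']
  have h : TPhom (k := k) i (C c) = Polynomial.monomial 0 (C c) := by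
    rw [TPhom, aeval_C]
    rfl
  rw [h]
  change Polynomial.monomial 0 (C c : MvPolynomial (Fin n) k) • PolynomialModule.single (MvPolynomial (Fin n) k) a x =
    PolynomialModule.single (MvPolynomial (Fin n) k) a _
  rw [PolynomialModule.monomial_smul_single, zero_add]

variable {i}

@[elab_as_elim]
lemma induction {p : TP k i N → Prop} (v : TP k i N) (h0 : p 0)
    (hadd : ∀ v w, p v → p w → p (v + w)) (hs : ∀ a x, p (single i a x)) : p v :=
  PolynomialModule.induction_linear (p := p) v h0 hadd hs

/-- The additive map with prescribed values on the `t ^ a x`. -/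
noncomputable def lift {Z : Type*} [AddCommGroup Z] (g : ℕ → N →+ Z) : TP k i N →+ Z :=
  (Finsupp.liftAddHom g).comp (coeffHom (k := k) i).toAddMonoidHom

lemma lift_single {Z : Type*} [AddCommGroup Z] (g : ℕ → N →+ Z) (a : ℕ) (x : N) :
    lift (k := k) (i := i) g (single i a x) = g a x := by
  change Finsupp.liftAddHom g (coeffHom (k := k) i (single i a x)) = _
  rw [coeffHom_single, Finsupp.liftAddHom_apply_single]

lemma hom_ext {Z : Type*} [AddCommGroup Z] {f g : TP k i N →+ Z}
    (h : ∀ a x, f (single i a x) = g (single i a x)) (v : TP k i N) : f v = g v := by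
  induction v using TP.induction with
  | h0 => simp
  | hadd v w hv hw => rw [map_add, map_add, hv, hw]
  | hs a x => exact h a x

/-- Two additive maps agree if they agree on the `t ^ a x`; unbundled version. -/
lemma eq_of_single {Z : Type*} [AddCommGroup Z] {f g : TP k i N → Z}
    (hf : ∀ v w, f (v + w) = f v + f w) (hg : ∀ v w, g (v + w) = g v + g w)
    (h : ∀ a x, f (single i a x) = g (single i a x)) (v : TP k i N) : f v = g v :=
  hom_ext (f := AddMonoidHom.mk' f hf) (g := AddMonoidHom.mk' g hg) h v

/-- The map `N[t] → N'[t]` induced by an additive map. -/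
noncomputable def map {N' : Type u} [AddCommGroup N'] [Module (MvPolynomial (Fin n) k) N']
    (f : N →+ N') : TP k i N →+ TP k i N' :=
  lift fun a => (single i a).comp f

lemma map_single {N' : Type u} [AddCommGroup N'] [Module (MvPolynomial (Fin n) k) N']
    (f : N →+ N') (a : ℕ) (x : N) :
    map (k := k) (i := i) f (single i a x) = single i a (f x) := by
  rw [map, lift_single]
  rfl

/-- The map `N[t] → N'[t]` induced by a linear map. -/
noncomputable def mapL {N' : Type u} [AddCommGroup N'] [Module (MvPolynomial (Fin n) k) N']
    (f : N →ₗ[MvPolynomial (Fin n) k] N') :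
    TP k i N →ₗ[MvPolynomial (Fin n) k] TP k i N' :=
  linOfGens (map f.toAddMonoidHom)
    (fun c v => by
      induction v using TP.induction with
      | h0 => simp
      | hadd v w hv hw => rw [smul_add, map_add, map_add, hv, hw, smul_add]
      | hs a x =>
        rw [C_smul_single, map_single, map_single, C_smul_single]
        congr 1
        exact f.map_smul _ _)
    (fun j v => by
      induction v using TP.induction with
      | h0 => simp
      | hadd v w hv hw => rw [smul_add, map_add, map_add, hv, hw, smul_add]
      | hs a x =>
        by_cases hj : j = i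
        · subst hj
          rw [X_smul_single, map_single, map_single, X_smul_single]
        · rw [X_smul_single_ne i hj, map_single, map_single, X_smul_single_ne i hj]
          congr 1
          exact f.map_smul _ _)

lemma mapL_single {N' : Type u} [AddCommGroup N'] [Module (MvPolynomial (Fin n) k) N']
    (f : N →ₗ[MvPolynomial (Fin n) k] N') (a : ℕ) (x : N) :
    mapL (k := k) (i := i) f (single i a x) = single i a (f x) :=
  map_single _ a x

/-- The difference of the two actions of the variable `X i`. -/
noncomputable def kap (i : Fin n) (N : Type u) [AddCommGroup N]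
    [Module (MvPolynomial (Fin n) k) N] :
    TP k i N →ₗ[MvPolynomial (Fin n) k] TP k i N :=
  LinearMap.lsmul (MvPolynomial (Fin n) k) (TP k i N) (X i) -
    mapL (LinearMap.lsmul (MvPolynomial (Fin n) k) N (X i))

lemma kap_single (a : ℕ) (x : N) : kap (k := k) i N (single i a x) =
    single i (a + 1) x - single i a ((X i : MvPolynomial (Fin n) k) • x) := by
  rw [kap, LinearMap.sub_apply, mapL_single, LinearMap.lsmul_apply, LinearMap.lsmul_apply,
    X_smul_single]

/-- The evaluation `t ^ a x ↦ (X i) ^ a x`. -/
noncomputable def epsHom (i : Fin n) (N : Type u) [AddCommGroup N]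
    [Module (MvPolynomial (Fin n) k) N] : TP k i N →+ N :=
  lift fun a => DistribSMul.toAddMonoidHom N ((X i : MvPolynomial (Fin n) k) ^ a)

lemma epsHom_single (a : ℕ) (x : N) : epsHom (k := k) i N (single i a x) =
    (X i : MvPolynomial (Fin n) k) ^ a • x := by
  rw [epsHom, lift_single]
  rfl

/-- The evaluation as a linear map. -/
noncomputable def eps (i : Fin n) (N : Type u) [AddCommGroup N]
    [Module (MvPolynomial (Fin n) k) N] : TP k i N →ₗ[MvPolynomial (Fin n) k] N :=
  linOfGens (epsHom i N)
    (fun c v => by
      induction v using TP.induction with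
      | h0 => simp
      | hadd v w hv hw => rw [smul_add, map_add, map_add, hv, hw, smul_add]
      | hs a x => rw [C_smul_single, epsHom_single, epsHom_single, smul_smul, smul_smul, mul_comm])
    (fun j v => by
      induction v using TP.induction with
      | h0 => simp
      | hadd v w hv hw => rw [smul_add, map_add, map_add, hv, hw, smul_add]
      | hs a x =>
        by_cases hj : j = i
        · subst hj
          rw [X_smul_single, epsHom_single, epsHom_single, smul_smul, pow_succ']
        · rw [X_smul_single_ne i hj, epsHom_single, epsHom_single, smul_smul, smul_smul, mul_comm])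

lemma eps_single (a : ℕ) (x : N) : eps (k := k) i N (single i a x) =
    (X i : MvPolynomial (Fin n) k) ^ a • x := epsHom_single a x

/-- The contracting homotopy. -/
noncomputable def ctr (i : Fin n) (N : Type u) [AddCommGroup N]
    [Module (MvPolynomial (Fin n) k) N] : TP k i N →+ TP k i N :=
  lift fun a => ∑ p ∈ Finset.range a, (single i p).comp
    (DistribSMul.toAddMonoidHom N ((X i : MvPolynomial (Fin n) k) ^ (a - 1 - p)))

lemma ctr_single (a : ℕ) (x : N) : ctr (k := k) i N (single i a x) =
    ∑ p ∈ Finset.range a, single i p ((X i : MvPolynomial (Fin n) k) ^ (a - 1 - p) • x) := by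
  rw [ctr, lift_single, AddMonoidHom.finsetSum_apply]
  rfl

lemma kap_ctr (v : TP k i N) :
    kap i N (ctr i N v) = v - single i 0 (eps i N v) := by
  refine eq_of_single (f := fun v => kap i N (ctr i N v))
    (g := fun v => v - single i 0 (eps i N v)) (fun v w => by simp) (fun v w => by
      simp only [map_add]; abel) (fun a x => ?_) v
  rw [ctr_single, map_sum, eps_single]
  have h : ∀ p ∈ Finset.range a, kap (k := k) i N
      (single i p ((X i : MvPolynomial (Fin n) k) ^ (a - 1 - p) • x)) =
      single i (p + 1) ((X i : MvPolynomial (Fin n) k) ^ (a - (p + 1)) • x) -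
        single i p ((X i : MvPolynomial (Fin n) k) ^ (a - p) • x) := by
    intro p hp
    rw [Finset.mem_range] at hp
    rw [kap_single, smul_smul, ← pow_succ', show a - 1 - p = a - (p + 1) by omega,
      show a - (p + 1) + 1 = a - p by omega]
  rw [Finset.sum_congr rfl h,
    Finset.sum_range_sub (fun p => single i p ((X i : MvPolynomial (Fin n) k) ^ (a - p) • x))]
  simp

lemma ctr_kap (v : TP k i N) : ctr i N (kap i N v) = v := by
  refine eq_of_single (f := fun v => ctr i N (kap i N v))
    (g := fun v => v) (fun v w => by simp) (fun v w => rfl) (fun a x => ?_) v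
  rw [kap_single, map_sub, ctr_single, ctr_single, Finset.sum_range_succ]
  have h : ∀ p ∈ Finset.range a,
      single (k := k) i p ((X i : MvPolynomial (Fin n) k) ^ (a - 1 - p) •
        (X i : MvPolynomial (Fin n) k) • x) =
      single i p ((X i : MvPolynomial (Fin n) k) ^ (a + 1 - 1 - p) • x) := by
    intro p hp
    rw [Finset.mem_range] at hp
    rw [smul_smul, ← pow_succ, show a - 1 - p + 1 = a + 1 - 1 - p by omega]
  rw [Finset.sum_congr rfl h]
  simp

lemma ctr_single_zero (x : N) : ctr (k := k) i N (single i 0 x) = 0 := by
  rw [ctr_single]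
  simp

lemma eps_kap (v : TP k i N) : eps i N (kap i N v) = 0 := by
  refine eq_of_single (f := fun v => eps i N (kap i N v))
    (g := fun v => 0) (fun v w => by simp) (fun v w => by simp) (fun a x => ?_) v
  rw [kap_single, map_sub, eps_single, eps_single, smul_smul, pow_succ, sub_self]

lemma eps_mapL {N' : Type u} [AddCommGroup N'] [Module (MvPolynomial (Fin n) k) N']
    (f : N →ₗ[MvPolynomial (Fin n) k] N') (v : TP k i N) :
    eps i N' (mapL f v) = f (eps i N v) := by
  refine eq_of_single (f := fun v => eps i N' (mapL f v))
    (g := fun v => f (eps i N v)) (fun v w => by simp) (fun v w => by simp) (fun a x => ?_) v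
  rw [mapL_single, eps_single, eps_single, map_smul]

lemma kap_mapL {N' : Type u} [AddCommGroup N'] [Module (MvPolynomial (Fin n) k) N']
    (f : N →ₗ[MvPolynomial (Fin n) k] N') (v : TP k i N) :
    kap i N' (mapL f v) = mapL f (kap i N v) := by
  refine eq_of_single (f := fun v => kap i N' (mapL f v))
    (g := fun v => mapL f (kap i N v)) (fun v w => by simp) (fun v w => by simp)
    (fun a x => ?_) v
  rw [mapL_single, kap_single, kap_single, map_sub, mapL_single, mapL_single, f.map_smul]

lemma ctr_mapL {N' : Type u} [AddCommGroup N'] [Module (MvPolynomial (Fin n) k) N']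
    (f : N →ₗ[MvPolynomial (Fin n) k] N') (v : TP k i N) :
    ctr i N' (mapL f v) = mapL f (ctr i N v) := by
  refine eq_of_single (f := fun v => ctr i N' (mapL f v))
    (g := fun v => mapL f (ctr i N v)) (fun v w => by simp) (fun v w => by simp)
    (fun a x => ?_) v
  rw [mapL_single, ctr_single, ctr_single, map_sum]
  refine Finset.sum_congr rfl fun p _ => ?_
  rw [mapL_single, f.map_smul]

end TP

end Run7.h892
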