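import Pool.Agent.Run7.h892.Coh

/-! The ghost tower of a DG module with finitely generated cohomology, and the descent step. -/

universe u

namespace Run7.h892

open DirectSum

variable {R : Type u} [CommRing R] {𝒜 : ℤ → AddSubgroup R}

/-- The ring as a DG module over itself. -/
@[reducible] def ringMod (hA : GrRing R 𝒜) : DGMod R 𝒜 where
  carrier := R
  gr := 𝒜
  internal := hA.internal
  smul_mem := fun hr hx => hA.mul_mem hr hx
  d := 0
  d_mem := fun _ => AddSubgroup.zero_mem _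
  d_d _ := rfl

/-- The zero DG module. -/
@[reducible] def zeroMod (R : Type u) [CommRing R] (𝒜 : ℤ → AddSubgroup R) : DGMod R 𝒜 where
  carrier := PUnit
  gr _ := ⊤
  internal := by
    refine isInternal_of_proj _ (fun _ => 0) (fun _ _ _ => rfl) (fun _ _ _ _ _ => rfl)
      (fun x => AddSubgroup.zero_mem _)
  smul_mem := fun _ _ => trivial
  d := 0
  d_mem := fun _ => trivial
  d_d _ := rfl

/-- The zero map to the zero module. -/
def toZero (M : DGMod R 𝒜) : DGHom M (zeroMod R 𝒜) where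
  lin := 0
  comm _ := rfl
  mem := fun _ => trivial

lemma sesZero (M : DGMod R 𝒜) : IsSES (DGHom.id M) (toZero M) where
  inj _ h := h
  surj _ := ⟨0, rfl⟩
  exact y := ⟨fun _ => ⟨y, rfl⟩, fun _ => rfl⟩

lemma Thick.zero {G : DGMod R 𝒜 → Prop} {M : DGMod R 𝒜} (h : Thick G M) :
    Thick G (zeroMod R 𝒜) := .ses3 _ _ (sesZero M) h h

/-- `θ` is injective with cokernel in the thick subcategory. -/
def Rel (G : DGMod R 𝒜 → Prop) {X Y : DGMod R 𝒜} (θ : DGHom X Y) : Prop :=
  ∃ (Q : DGMod R 𝒜) (p : DGHom Y Q), IsSES θ p ∧ Thick G Q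

/-- The map of cones induced by `p` on the target. -/
@[reducible] def coneMapTarget {F Y Q : DGMod R 𝒜} (g : DGHom F Y) (p : DGHom Y Q) :
    DGHom (cone g) (cone (p.comp g)) where
  lin := p.lin.prodMap LinearMap.id
  comm x := by
    obtain ⟨y, x⟩ := x
    refine Prod.ext ?_ rfl
    change p (Y.d y + g x) = Q.d (p y) + p (g x)
    rw [map_add, p.comm]
  mem := fun {i x} hx => by
    rw [AddSubgroup.mem_prod] at hx ⊢
    exact ⟨p.mem hx.1, hx.2⟩

lemma Rel.cone_step {G : DGMod R 𝒜 → Prop} {X Y F : DGMod R 𝒜} {θ : DGHom X Y} (h : Rel G θ)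
    (g : DGHom F Y) (hF : Thick G F) : Rel G ((coneInl g).comp θ) := by
  obtain ⟨Q, p, hs, hQ⟩ := h
  refine ⟨cone (p.comp g), coneMapTarget g p, ⟨fun x hx => ?_, fun z => ?_, fun y => ?_⟩,
    .cone _ hF hQ⟩
  · exact hs.inj x (congrArg Prod.fst hx)
  · obtain ⟨y, hy⟩ := hs.surj z.1
    exact ⟨(y, z.2), Prod.ext hy rfl⟩
  · constructor
    · intro h
      have h1 : p y.1 = 0 := congrArg Prod.fst h
      have h2 : y.2 = 0 := congrArg Prod.snd h
      obtain ⟨x, hx⟩ := (hs.exact _).1 h1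
      exact ⟨x, Prod.ext hx h2.symm⟩
    · rintro ⟨x, rfl⟩
      refine Prod.ext ?_ rfl
      exact (hs.exact _).2 ⟨x, rfl⟩

/-- The map `R → X` given by a homogeneous cocycle. -/
@[reducible] def cocHom (hA : GrRing R 𝒜) (X : DGMod R 𝒜) {i : ℤ} {z : X} (hz : z ∈ X.gr i)
    (hdz : X.d z = 0) : DGHom ((ringMod hA).shift (-i)) X where
  lin := LinearMap.toSpanSingleton R X z
  comm r := by
    have h1 : ((ringMod hA).shift (-i)).d r = 0 := by
      rw [shift_d]
      exact smul_zero _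
    rw [h1, map_zero, LinearMap.toSpanSingleton_apply, map_smul, hdz, smul_zero]
  mem := fun {j r} hr => by
    have := X.smul_mem (show r ∈ 𝒜 (j + -i) from hr) hz
    rwa [neg_add_cancel_right] at this

lemma kill_finset [IsNoetherianRing R] (hA : GrRing R 𝒜) {G : DGMod R 𝒜 → Prop}
    (hG : Thick G (ringMod hA)) {X Y : DGMod R 𝒜} {θ : DGHom X Y} (hθ : Rel G θ) (hY : FG Y)
    (t : Finset Y) (ht : ∀ z ∈ t, Y.d z = 0 ∧ ∃ i, z ∈ Y.gr i) :
    ∃ (Y' : DGMod R 𝒜) (ψ : DGHom Y Y'), Rel G (ψ.comp θ) ∧ FG Y' ∧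
      ∀ z ∈ t, ∃ w, ψ z = Y'.d w := by
  classical
  induction t using Finset.induction_on with
  | empty => exact ⟨Y, DGHom.id Y, hθ, hY, by simp⟩
  | insert z t hzt ih =>
    obtain ⟨Y', ψ, h1, h2, h3⟩ := ih fun z hz => ht z (Finset.mem_insert_of_mem hz)
    obtain ⟨hdz, i, hz⟩ := ht z (Finset.mem_insert_self _ _)
    have hdz' : Y'.d (ψ z) = 0 := by rw [← ψ.comm, hdz, map_zero]
    let g := cocHom hA Y' (ψ.mem hz) hdz'
    refine ⟨cone g, (coneInl g).comp ψ, h1.cone_step g (.shift _ hG),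
      .cone g ((FG.of_noetherian (ringMod hA)).shift _) h2, fun w hw => ?_⟩
    rcases Finset.mem_insert.1 hw with rfl | hw
    · refine ⟨((0 : Y'), (1 : R)), ?_⟩
      rw [cone_d]
      refine Prod.ext ?_ ?_
      · change ψ w = Y'.d 0 + (1 : R) • ψ w
        rw [map_zero, zero_add, one_smul]
      · change (0 : R) = -((ringMod hA).shift (-i)).d (1 : R)
        rw [shift_d]
        change (0 : R) = -((_ : ℤ) • (0 : R))
        rw [smul_zero, neg_zero]
    · obtain ⟨v, hv⟩ := h3 w hw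
      refine ⟨coneInl g v, ?_⟩
      rw [← (coneInl g).comm, ← hv]
      rfl

lemma gproj_d (M : DGMod R 𝒜) (j : ℤ) (x : M) :
    gproj M.internal (j + 1) (M.d x) = M.d (gproj M.internal j x) := by
  induction x using gr_induction M.internal with
  | h0 => rw [map_zero, map_zero, map_zero, map_zero]
  | hadd x y hx hy => rw [map_add, map_add, hx, hy, map_add, map_add]
  | hh i x hx =>
    by_cases hij : i = j
    · subst hij
      rw [gproj_of_mem M.internal (M.d_mem hx), gproj_of_mem M.internal hx]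
    · rw [gproj_of_mem_ne M.internal (by omega) (M.d_mem hx), gproj_of_mem_ne M.internal hij hx,
        map_zero]

lemma ghost_step [IsNoetherianRing R] (hA : GrRing R 𝒜) {G : DGMod R 𝒜 → Prop}
    (hG : Thick G (ringMod hA)) {X Y : DGMod R 𝒜} {θ : DGHom X Y} (hθ : Rel G θ) (hY : FG Y) :
    ∃ (Y' : DGMod R 𝒜) (ψ : DGHom Y Y'), Rel G (ψ.comp θ) ∧ FG Y' ∧
      ∀ z, Y.d z = 0 → ∃ w, ψ z = Y'.d w := by
  classical
  obtain ⟨m, z, hz, hgen⟩ := (FG.iff Y).1 hY
  choose s hs using fun j => gproj_sum Y.internal (z j)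
  let t : Finset Y := Finset.univ.biUnion fun j => (s j).image fun i => gproj Y.internal i (z j)
  have ht : ∀ w ∈ t, Y.d w = 0 ∧ ∃ i, w ∈ Y.gr i := by
    intro w hw
    simp only [t, Finset.mem_biUnion, Finset.mem_univ, true_and, Finset.mem_image] at hw
    obtain ⟨j, i, -, rfl⟩ := hw
    exact ⟨by rw [← gproj_d, hz, map_zero], i, gproj_mem _ _ _⟩
  obtain ⟨Y', ψ, h1, h2, h3⟩ := kill_finset hA hG hθ hY t ht
  refine ⟨Y', ψ, h1, h2, ?_⟩
  have h4 : ∀ j, ∃ w, ψ (z j) = Y'.d w := by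
    intro j
    have h5 : ∀ i ∈ s j, ∃ w, ψ (gproj Y.internal i (z j)) = Y'.d w := by
      intro i hi
      refine h3 _ ?_
      simp only [t, Finset.mem_biUnion, Finset.mem_univ, true_and, Finset.mem_image]
      exact ⟨j, i, hi, rfl⟩
    have h6 : ψ (z j) ∈ LinearMap.range Y'.d := by
      rw [← (hs j).2 (s j) subset_rfl, map_sum]
      refine Submodule.sum_mem _ fun i hi => ?_
      obtain ⟨w, hw⟩ := h5 i hi
      exact ⟨w, hw.symm⟩
    obtain ⟨w, hw⟩ := h6
    exact ⟨w, hw.symm⟩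
  intro x hx
  obtain ⟨r, y, rfl⟩ := hgen x hx
  choose w hw using h4
  refine ⟨∑ j, r j • w j + ψ y, ?_⟩
  rw [map_add, map_add, map_sum, map_sum, ψ.comm]
  congr 1
  refine Finset.sum_congr rfl fun j _ => ?_
  rw [map_smul, map_smul, hw]

/-- The ghost tower. -/
lemma tower [IsNoetherianRing R] (hA : GrRing R 𝒜) {G : DGMod R 𝒜 → Prop}
    (hG : Thick G (ringMod hA)) (X : DGMod R 𝒜) (hX : FG X) (L : ℕ) :
    ∃ (Y : DGMod R 𝒜) (θ : DGHom X Y), Rel G θ ∧ FG Y ∧ GC L X.toD Y.toD θ.lin := by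
  induction L with
  | zero => exact ⟨X, DGHom.id X, ⟨_, _, sesZero X, hG.zero⟩, hX, .chain _ fun _ => rfl⟩
  | succ L ih =>
    obtain ⟨Y, θ, h1, h2, h3⟩ := ih
    obtain ⟨Y', ψ, h4, h5, h6⟩ := ghost_step hA hG h1 h2
    refine ⟨Y', ψ.comp θ, h4, h5, ?_⟩
    exact @GC.ghost R _ L X.toD Y.toD Y'.toD θ.lin ψ.lin h3 ψ.comm h6

/-- Multiplication by a homogeneous element of even degree. -/
@[reducible] def mulHom {e : ℤ} (he : Even e) {f : R} (hf : f ∈ 𝒜 e) (X : DGMod R 𝒜) :
    DGHom X (X.shift e) where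
  lin := LinearMap.lsmul R X f
  comm x := by
    rw [shift_d_even _ he, LinearMap.lsmul_apply, LinearMap.lsmul_apply, map_smul]
  mem := fun {i x} hx => by
    have := X.smul_mem hf hx
    rwa [add_comm] at this

/-- The shift of a morphism. -/
@[reducible] def shiftHom {X Y : DGMod R 𝒜} (θ : DGHom X Y) (e : ℤ) :
    DGHom (X.shift e) (Y.shift e) where
  lin := θ.lin
  comm x := by rw [shift_d, shift_d, map_zsmul, θ.comm]
  mem := fun hx => θ.mem hx

/-- The map of cones induced by `q` on the source. -/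
@[reducible] def coneMapSource {X' X Z : DGMod R 𝒜} (q : DGHom X' X) (m : DGHom X Z) :
    DGHom (cone (m.comp q)) (cone m) where
  lin := LinearMap.id.prodMap q.lin
  comm x := by
    obtain ⟨z, x⟩ := x
    refine Prod.ext rfl ?_
    change q (-X'.d x) = -X.d (q x)
    rw [map_neg, q.comm]
  mem := fun {i x} hx => by
    rw [AddSubgroup.mem_prod] at hx ⊢
    exact ⟨hx.1, q.mem hx.2⟩

lemma coneMapSource_isQis {X' X Z : DGMod R 𝒜} {q : DGHom X' X} (hq : q.IsQis)
    (m : DGHom X Z) : (coneMapSource q m).IsQis := by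
  constructor
  · rintro ⟨z, x'⟩ hx ⟨⟨z0, x0⟩, hy⟩
    rw [cone_d] at hx hy
    have h1 : -X'.d x' = 0 := congrArg Prod.snd hx
    have h2 : z = Z.d z0 + m x0 := congrArg Prod.fst hy
    have h3 : q x' = -X.d x0 := congrArg Prod.snd hy
    obtain ⟨x0', hx0'⟩ := hq.1 x' (neg_eq_zero.1 h1) ⟨-x0, by rw [h3, map_neg]⟩
    have h4 : X.d (q x0' + x0) = 0 := by
      rw [map_add, ← q.comm, ← hx0', h3]
      abel
    obtain ⟨x1, hx1, w, hw⟩ := hq.2 _ h4
    refine ⟨(z0 + m w, -x0' + x1), ?_⟩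
    rw [cone_d]
    refine Prod.ext ?_ ?_
    · change z = Z.d (z0 + m w) + m (q (-x0' + x1))
      have h5 : x0 = q x1 + X.d w - q x0' := by
        rw [← hw]
        abel
      rw [h2, h5]
      simp only [map_add, map_sub, map_neg, m.comm]
      abel
    · change x' = -X'.d (-x0' + x1)
      rw [map_add, hx1, add_zero, map_neg, neg_neg, hx0']
  · rintro ⟨z, x⟩ hx
    rw [cone_d] at hx
    have h1 : -X.d x = 0 := congrArg Prod.snd hx
    have h2 : Z.d z + m x = 0 := congrArg Prod.fst hx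
    obtain ⟨x', hx', w, hw⟩ := hq.2 x (neg_eq_zero.1 h1)
    refine ⟨(z + m w, x'), ?_, (0, -w), ?_⟩
    · rw [cone_d]
      refine Prod.ext ?_ ?_
      · change Z.d (z + m w) + m (q x') = 0
        rw [← h2, hw]
        simp only [map_add, m.comm]
        abel
      · change -X'.d x' = 0
        rw [hx', neg_zero]
    · rw [cone_d]
      refine Prod.ext ?_ ?_
      · change z = (z + m w) + (Z.d 0 + m (-w))
        rw [map_zero, map_neg]
        abel
      · change x = q x' + -X.d (-w)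
        rw [map_neg, neg_neg, hw]

/-- The descent step: if the cone of `f ^ L` on `X` lies in the thick subcategory, so does `X`. -/
theorem descent [IsNoetherianRing R] (hA : GrRing R 𝒜) {G : DGMod R 𝒜 → Prop}
    (hG : Thick G (ringMod hA)) {L : ℕ} {X : DGMod R 𝒜} (hX : FG X) {f : R} {N : ℤ}
    (hN : Even N) (hfN : f ^ L ∈ 𝒜 N)
    (htw : ∃ (X' : DGMod R 𝒜) (q : DGHom X' X), q.IsQis ∧
      ∀ (Y : DMod R) (θ : X →ₗ[R] Y), GC L X.toD Y θ →
        ∃ h : X' →ₗ[R] Y, ∀ x, f ^ L • θ (q x) = Y.d (h x) + h (X'.d x))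
    (hc : Thick G (cone (mulHom hN hfN X))) : Thick G X := by
  obtain ⟨Y, θ, ⟨Q, p, hs, hQ⟩, -, hgc⟩ := tower hA hG X hX L
  obtain ⟨X', q, hq, htw⟩ := htw
  obtain ⟨h, hh⟩ := htw Y.toD θ.lin hgc
  -- the homogeneous component of the homotopy
  let hc' : X' →ₗ[R] Y := gcomp hA.internal X'.internal Y.internal X'.smul_mem Y.smul_mem (N - 1) h
  have hcm : ∀ {i : ℤ} {x : X'}, x ∈ X'.gr i → hc' x ∈ Y.gr (i + (N - 1)) := fun hx =>
    gcomp_mem hA.internal X'.internal Y.internal X'.smul_mem Y.smul_mem (N - 1) h hx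
  have hcv : ∀ {i : ℤ} {x : X'}, x ∈ X'.gr i → hc' x = gproj Y.internal (i + (N - 1)) (h x) :=
    fun hx => gcomp_apply hA.internal X'.internal Y.internal X'.smul_mem Y.smul_mem (N - 1) h hx
  have hhc : ∀ x, f ^ L • θ (q x) = Y.d (hc' x) + hc' (X'.d x) := by
    intro x
    induction x using gr_induction X'.internal with
    | h0 => simp
    | hadd x y hx hy =>
      simp only [map_add, smul_add]
      rw [hx, hy]
      abel
    | hh i x hx =>
      have h1 : f ^ L • θ (q x) ∈ Y.gr (N + i) := Y.smul_mem hfN (θ.mem (q.mem hx))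
      rw [← gproj_of_mem Y.internal h1]
      have h2 : f ^ L • θ (q x) = Y.d (h x) + h (X'.d x) := hh x
      rw [h2, map_add, hcv hx, hcv (X'.d_mem hx), ← gproj_d]
      congr 2
      · congr 1
        ring
      · congr 1
        ring
  let g : DGHom X' (X.shift N) := (mulHom hN hfN X).comp q
  have hg : ∀ x, g x = f ^ L • q x := fun _ => rfl
  have hTg : Thick G (cone g) := .qis' _ (coneMapSource_isQis hq _) hc
  -- the cone of the null-homotopic composite
  let E : DGMod R 𝒜 := cone ((shiftHom θ N).comp g)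
  have hpθ : ∀ x, p (θ x) = 0 := fun x => (hs.exact _).2 ⟨x, rfl⟩
  let b : DGHom E (Q.shift N) :=
    { lin := p.lin ∘ₗ LinearMap.fst R Y X'
      comm := by
        rintro ⟨y, x⟩
        change p ((Y.shift N).d y + θ (g x)) = (Q.shift N).d (p y)
        rw [map_add, hpθ, add_zero, shift_d_even _ hN, shift_d_even _ hN, p.comm]
      mem := fun hx => p.mem (AddSubgroup.mem_prod.1 hx).1 }
  have hsE : IsSES (coneMapTarget g (shiftHom θ N)) b := by
    refine ⟨fun x hx => ?_, fun z => ?_, fun y => ?_⟩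
    · have h1 : θ x.1 = 0 := congrArg Prod.fst hx
      have h2 : x.2 = 0 := congrArg Prod.snd hx
      exact Prod.ext (hs.inj _ h1) h2
    · obtain ⟨y, hy⟩ := hs.surj z
      exact ⟨(y, 0), hy⟩
    · constructor
      · intro hy
        obtain ⟨x, hx⟩ := (hs.exact y.1).1 hy
        exact ⟨(x, y.2), Prod.ext hx rfl⟩
      · rintro ⟨x, rfl⟩
        exact hpθ _
  have hTE : Thick G E := .ses2 _ _ hsE hTg (.shift N hQ)
  let i : DGHom (X'.shift 1) E :=
    { lin := (-hc').prod LinearMap.id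
      comm := fun x => by
        refine Prod.ext ?_ ?_
        · change -hc' ((X'.shift 1).d x) = (Y.shift N).d (-hc' x) + θ (f ^ L • q x)
          rw [shift_d_one, shift_d_even _ hN, map_smul, hhc]
          simp only [map_neg]
          abel
        · change (X'.shift 1).d x = -X'.d x
          rw [shift_d_one]
      mem := fun {j x} hx => by
        refine AddSubgroup.mem_prod.2 ⟨?_, hx⟩
        change -hc' x ∈ Y.gr (j + N)
        have := hcm hx
        rw [show j + 1 + (N - 1) = j + N by ring] at this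
        exact AddSubgroup.neg_mem _ this }
  have h1 : Thick G (X'.shift 1) := .summand i (coneSnd _) (fun x => rfl) hTE
  exact .qis q hq h1.of_shift

end Run7.h892
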