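import Pool.Agent.Run7.h892.Coind

/-! Homotopy pullbacks, restriction of scalars, and the twisted ghost lemma over a ring `R` which
is a direct summand of a ring `S` satisfying the ghost lemma. -/

universe u

namespace Run7.h892

open DirectSum

variable {R S : Type u} [CommRing R] [CommRing S] [Algebra R S]
  {𝒜 : ℤ → AddSubgroup R} {𝒮 : ℤ → AddSubgroup S}

/-- A linear map, with scalars restricted. -/
@[reducible] def resLin (R : Type u) {S : Type u} [CommRing R] [CommRing S] [Algebra R S]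
    {N N' : Type u} [AddCommGroup N] [Module S N] [AddCommGroup N'] [Module S N']
    (f : N →ₗ[S] N') :
    @LinearMap R R _ _ (RingHom.id R) N N' _ _ (Module.compHom N (algebraMap R S))
      (Module.compHom N' (algebraMap R S)) :=
  letI : Module R N := Module.compHom N (algebraMap R S)
  letI : Module R N' := Module.compHom N' (algebraMap R S)
  { toFun := f
    map_add' := f.map_add
    map_smul' := fun r x => f.map_smul (algebraMap R S r) x }

/-- Restriction of scalars. -/
def res (halg : ∀ {i : ℤ} {r : R}, r ∈ 𝒜 i → algebraMap R S r ∈ 𝒮 i)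
    (N : DGMod S 𝒮) : DGMod R 𝒜 where
  carrier := N
  grp := N.grp
  mod := Module.compHom N (algebraMap R S)
  gr := N.gr
  internal := N.internal
  smul_mem := fun hr hx => N.smul_mem (halg hr) hx
  d := resLin R N.d
  d_mem := N.d_mem
  d_d := N.d_d

/-- Restriction of scalars on morphisms. -/
def resHom (halg : ∀ {i : ℤ} {r : R}, r ∈ 𝒜 i → algebraMap R S r ∈ 𝒮 i)
    {N N' : DGMod S 𝒮} (f : DGHom N N') : DGHom (𝒜 := 𝒜) (res halg N) (res halg N') where
  lin := resLin (N := N) (N' := N') R f.lin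
  comm := f.comm
  mem := f.mem

lemma resHom_isQis (halg : ∀ {i : ℤ} {r : R}, r ∈ 𝒜 i → algebraMap R S r ∈ 𝒮 i)
    {N N' : DGMod S 𝒮} {f : DGHom N N'} (hf : f.IsQis) : (resHom (𝒜 := 𝒜) halg f).IsQis :=
  hf

/-- The homotopy pullback of `f : A → C` and `g : B → C`. -/
@[reducible] def hpb {A B C : DGMod R 𝒜} (f : DGHom A C) (g : DGHom B C) : DGMod R 𝒜 where
  carrier := A × B × C
  gr i := (A.gr i).prod ((B.gr i).prod (C.gr (i + -1)))
  internal := prod_internal A.internal (prod_internal B.internal (shift_internal C.internal (-1)))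
  smul_mem := fun {i j r x} hr hx => by
    rw [AddSubgroup.mem_prod, AddSubgroup.mem_prod] at hx ⊢
    refine ⟨A.smul_mem hr hx.1, B.smul_mem hr hx.2.1, ?_⟩
    have := C.smul_mem hr hx.2.2
    rwa [← add_assoc] at this
  d := (A.d ∘ₗ LinearMap.fst R A (B × C)).prod
    ((B.d ∘ₗ LinearMap.fst R B C ∘ₗ LinearMap.snd R A (B × C)).prod
      (f.lin ∘ₗ LinearMap.fst R A (B × C) -
        g.lin ∘ₗ LinearMap.fst R B C ∘ₗ LinearMap.snd R A (B × C) -
        C.d ∘ₗ LinearMap.snd R B C ∘ₗ LinearMap.snd R A (B × C)))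
  d_mem := fun {i x} hx => by
    rw [AddSubgroup.mem_prod, AddSubgroup.mem_prod] at hx ⊢
    refine ⟨A.d_mem hx.1, B.d_mem hx.2.1, ?_⟩
    rw [add_neg_cancel_right]
    have h3 := C.d_mem hx.2.2
    rw [neg_add_cancel_right] at h3
    exact AddSubgroup.sub_mem _ (AddSubgroup.sub_mem _ (f.mem hx.1) (g.mem hx.2.1)) h3
  d_d x := by
    obtain ⟨a, b, c⟩ := x
    refine Prod.ext (A.d_d a) (Prod.ext (B.d_d b) ?_)
    change f (A.d a) - g (B.d b) - C.d (f a - g b - C.d c) = 0
    rw [map_sub, map_sub, C.d_d, f.comm, g.comm]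
    abel

lemma hpb_d {A B C : DGMod R 𝒜} (f : DGHom A C) (g : DGHom B C) (a : A) (b : B) (c : C) :
    (hpb f g).d (a, b, c) = (A.d a, B.d b, f a - g b - C.d c) := rfl

/-- The projection of the homotopy pullback to the first factor. -/
@[reducible] def hpbFst {A B C : DGMod R 𝒜} (f : DGHom A C) (g : DGHom B C) :
    DGHom (hpb f g) A where
  lin := LinearMap.fst R A (B × C)
  comm _ := rfl
  mem := fun h => (AddSubgroup.mem_prod.1 h).1

lemma hpbFst_isQis {A B C : DGMod R 𝒜} (f : DGHom A C) (g : DGHom B C) (hg : g.IsQis) :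
    (hpbFst f g).IsQis := by
  refine ⟨?_, fun a ha => ?_⟩
  · rintro ⟨a, b, c⟩ hx ⟨a0, ha0⟩
    rw [hpb_d] at hx
    have h1 : B.d b = 0 := congrArg (fun x => x.2.1) hx
    have h2 : f a - g b - C.d c = 0 := congrArg (fun x => x.2.2) hx
    have ha0' : a = A.d a0 := ha0
    have h3 : g b = C.d (f a0 - c) := by
      rw [map_sub, ← f.comm, ← ha0']
      have := sub_eq_zero.1 h2
      rw [← this]
      abel
    obtain ⟨b0, hb0⟩ := hg.1 b h1 ⟨_, h3⟩
    have h4 : C.d (f a0 - g b0 - c) = 0 := by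
      rw [map_sub, map_sub, ← f.comm, ← g.comm, ← ha0', ← hb0, h2]
    obtain ⟨b1, hb1, c1, hc1⟩ := hg.2 _ h4
    refine ⟨(a0, b0 + b1, c1), ?_⟩
    rw [hpb_d, map_add, hb1, add_zero, map_add]
    refine Prod.ext ha0' (Prod.ext hb0 ?_)
    change c = f a0 - (g b0 + g b1) - C.d c1
    have h5 : f a0 - (g b0 + g b1) - C.d c1 = (f a0 - g b0) - (g b1 + C.d c1) := by abel
    rw [h5, ← hc1]
    abel
  · have h1 : C.d (f a) = 0 := by rw [← f.comm, ha, map_zero]
    obtain ⟨b, hb, c, hc⟩ := hg.2 _ h1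
    refine ⟨(a, b, c), ?_, 0, ?_⟩
    · rw [hpb_d, ha, hb, hc]
      simp
    · change a = a + A.d 0
      rw [map_zero, add_zero]

/-- The twisted ghost lemma: over a ring `R` which is a direct summand of a finite extension `S`
satisfying the ghost lemma, composites of ghosts become null-homotopic after multiplication by a
power of an element `f` for which multiplication by `f` on `S` factors through a free module. -/
theorem twisted_ghost {L : ℕ} (hGL : HasGL S 𝒮 L) (hA : GrRing R 𝒜) (hS : GrRing S 𝒮)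
    (halg : ∀ {i : ℤ} {r : R}, r ∈ 𝒜 i → algebraMap R S r ∈ 𝒮 i) (hfin : Module.Finite R S)
    (π : S →ₗ[R] R) (hπ1 : π 1 = 1) (hπ : ∀ {i : ℤ} {s : S}, s ∈ 𝒮 i → π s ∈ 𝒜 i)
    (X : DGMod R 𝒜) :
    ∃ (X' : DGMod R 𝒜) (q : DGHom X' X), q.IsQis ∧ ∀ (f : R), Factors R S f →
      ∀ (Y : DMod R) (θ : X →ₗ[R] Y), GC L X.toD Y θ →
        ∃ h : X' →ₗ[R] Y, ∀ x, f ^ L • θ (q x) = Y.d (h x) + h (X'.d x) := by
  obtain ⟨N, qN, hqN, hN⟩ := hGL (coind hA hS halg hfin X)
  -- the unit
  let C' : DGMod R 𝒜 := res (𝒜 := 𝒜) halg (coind hA hS halg hfin X)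
  let ηL : X →ₗ[R] C' :=
    { toFun := fun x => (show Co R S X from (π.smulRight x : S →ₗ[R] X))
      map_add' := fun x y => by
        refine Co.ext fun s => ?_
        exact smul_add (π s) x y
      map_smul' := fun r x => by
        refine Co.ext fun s => ?_
        change π s • r • x = π (algebraMap R S r * s) • x
        rw [← Algebra.smul_def, π.map_smul, smul_smul, smul_eq_mul, mul_comm] }
  let η : DGHom X C' :=
    { lin := ηL
      comm := fun x => by
        refine Co.ext fun s => ?_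
        exact (X.d.map_smul (π s) x).symm
      mem := fun {i x} hx j s hs => X.smul_mem (hπ hs) hx }
  let qR : DGHom (res (𝒜 := 𝒜) halg N) (res (𝒜 := 𝒜) halg (coind hA hS halg hfin X)) :=
    resHom halg qN
  refine ⟨hpb η qR, hpbFst η qR, hpbFst_isQis η qR (resHom_isQis (𝒜 := 𝒜) halg hqN), ?_⟩
  intro f hf Y θ hθ
  obtain ⟨h', hh'⟩ := hN _ _ _ (hθ.coind (S := S) hf) qN.lin qN.comm
  let cX : C' → Co R S X := fun c => c
  let cN : res (𝒜 := 𝒜) halg N → N := fun c => c
  let F : Co R S X → Co R S Y := fun φ => (algebraMap R S f) ^ L • Co.map θ φ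
  have hF : ∀ (φ : Co R S X) (s : S), F φ s = f ^ L • θ (φ s) := by
    intro φ s
    change θ (φ ((algebraMap R S f) ^ L * s)) = _
    rw [← map_pow, ← Algebra.smul_def, Co.map_smul', θ.map_smul]
  refine ⟨{ toFun := fun x => (h' (cN x.2.1)) 1 + f ^ L • θ ((cX x.2.2) 1)
            map_add' := fun x y => ?_
            map_smul' := fun r x => ?_ }, fun x => ?_⟩
  · change h' (cN x.2.1 + cN y.2.1) 1 + f ^ L • θ ((cX x.2.2) 1 + (cX y.2.2) 1) = _
    rw [map_add, Co.add_apply, θ.map_add, smul_add]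
    abel
  · change h' (algebraMap R S r • (cN x.2.1)) 1 +
      f ^ L • θ ((cX x.2.2) (algebraMap R S r * 1)) = r • _
    rw [h'.map_smul, Co.smul_apply, ← Algebra.smul_def, Co.map_smul', Co.map_smul', θ.map_smul,
      smul_add, smul_comm]
  · obtain ⟨a, b, c⟩ := x
    have e4 : θ (X.d ((cX c) 1)) = Y.d (θ ((cX c) 1)) := hθ.comm _
    have e2 := congrArg (fun φ : Co R S Y => φ 1) (hh' (cN b))
    have e3 : f ^ L • θ ((qN (cN b) : Co R S X) 1) = Y.d ((h' (cN b) : Co R S Y) 1) +
        (h' (N.d (cN b)) : Co R S Y) 1 := by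
      rw [← hF]
      exact e2
    change f ^ L • θ a = Y.d ((h' (cN b) : Co R S Y) 1 + f ^ L • θ ((cX c) 1)) +
      ((h' (N.d (cN b)) : Co R S Y) 1 +
        f ^ L • θ (((cX (η a)) - (qN (cN b) : Co R S X) - Co.map X.d (cX c)) 1))
    have e5 : (cX (η a)) 1 = a := by
      change π 1 • a = a
      rw [hπ1, one_smul]
    rw [Co.sub_apply, Co.sub_apply, e5, map_sub, map_sub, smul_sub, smul_sub, e3,
      Co.map_apply, map_add, Y.d.map_smul, e4]
    abel

end Run7.h892
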